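import Mathlib

namespace Pool.Agent.Lib.PM42.Atom

open Set Function Filter Topology MeasureTheory

variable {K L : Type*}

/-- Riesz representation for a positive linear functional. -/
theorem riesz_pos [TopologicalSpace L] [CompactSpace L] [T2Space L] [MeasurableSpace L]
    [BorelSpace L] (Ψ : C(L, ℝ) →ₗ[ℝ] ℝ) (hpos : ∀ h, 0 ≤ h → 0 ≤ Ψ h) :
    ∃ m : Measure L, IsFiniteMeasure m ∧ ∀ g : C(L, ℝ), ∫ z, g z ∂m = Ψ g := by
  let Λ : CompactlySupportedContinuousMap L ℝ →ₚ[ℝ] ℝ :=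
    { toFun g := Ψ g.toContinuousMap
      map_add' g g' := by rw [← map_add]; rfl
      map_smul' r g := by
        simp only [RingHom.id_apply]
        rw [← map_smul]; rfl
      monotone' g g' hgg' := by
        have := hpos (g'.toContinuousMap - g.toContinuousMap) fun ω => sub_nonneg.2 (hgg' ω)
        rw [map_sub] at this
        simpa using this }
  exact ⟨RealRMK.rieszMeasure Λ, inferInstance, fun g =>
    RealRMK.integral_rieszMeasure Λ ⟨g, HasCompactSupport.of_compactSpace _⟩⟩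

/-- A bounded functional is a difference of two finite measures. -/
theorem riesz_sub [TopologicalSpace L] [CompactSpace L] [T2Space L] [MeasurableSpace L]
    [BorelSpace L] (ρ : C(L, ℝ) →L[ℝ] ℝ) :
    ∃ m m' : Measure L, IsFiniteMeasure m ∧ IsFiniteMeasure m' ∧
      ∀ g : C(L, ℝ), ρ g = ∫ z, g z ∂m - ∫ z, g z ∂m' := by
  let J : C(L, ℝ) →ₗ[ℝ] C(L, ℝ) × C(L, ℝ) := LinearMap.prod LinearMap.id (-LinearMap.id)
  let f : (C(L, ℝ) × C(L, ℝ)) →ₗ.[ℝ] ℝ :=
    ⟨LinearMap.range J, ((ρ : C(L, ℝ) →ₗ[ℝ] ℝ) ∘ₗ LinearMap.fst ℝ _ _).domRestrict _⟩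
  have hsm : ∀ c : ℝ, 0 < c → ∀ u : C(L, ℝ), ‖(c • u) ⊔ 0‖ = c * ‖u ⊔ 0‖ := by
    intro c hc u
    have : (c • u) ⊔ 0 = c • (u ⊔ 0) := by
      ext z
      simp only [ContinuousMap.sup_apply, ContinuousMap.smul_apply, smul_eq_mul,
        ContinuousMap.zero_apply]
      rw [mul_max_of_nonneg _ _ hc.le, mul_zero]
    rw [this, norm_smul, Real.norm_of_nonneg hc.le]
  have had : ∀ u v : C(L, ℝ), ‖(u + v) ⊔ 0‖ ≤ ‖u ⊔ 0‖ + ‖v ⊔ 0‖ := by
    intro u v
    refine (ContinuousMap.norm_le _ (by positivity)).2 fun z => ?_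
    have h1 := (u ⊔ 0).norm_coe_le_norm z
    have h2 := (v ⊔ 0).norm_coe_le_norm z
    simp only [ContinuousMap.sup_apply, ContinuousMap.add_apply, ContinuousMap.zero_apply,
      Real.norm_eq_abs] at h1 h2 ⊢
    rw [abs_of_nonneg (le_max_right _ _)] at h1 h2 ⊢
    refine max_le ?_ (by positivity)
    exact add_le_add ((le_max_left _ _).trans h1) ((le_max_left _ _).trans h2)
  obtain ⟨Ψ, h1, h2⟩ := exists_extension_of_le_sublinear f
    (fun p => ‖ρ‖ * (‖p.1 ⊔ 0‖ + ‖p.2 ⊔ 0‖))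
    (fun c hc p => by
      simp only [Prod.smul_fst, Prod.smul_snd, hsm c hc]; ring)
    (fun p q => by
      have := add_le_add (had p.1 q.1) (had p.2 q.2)
      have := mul_le_mul_of_nonneg_left this (norm_nonneg ρ)
      simp only [Prod.fst_add, Prod.snd_add]
      linarith)
    (by
      rintro ⟨_, g, rfl⟩
      change ρ g ≤ ‖ρ‖ * (‖g ⊔ 0‖ + ‖(-g) ⊔ 0‖)
      refine (le_abs_self _).trans ((ρ.le_opNorm g).trans
        (mul_le_mul_of_nonneg_left ?_ (norm_nonneg _)))
      have : g = (g ⊔ 0) - ((-g) ⊔ 0) := by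
        ext z
        simp only [ContinuousMap.sub_apply, ContinuousMap.sup_apply, ContinuousMap.neg_apply,
          ContinuousMap.zero_apply]
        exact (max_zero_sub_max_neg_zero_eq_self _).symm
      calc ‖g‖ = ‖(g ⊔ 0) - ((-g) ⊔ 0)‖ := by rw [← this]
        _ ≤ _ := norm_sub_le _ _)
  have hneg : ∀ u : C(L, ℝ), 0 ≤ u → (-u) ⊔ 0 = 0 := fun u hu =>
    sup_eq_right.2 (neg_nonpos.2 hu)
  obtain ⟨m, hm, hm'⟩ := riesz_pos (Ψ ∘ₗ LinearMap.inl ℝ _ _) fun u hu => by
    have := h2 (-(u, 0))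
    simp only [map_neg, Prod.neg_mk, neg_zero, hneg u hu, sup_idem, norm_zero, add_zero,
      mul_zero] at this
    have h3 : Ψ (-u, 0) = -Ψ (u, 0) := by rw [← map_neg]; simp
    change 0 ≤ Ψ (u, 0)
    linarith
  obtain ⟨n, hn, hn'⟩ := riesz_pos (Ψ ∘ₗ LinearMap.inr ℝ _ _) fun u hu => by
    have := h2 (-(0, u))
    simp only [map_neg, Prod.neg_mk, neg_zero, hneg u hu, sup_idem, norm_zero, add_zero,
      mul_zero] at this
    have h3 : Ψ (0, -u) = -Ψ (0, u) := by rw [← map_neg]; simp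
    change 0 ≤ Ψ (0, u)
    linarith
  refine ⟨m, n, hm, hn, fun g => ?_⟩
  rw [hm', hn']
  have h3 : Ψ (J g) = ρ g := h1 ⟨J g, g, rfl⟩
  rw [← h3]
  change Ψ (g, -g) = Ψ (g, 0) - Ψ (0, g)
  rw [← map_sub]
  simp

/-- Dominated convergence for a difference of two finite measures. -/
theorem dom_conv [MeasurableSpace L] {m m' : Measure L} [IsFiniteMeasure m] [IsFiniteMeasure m']
    {F : ℕ → L → ℝ} {u : L → ℝ} {M : ℝ} (hF : ∀ n, Measurable (F n))
    (hM : ∀ n z, ‖F n z‖ ≤ M) (hu : ∀ z, Tendsto (fun n => F n z) atTop (𝓝 (u z))) :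
    Tendsto (fun n => ∫ z, F n z ∂m - ∫ z, F n z ∂m') atTop
      (𝓝 (∫ z, u z ∂m - ∫ z, u z ∂m')) :=
  (tendsto_integral_of_dominated_convergence (fun _ => M)
    (fun n => (hF n).aestronglyMeasurable) (integrable_const _)
    (fun n => ae_of_all _ (hM n)) (ae_of_all _ hu)).sub
  (tendsto_integral_of_dominated_convergence (fun _ => M)
    (fun n => (hF n).aestronglyMeasurable) (integrable_const _)
    (fun n => ae_of_all _ (hM n)) (ae_of_all _ hu))

/-- Bumps shrinking to a point. -/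
noncomputable def bump [MetricSpace L] (n : ℕ) : C(L, C(L, ℝ)) :=
  ContinuousMap.curry ⟨fun p : L × L => max 0 (1 - n * dist p.1 p.2), by fun_prop⟩

theorem bump_apply [MetricSpace L] (n : ℕ) (z t : L) :
    bump n z t = max 0 (1 - n * dist z t) := rfl

/-- Cut-off functions converging to the indicator of the nonzero reals. -/
noncomputable def cut (j : ℕ) (u : ℝ) : ℝ := min 1 (j * |u|)

theorem cut_cont (j : ℕ) : Continuous (cut j) := by unfold cut; fun_prop

theorem cut_le (j : ℕ) (u : ℝ) : ‖cut j u‖ ≤ 1 := by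
  rw [cut, Real.norm_of_nonneg (le_min zero_le_one (by positivity))]
  exact min_le_left _ _

theorem cut_lim (u c : ℝ) :
    Tendsto (fun j => cut j u * c) atTop (𝓝 (if u = 0 then 0 else c)) := by
  split_ifs with h
  · simp [cut, h]
  · refine tendsto_const_nhds.congr' ?_
    have h1 : Tendsto (fun j : ℕ => (j : ℝ) * |u|) atTop atTop :=
      tendsto_natCast_atTop_atTop.atTop_mul_const (abs_pos.2 h)
    filter_upwards [h1.eventually_ge_atTop 1] with j hj
    rw [cut, min_eq_left hj, one_mul]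

/-- The test functions. -/
noncomputable def test [MetricSpace L] [CompactSpace L] (ρ : C(L, ℝ) →L[ℝ] ℝ) (g : C(L, ℝ))
    (j n : ℕ) : C(L, ℝ) :=
  ⟨fun z => cut j (ρ (bump n z)) * g z,
    ((cut_cont j).comp (ρ.continuous.comp (bump n).continuous)).mul g.continuous⟩

theorem test_le [MetricSpace L] [CompactSpace L] (ρ : C(L, ℝ) →L[ℝ] ℝ) (g : C(L, ℝ))
    (j n : ℕ) : ‖test ρ g j n‖ ≤ ‖g‖ := by
  refine (ContinuousMap.norm_le _ (norm_nonneg _)).2 fun z => ?_
  change ‖cut j (ρ (bump n z)) * g z‖ ≤ _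
  rw [norm_mul]
  exact (mul_le_of_le_one_left (norm_nonneg _) (cut_le _ _)).trans (g.norm_coe_le_norm z)

theorem bump_lim [MetricSpace L] (z t : L) :
    Tendsto (fun n => bump n z t) atTop (𝓝 (indicator {z} (fun _ => (1 : ℝ)) t)) := by
  by_cases h : t = z
  · subst h
    simp [bump_apply]
  · rw [indicator_of_notMem (by simpa using h)]
    refine tendsto_const_nhds.congr' ?_
    have h1 : Tendsto (fun j : ℕ => (j : ℝ) * dist z t) atTop atTop :=
      tendsto_natCast_atTop_atTop.atTop_mul_const (dist_pos.2 (Ne.symm h))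
    filter_upwards [h1.eventually_ge_atTop 1] with j hj
    rw [bump_apply, max_eq_left (by linarith)]

theorem summable_mass [MeasurableSpace L] [MeasurableSingletonClass L] (m : Measure L)
    [IsFiniteMeasure m] : Summable fun z => m.real {z} := by
  refine ENNReal.summable_toReal (ne_top_of_le_ne_top (measure_ne_top m _)
    (tsum_meas_le_meas_iUnion_of_disjoint m (fun z => measurableSet_singleton z) ?_))
  exact fun a b hab => disjoint_singleton.2 hab

theorem summable_mul [TopologicalSpace L] [CompactSpace L] {w : L → ℝ} (hw : Summable w)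
    (g : L → ℝ) {M : ℝ} (hM : ∀ z, ‖g z‖ ≤ M) : Summable fun z => w z * g z :=
  Summable.of_norm_bounded (hw.norm.mul_right M) fun z => by
    rw [norm_mul]
    exact mul_le_mul_of_nonneg_left (hM z) (norm_nonneg _)

/-- The point masses of a functional, and its atomic part as an iterated limit. -/
theorem ex_mass [MetricSpace L] [CompactSpace L] (ρ : C(L, ℝ) →L[ℝ] ℝ) :
    ∃ w : L → ℝ, (∀ z, Tendsto (fun n => ρ (bump n z)) atTop (𝓝 (w z))) ∧ Summable w ∧
      ∀ g : C(L, ℝ), ∃ H : ℕ → ℝ, (∀ j, Tendsto (fun n => ρ (test ρ g j n)) atTop (𝓝 (H j))) ∧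
        Tendsto H atTop (𝓝 (∑' z, w z * g z)) := by
  classical
  borelize L
  obtain ⟨m, m', hm, hm', h⟩ := riesz_sub ρ
  set w : L → ℝ := fun z => m.real {z} - m'.real {z} with hw
  have hlim : ∀ z, Tendsto (fun n => ρ (bump n z)) atTop (𝓝 (w z)) := by
    intro z
    have := dom_conv (m := m) (m' := m') (F := fun n t => bump n z t) (M := 1)
      (fun n => (bump n z).continuous.measurable)
      (fun n t => by
        rw [bump_apply, Real.norm_of_nonneg (le_max_left _ _)]
        exact max_le zero_le_one (sub_le_self _ (by positivity))) (bump_lim z)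
    simp only [← h, integral_indicator_const _ (measurableSet_singleton z), smul_eq_mul,
      mul_one] at this
    exact this
  have hsum : Summable w := (summable_mass m).sub (summable_mass m')
  have hmeas : Measurable w :=
    measurable_of_tendsto_metrizable (f := fun n z => ρ (bump n z))
      (fun n => (ρ.continuous.comp (bump n).continuous).measurable) (tendsto_pi_nhds.2 hlim)
  refine ⟨w, hlim, hsum, fun g => ⟨fun j => ∫ z, cut j (w z) * g z ∂m - ∫ z, cut j (w z) * g z ∂m',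
    fun j => ?_, ?_⟩⟩
  · simp only [h (test ρ g j _)]
    exact dom_conv (F := fun n z => test ρ g j n z) (M := ‖g‖)
      (fun n => (test ρ g j n).continuous.measurable)
      (fun n z => ((test ρ g j n).norm_coe_le_norm z).trans (test_le _ _ _ _))
      fun z => (((cut_cont j).tendsto _).comp (hlim z)).mul_const _
  · have h1 := dom_conv (m := m) (m' := m') (F := fun j z => cut j (w z) * g z) (M := ‖g‖)
      (fun j => ((cut_cont j).measurable.comp hmeas).mul g.continuous.measurable)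
      (fun j z => by
        rw [norm_mul]
        exact (mul_le_of_le_one_left (norm_nonneg _) (cut_le _ _)).trans (g.norm_coe_le_norm z))
      fun z => cut_lim (w z) (g z)
    have hc : (support w).Countable := hsum.countable_support
    have h2 : (fun z => if w z = 0 then 0 else g z) = indicator (support w) g := by
      ext z
      by_cases hz : w z = 0
      · simp [hz]
      · simp [hz]
    have hi : ∀ (μ : Measure L) [IsFiniteMeasure μ], ∫ z, (if w z = 0 then 0 else g z) ∂μ =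
        ∑' z : support w, μ.real {(z : L)} * g z := by
      intro μ _
      rw [h2, integral_indicator hc.measurableSet, setIntegral_countable _ hc
        (g.continuous.integrable_of_hasCompactSupport
          (HasCompactSupport.of_compactSpace _)).integrableOn]
      rfl
    have hs : ∀ (μ : Measure L) [IsFiniteMeasure μ],
        Summable fun z : support w => μ.real {(z : L)} * g z := fun μ _ =>
      (summable_mul (summable_mass μ) g g.norm_coe_le_norm).subtype _
    rw [hi m, hi m', ← Summable.tsum_sub (hs m) (hs m')] at h1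
    rw [← tsum_subtype_eq_of_support_subset (f := fun z => w z * g z) (s := support w)
      (support_mul_subset_left _ _)]
    simpa only [hw, sub_mul, Function.comp] using h1

/-- Iterated bounded pointwise limits pass through a bounded functional. -/
theorem iter_lim [MetricSpace L] [CompactSpace L] (ρ : C(L, ℝ) →L[ℝ] ℝ) (F : ℕ → ℕ → C(L, ℝ))
    (u : ℕ → L → ℝ) (g : C(L, ℝ)) {M : ℝ} (hM : ∀ j n, ‖F j n‖ ≤ M)
    (hu : ∀ j y, Tendsto (fun n => F j n y) atTop (𝓝 (u j y)))
    (hg : ∀ y, Tendsto (fun j => u j y) atTop (𝓝 (g y))) {H : ℕ → ℝ} {a : ℝ}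
    (hH : ∀ j, Tendsto (fun n => ρ (F j n)) atTop (𝓝 (H j))) (ha : Tendsto H atTop (𝓝 a)) :
    ρ g = a := by
  borelize L
  obtain ⟨m, m', hm, hm', h⟩ := riesz_sub ρ
  have hb : ∀ j n y, ‖F j n y‖ ≤ M := fun j n y => ((F j n).norm_coe_le_norm y).trans (hM j n)
  have h1 : H = fun j => ∫ z, u j z ∂m - ∫ z, u j z ∂m' := by
    ext j
    refine tendsto_nhds_unique (hH j) ?_
    simp only [h]
    exact dom_conv (F := fun n z => F j n z) (fun n => (F j n).continuous.measurable) (hb j) (hu j)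
  rw [h1] at ha
  rw [h]
  exact tendsto_nhds_unique (dom_conv (M := M)
    (fun j => measurable_of_tendsto_metrizable (f := fun n z => F j n z)
      (fun n => (F j n).continuous.measurable) (tendsto_pi_nhds.2 (hu j)))
    (fun j y => le_of_tendsto' (hu j y).norm fun n => hb j n y) hg) ha

theorem lin_tsum {E ι : Type*} [NormedAddCommGroup E] [NormedSpace ℝ E]
    (A : (E →L[ℝ] ℝ) →ₗ[ℝ] ℝ) {c D : ℝ} (hA : ∀ σ, ‖A σ‖ ≤ c * ‖σ‖) (ρ : ι → E →L[ℝ] ℝ)
    (hρ : ∀ s, ‖ρ s‖ ≤ D) {a : ι → ℝ} (ha : Summable a) (τ : E →L[ℝ] ℝ)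
    (hτ : ∀ f, τ f = ∑' s, a s * ρ s f) : A τ = ∑' s, a s * A (ρ s) := by
  have h1 : Summable fun s => a s • ρ s :=
    Summable.of_norm_bounded (ha.norm.mul_right D) fun s => by
      rw [norm_smul]
      exact mul_le_mul_of_nonneg_left (hρ s) (norm_nonneg _)
  have h2 : τ = ∑' s, a s • ρ s := by
    ext f
    exact (hτ f).trans ((ContinuousLinearMap.apply ℝ ℝ f).map_tsum h1).symm
  have h3 := (A.mkContinuous c hA).map_tsum h1
  simpa only [← h2, map_smul, smul_eq_mul, LinearMap.mkContinuous_apply] using h3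

/-- The inverse of an isomorphism with atomic kernels has atomic kernels. -/
theorem inv_atomic [TopologicalSpace K] [CompactSpace K] [T2Space K] [MetricSpace L]
    [CompactSpace L]
    (T : C(K, ℝ) ≃L[ℝ] C(L, ℝ))
    (hT : ∀ y, ∃ a : K → ℝ, Summable a ∧ ∀ f, T f y = ∑' s, a s * f s) (x : K) :
    ∃ w : L → ℝ, Summable w ∧ ∀ g, T.symm g x = ∑' z, w z * g z := by
  classical
  choose w hw hs hH using fun ρ : C(L, ℝ) →L[ℝ] ℝ => ex_mass ρ
  choose a ha hT using hT
  let S : C(L, ℝ) →L[ℝ] C(K, ℝ) := T.symm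
  let ρ : K → C(L, ℝ) →L[ℝ] ℝ := fun s => (ContinuousMap.evalCLM ℝ s).comp S
  have hρ : ∀ s, ‖ρ s‖ ≤ ‖S‖ := fun s =>
    ContinuousLinearMap.opNorm_le_bound _ S.opNorm_nonneg fun g =>
      ((S g).norm_coe_le_norm s).trans (S.le_opNorm g)
  refine ⟨w (ρ x), hs _, fun g => ?_⟩
  choose H hH hH' using fun σ => hH σ g
  have hb : ∀ (σ : C(L, ℝ) →L[ℝ] ℝ) j n, ‖σ (test σ g j n)‖ ≤ ‖σ‖ * ‖g‖ := fun σ j n =>
    (σ.le_opNorm _).trans (mul_le_mul_of_nonneg_left (test_le _ _ _ _) (norm_nonneg _))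
  have hb1 : ∀ σ j, ‖H σ j‖ ≤ ‖σ‖ * ‖g‖ := fun σ j =>
    le_of_tendsto' (hH σ j).norm (hb σ j)
  have hsm : ∀ σ, Summable fun z => w σ z * g z := fun σ =>
    summable_mul (hs σ) g g.norm_coe_le_norm
  let A₀ : (C(L, ℝ) →L[ℝ] ℝ) →ₗ[ℝ] ℝ :=
    { toFun σ := ∑' z, w σ z * g z
      map_add' σ τ := by
        rw [← (hsm σ).tsum_add (hsm τ)]
        refine tsum_congr fun z => ?_
        rw [tendsto_nhds_unique (hw (σ + τ) z) ((hw σ z).add (hw τ z)), add_mul]
      map_smul' c σ := by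
        rw [RingHom.id_apply, smul_eq_mul, ← tsum_mul_left]
        refine tsum_congr fun z => ?_
        rw [tendsto_nhds_unique (hw (c • σ) z) ((hw σ z).const_mul c), mul_assoc] }
  have hA₀ : ∀ σ, ‖A₀ σ‖ ≤ ‖g‖ * ‖σ‖ := fun σ => by
    rw [mul_comm]
    exact le_of_tendsto' (hH' σ).norm (hb1 σ)
  have hAg : ∀ y, ∑' s, a y s * ∑' z, w (ρ s) z * g z = g y := by
    intro y
    have h3 : ∑' z, w (ContinuousMap.evalCLM ℝ y) z * g z =
        ∑' s, a y s * ∑' z, w (ρ s) z * g z :=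
      lin_tsum A₀ hA₀ ρ hρ (ha y) (ContinuousMap.evalCLM ℝ y) fun f => by
        have h4 := hT y (T.symm f)
        rw [ContinuousLinearEquiv.apply_symm_apply] at h4
        exact h4
    rw [← h3]
    have h4 : ∀ z, w (ContinuousMap.evalCLM ℝ y) z = indicator {z} (fun _ => (1 : ℝ)) y :=
      fun z => tendsto_nhds_unique (hw _ z) (bump_lim z y)
    rw [tsum_eq_single y fun z hz => by
      rw [h4, indicator_of_notMem (by simpa using Ne.symm hz), zero_mul]]
    rw [h4]
    simp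
  let G : ℕ → ℕ → C(K, C(L, ℝ)) := fun j n => ContinuousMap.curry
    ⟨fun p : K × L => cut j (S (bump n p.2) p.1) * g p.2,
      ((cut_cont j).comp (by fun_prop)).mul (by fun_prop)⟩
  let h : ℕ → ℕ → C(K, ℝ) := fun j n => ⟨fun s => S (G j n s) s, by fun_prop⟩
  have hh : ∀ j n s, h j n s = ρ s (test (ρ s) g j n) := fun j n s => rfl
  have hb2 : ∀ j n s, ‖h j n s‖ ≤ ‖S‖ * ‖g‖ := fun j n s =>
    (hb _ j n).trans (mul_le_mul_of_nonneg_right (hρ s) (norm_nonneg _))
  have hdom : ∀ y s (r : ℝ), ‖r‖ ≤ ‖S‖ * ‖g‖ → ‖a y s * r‖ ≤ ‖a y s‖ * (‖S‖ * ‖g‖) :=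
    fun y s r hr => by
      rw [norm_mul]
      exact mul_le_mul_of_nonneg_left hr (norm_nonneg _)
  refine iter_lim (ρ x) (fun j n => T (h j n)) (fun j y => ∑' s, a y s * H (ρ s) j) g
    (M := ‖(T : C(K, ℝ) →L[ℝ] C(L, ℝ))‖ * (‖S‖ * ‖g‖)) (fun j n => ?_) (fun j y => ?_)
    (fun y => ?_) (H := H (ρ x)) (fun j => ?_) (hH' _)
  · exact ((T : C(K, ℝ) →L[ℝ] C(L, ℝ)).le_opNorm _).trans (mul_le_mul_of_nonneg_left
      ((ContinuousMap.norm_le _ (by positivity)).2 (hb2 j n)) (norm_nonneg _))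
  · simp only [hT]
    exact tendsto_tsum_of_dominated_convergence ((ha y).norm.mul_right (‖S‖ * ‖g‖))
      (fun s => (hH (ρ s) j).const_mul _) (.of_forall fun n s => hdom y s _ (hb2 j n s))
  · rw [← hAg y]
    exact tendsto_tsum_of_dominated_convergence ((ha y).norm.mul_right (‖S‖ * ‖g‖))
      (fun s => (hH' (ρ s)).const_mul _) (.of_forall fun j s => hdom y s _
        ((hb1 _ j).trans (mul_le_mul_of_nonneg_right (hρ s) (norm_nonneg _))))
  · refine (hH (ρ x) j).congr fun n => ?_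
    change _ = T.symm (T (h j n)) x
    rw [ContinuousLinearEquiv.symm_apply_apply, hh]

end Pool.Agent.Lib.PM42.Atom
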