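import Mathlib

namespace Pool.Agent.Lib.PM42.Atom

open Set Function Filter Topology

variable {K L X : Type*}

open Classical in
/-- Indicator function of a clopen set. -/
noncomputable def ind [TopologicalSpace L] (V : Set L) : C(L, ℝ) :=
  if h : IsClopen V then ⟨V.indicator fun _ => 1, h.continuous_indicator continuous_const⟩ else 0

theorem ind_apply [TopologicalSpace L] {V : Set L} (h : IsClopen V) (t : L) :
    ind V t = V.indicator (fun _ => (1 : ℝ)) t := by
  rw [ind, dif_pos h]; rfl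

theorem ind_union [TopologicalSpace L] {V W : Set L} (hV : IsClopen V) (hW : IsClopen W)
    (h : Disjoint V W) : ind (V ∪ W) = ind V + ind W := by
  ext t
  rw [ContinuousMap.add_apply, ind_apply hV, ind_apply hW, ind_apply (hV.union hW),
    indicator_union_of_disjoint h]

theorem comb_apply [TopologicalSpace L] {ι : Type*} (s : Finset ι) (V : ι → Set L)
    (hV : ∀ i, IsClopen (V i)) (hd : (s : Set ι).PairwiseDisjoint V) (t : ι → ℝ) {i : ι}
    (hi : i ∈ s) {z : L} (hz : z ∈ V i) : (∑ j ∈ s, t j • ind (V j)) z = t i := by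
  rw [ContinuousMap.sum_apply, Finset.sum_eq_single_of_mem i hi fun j hj hji => ?_]
  · simp [ind_apply (hV i), hz]
  · have : z ∉ V j := fun h => disjoint_left.1 (hd hj hi hji) h hz
    simp [ind_apply (hV j), this]

theorem comb_le [TopologicalSpace L] [CompactSpace L] {ι : Type*} (s : Finset ι) (V : ι → Set L)
    (hV : ∀ i, IsClopen (V i)) (hd : (s : Set ι).PairwiseDisjoint V) (t : ι → ℝ) {M : ℝ}
    (hM : 0 ≤ M) (ht : ∀ i, ‖t i‖ ≤ M) : ‖∑ j ∈ s, t j • ind (V j)‖ ≤ M := by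
  refine (ContinuousMap.norm_le _ hM).2 fun z => ?_
  by_cases h : ∃ i ∈ s, z ∈ V i
  · obtain ⟨i, hi, hz⟩ := h
    rw [comb_apply s V hV hd t hi hz]
    exact ht i
  · push Not at h
    rw [ContinuousMap.sum_apply, Finset.sum_eq_zero fun j hj => by
      simp [ind_apply (hV j), h j hj], norm_zero]
    exact hM

theorem ex_nbhd [TopologicalSpace L] [CompactSpace L] [T2Space L] [TotallyDisconnectedSpace L]
    (Z : Finset L) (N : L → Set L) (hN : ∀ z, IsOpen (N z) ∧ z ∈ N z) :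
    ∃ V : L → Set L, (∀ z, IsClopen (V z) ∧ z ∈ V z ∧ V z ⊆ N z) ∧
      (Z : Set L).PairwiseDisjoint V := by
  obtain ⟨U, hU, hd⟩ := Z.finite_toSet.t2_separation
  choose V hV using fun z => compact_exists_isClopen_in_isOpen ((hN z).1.inter (hU z).2)
    ⟨(hN z).2, (hU z).1⟩
  exact ⟨V, fun z => ⟨(hV z).1, (hV z).2.1, (hV z).2.2.trans inter_subset_left⟩,
    hd.mono fun z => (hV z).2.2.trans inter_subset_right⟩

/-- One cell: either it is small, or its mass sits at a point independent of the parameter. -/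
theorem cell [TopologicalSpace X] [TopologicalSpace L] [CompactSpace L] [T2Space L]
    [TotallyDisconnectedSpace L] (μ : X → Set L → ℝ) (hc : ∀ V, Continuous fun x => μ x V)
    (hadd : ∀ x V V', IsClopen V → IsClopen V' → Disjoint V V' → μ x (V ∪ V') = μ x V + μ x V')
    {W : Set L} (hW : IsClopen W) {C : Set X} (hC : IsPreconnected C) {ε c : ℝ} (hε : 0 < ε)
    (two : ∀ x ∈ C, ∀ V V', IsClopen V → IsClopen V' → V ⊆ W → V' ⊆ W → Disjoint V V' →
      |μ x V| ≤ ε ∨ |μ x V'| ≤ ε) (osc : ∀ x ∈ C, |μ x W - c| < ε) :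
    ∃ Y : Finset L, ∀ x ∈ C, ∀ V, IsClopen V → V ⊆ W \ Y → |μ x V| ≤ 6 * ε := by
  have hdiff : ∀ x V V', IsClopen V → IsClopen V' → V ⊆ V' → μ x V' = μ x V + μ x (V' \ V) := by
    intro x V V' hV hV' h
    rw [← hadd x V _ hV (hV'.diff hV) disjoint_sdiff_right, union_sdiff_cancel h]
  by_cases hcε : |c| ≤ 4 * ε
  · refine ⟨∅, fun x hx V hV hVW => ?_⟩
    replace hVW : V ⊆ W := hVW.trans sdiff_subset
    have h1 := hdiff x V W hV hW hVW
    have h2 := abs_lt.1 (osc x hx)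
    have h3 := abs_le.1 hcε
    rcases two x hx V (W \ V) hV (hW.diff hV) hVW sdiff_subset disjoint_sdiff_right with h | h
    · linarith
    · have := abs_le.1 h
      exact abs_le.2 ⟨by linarith, by linarith⟩
  rcases C.eq_empty_or_nonempty with rfl | ⟨x₀, hx₀⟩
  · exact ⟨∅, fun x hx => hx.elim⟩
  have big : ∀ x ∈ C, 3 * ε < |μ x W| := by
    intro x hx
    have h1 := abs_sub_abs_le_abs_sub c (μ x W)
    rw [abs_sub_comm] at h1
    have := osc x hx
    linarith [not_le.1 hcε]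
  have both : ∀ x ∈ C, ∀ V, IsClopen V → V ⊆ W → |μ x V| ≤ ε → ¬ |μ x (W \ V)| ≤ ε := by
    intro x hx V hV hVW h1 h2
    have h3 := big x hx
    rw [hdiff x V W hV hW hVW] at h3
    linarith [abs_add_le (μ x V) (μ x (W \ V))]
  have dich : ∀ V, IsClopen V → V ⊆ W →
      (∀ x ∈ C, |μ x V| ≤ ε) ∨ ∀ x ∈ C, |μ x (W \ V)| ≤ ε := fun V hV hVW =>
    isPreconnected_iff_subset_of_disjoint_closed.1 hC {x | |μ x V| ≤ ε} {x | |μ x (W \ V)| ≤ ε}
      (isClosed_le (hc _).abs continuous_const) (isClosed_le (hc _).abs continuous_const)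
      (fun x hx => two x hx V _ hV (hW.diff hV) hVW sdiff_subset disjoint_sdiff_right)
      (eq_empty_of_forall_notMem fun x hx => both x hx.1 V hV hVW hx.2.1 hx.2.2)
  have uni : ∀ x ∈ C, ∀ V V', IsClopen V → IsClopen V' → V ⊆ W → V' ⊆ W → |μ x V| ≤ ε →
      |μ x V'| ≤ ε → |μ x (V ∪ V')| ≤ ε := by
    intro x hx V V' hV hV' hVW hVW' h1 h2
    refine (two x hx _ _ (hV.union hV') (hW.diff (hV.union hV')) (union_subset hVW hVW')
      sdiff_subset disjoint_sdiff_right).resolve_right fun h3 => ?_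
    have h4 : |μ x (V' \ V)| ≤ ε :=
      (two x hx _ _ (hV'.diff hV) (hW.diff hV') (sdiff_subset.trans hVW') sdiff_subset
        (disjoint_sdiff_right.mono_left sdiff_subset)).resolve_right (both x hx V' hV' hVW' h2)
    have h5 := big x hx
    rw [hdiff x _ W (hV.union hV') hW (union_subset hVW hVW'),
      hdiff x V _ hV (hV.union hV') subset_union_left, union_sdiff_left] at h5
    linarith [abs_add_le (μ x V + μ x (V' \ V)) (μ x (W \ (V ∪ V'))),
      abs_add_le (μ x V) (μ x (V' \ V))]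
  obtain ⟨y, hy, hy'⟩ : ∃ y ∈ W, ∀ V, IsClopen V → V ⊆ W → y ∈ V → ¬ |μ x₀ V| ≤ ε := by
    by_contra hcon
    push Not at hcon
    obtain ⟨V, hV, h1, h2, h3⟩ := hW.isClosed.isCompact.induction_on
      (p := fun s => ∃ V, IsClopen V ∧ s ⊆ V ∧ V ⊆ W ∧ |μ x₀ V| ≤ ε)
      ⟨∅, isClopen_empty, le_rfl, empty_subset _, by
        have := hadd x₀ ∅ ∅ isClopen_empty isClopen_empty (empty_disjoint _)
        rw [union_self] at this
        have h0 : μ x₀ ∅ = 0 := by linarith
        rw [h0, abs_zero]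
        exact hε.le⟩
      (fun s t hst ⟨V, hV, h1, h2⟩ => ⟨V, hV, hst.trans h1, h2⟩)
      (fun s t ⟨V, hV, h1, h2, h3⟩ ⟨V', hV', h1', h2', h3'⟩ => ⟨V ∪ V', hV.union hV',
        union_subset_union h1 h1', union_subset h2 h2', uni x₀ hx₀ V V' hV hV' h2 h2' h3 h3'⟩)
      fun y hy => by
        obtain ⟨V, hV, h1, h2, h3⟩ := hcon y hy
        exact ⟨V, mem_nhdsWithin_of_mem_nhds (hV.isOpen.mem_nhds h2), V, hV, le_rfl, h1, h3⟩
    rw [Subset.antisymm h2 h1] at h3
    linarith [big x₀ hx₀]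
  refine ⟨{y}, fun x hx V hV hVW => ?_⟩
  have h1 := (dich V hV (hVW.trans sdiff_subset)).resolve_right fun h =>
    hy' _ (hW.diff hV) sdiff_subset ⟨hy, fun hyV => (hVW hyV).2 (by simp)⟩ (h x₀ hx₀)
  linarith [h1 x hx]

/-- Locally the heavy atoms do not move along connected sets. -/
theorem local_atoms [TopologicalSpace X] [TopologicalSpace L] [CompactSpace L] [T2Space L]
    [TotallyDisconnectedSpace L] (ν : X → C(L, ℝ) →L[ℝ] ℝ) (hc : ∀ g, Continuous fun x => ν x g)
    {D : ℝ} (hD : ∀ x g, ‖g‖ ≤ 1 → ν x g ≤ D) {U : Set X} (hU : IsOpen U) (hne : U.Nonempty)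
    {ε : ℝ} (hε : 0 < ε) :
    ∃ U' ⊆ U, IsOpen U' ∧ U'.Nonempty ∧ ∀ C ⊆ U', IsPreconnected C → ∃ Y : Finset L, ∀ x ∈ C,
      ∀ z ∉ Y, ∃ N, IsOpen N ∧ z ∈ N ∧ ∀ V, IsClopen V → V ⊆ N → |ν x (ind V)| ≤ 6 * ε := by
  classical
  let P : ℕ → Prop := fun m => ∃ x ∈ U, ∃ W : Fin m → Set L, (∀ i, IsClopen (W i)) ∧
    Pairwise (Disjoint on W) ∧ ∀ i, ε < |ν x (ind (W i))|
  have hb : ∀ m, P m → m * ε ≤ D := by
    rintro m ⟨x, -, W, h1, h2, h3⟩
    refine le_trans ?_ (hD x (∑ i, (SignType.sign (ν x (ind (W i))) : ℝ) • ind (W i))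
      (comb_le _ W h1 (fun i _ j _ hij => h2 hij) _ zero_le_one fun i => by
        rcases SignType.trichotomy (SignType.sign (ν x (ind (W i)))) with h | h | h <;>
          simp [h]))
    simp only [map_sum, map_smul, smul_eq_mul, sign_mul_self]
    calc (m : ℝ) * ε = ∑ _i : Fin m, ε := by simp
      _ ≤ _ := Finset.sum_le_sum fun i _ => (h3 i).le
  obtain ⟨m, hm, hm'⟩ : ∃ m, P m ∧ ¬ P (m + 1) := by
    by_contra hcon
    push Not at hcon
    have hall : ∀ m, P m := fun m => by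
      induction m with
      | zero =>
        obtain ⟨x, hx⟩ := hne
        exact ⟨x, hx, Fin.elim0, fun i => i.elim0, fun i => i.elim0, fun i => i.elim0⟩
      | succ m ih => exact hcon m ih
    obtain ⟨n, hn⟩ := exists_nat_gt (D / ε)
    rw [div_lt_iff₀ hε] at hn
    linarith [hb n (hall n)]
  have ext : ∀ x ∈ U, ∀ W : Fin m → Set L, (∀ i, IsClopen (W i)) → Pairwise (Disjoint on W) →
      (∀ i, ε < |ν x (ind (W i))|) → ∀ V, IsClopen V → (∀ i, Disjoint V (W i)) →
      |ν x (ind V)| ≤ ε := by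
    intro x hx W h1 h2 h3 V hV hVW
    by_contra h
    exact hm' ⟨x, hx, Fin.cons V W, Fin.cases hV h1,
      pairwise_fin_succ_iff.2 ⟨fun i => (hVW i).symm, hVW, h2⟩, Fin.cases (not_le.1 h) h3⟩
  obtain ⟨x₀, hx₀, W, h1, h2, h3⟩ := hm
  refine ⟨U ∩ ⋂ i, {x | ε < |ν x (ind (W i))|} ∩ {x | |ν x (ind (W i)) - ν x₀ (ind (W i))| < ε},
    inter_subset_left, hU.inter (isOpen_iInter_of_finite fun i =>
      (isOpen_lt continuous_const (hc _).abs).inter
        (isOpen_lt ((hc _).sub continuous_const).abs continuous_const)),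
    ⟨x₀, hx₀, mem_iInter.2 fun i => ⟨h3 i, by simpa using hε⟩⟩, fun C hCU hC => ?_⟩
  have hg : ∀ x ∈ C, ∀ i, ε < |ν x (ind (W i))| := fun x hx i => (mem_iInter.1 (hCU hx).2 i).1
  choose Y hY using fun i => cell (fun x V => ν x (ind V)) (fun V => hc _)
    (fun x V V' hV hV' h => by rw [ind_union hV hV' h, map_add]) (h1 i) hC hε
    (fun x hx V V' hV hV' hVW hVW' hd => by
      refine or_iff_not_imp_left.2 fun h => ext x (hCU hx).1 (update W i V) (fun j => ?_)
        (h2.mono fun j k hjk => hjk.mono ?_ ?_) (fun j => ?_) V' hV' fun j => ?_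
      · rcases eq_or_ne j i with rfl | hj
        · rwa [update_self]
        · rw [update_of_ne hj]; exact h1 j
      · rcases eq_or_ne j i with rfl | hj
        · rwa [update_self]
        · rw [update_of_ne hj]
      · rcases eq_or_ne k i with rfl | hj
        · rwa [update_self]
        · rw [update_of_ne hj]
      · rcases eq_or_ne j i with rfl | hj
        · rw [update_self]; exact not_le.1 h
        · rw [update_of_ne hj]; exact hg x hx j
      · rcases eq_or_ne j i with rfl | hj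
        · rw [update_self]; exact hd.symm
        · rw [update_of_ne hj]; exact (h2 hj.symm).mono_left hVW')
    fun x hx => (mem_iInter.1 (hCU hx).2 i).2
  refine ⟨Finset.univ.biUnion Y, fun x hx z hz => ?_⟩
  by_cases h : ∃ i, z ∈ W i
  · obtain ⟨i, hi⟩ := h
    exact ⟨W i \ Y i, (h1 i).isOpen.sdiff (Y i).finite_toSet.isClosed,
      ⟨hi, fun hzY => hz (Finset.mem_biUnion.2 ⟨i, Finset.mem_univ _, hzY⟩)⟩, hY i x hx⟩
  · refine ⟨(⋃ i, W i)ᶜ, (isClosed_iUnion_of_finite fun i => (h1 i).isClosed).isOpen_compl,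
      by simpa using h, fun V hV hVW => ?_⟩
    have := ext x (hCU hx).1 W h1 h2 (hg x hx) V hV fun i =>
      disjoint_left.2 fun t ht hti => hVW ht (mem_iUnion.2 ⟨i, hti⟩)
    linarith

/-- Baire category: uniformly many atoms suffice on an open set. -/
theorem baire [TopologicalSpace X] [CompactSpace X] [T2Space X] [Nonempty X] [TopologicalSpace L]
    [CompactSpace L] (ν : X → C(L, ℝ) →L[ℝ] ℝ) (hc : ∀ g, Continuous fun x => ν x g)
    (hA : ∀ x, ∃ w : L → ℝ, Summable w ∧ ∀ g, ν x g = ∑' z, w z * g z) {δ : ℝ} (hδ : 0 < δ) :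
    ∃ U : Set X, IsOpen U ∧ U.Nonempty ∧ ∃ k : ℕ, ∀ x ∈ U, ∃ (z : Fin k → L) (c : Fin k → ℝ),
      ∀ g, |ν x g - ∑ i, c i * g (z i)| ≤ δ * ‖g‖ := by
  let F : ℕ × ℕ → Set X := fun p => Prod.fst ''
    ⋂ g, {q : X × (Fin p.1 → L × Icc (-p.2 : ℝ) p.2) |
      |ν q.1 g - ∑ i, (q.2 i).2 * g (q.2 i).1| ≤ δ * ‖g‖}
  obtain ⟨p, hp⟩ := nonempty_interior_of_iUnion_of_closed (f := F)
    (fun p => isClosedMap_fst_of_compactSpace _ (isClosed_iInter fun g =>
      isClosed_le (((hc g).comp continuous_fst).sub (by fun_prop)).abs continuous_const))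
    (eq_univ_of_forall fun x => by
      obtain ⟨w, hw, h⟩ := hA x
      obtain ⟨Z, hZ⟩ := ((tendsto_tsum_compl_atTop_zero fun z => ‖w z‖).eventually
        (gt_mem_nhds hδ)).exists
      obtain ⟨M, hM⟩ := exists_nat_ge (∑' z, ‖w z‖)
      have hwM : ∀ z, w z ∈ Icc (-M : ℝ) M := fun z =>
        abs_le.1 ((hw.norm.le_tsum z fun _ _ => norm_nonneg _).trans hM)
      refine mem_iUnion.2 ⟨(Z.card, M),
        (x, fun i => (Z.equivFin.symm i, ⟨_, hwM (Z.equivFin.symm i)⟩)),
        mem_iInter.2 fun g => ?_, rfl⟩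
      have hb : ∀ z, ‖w z * g z‖ ≤ ‖w z‖ * ‖g‖ := fun z => by
        rw [norm_mul]
        exact mul_le_mul_of_nonneg_left (g.norm_coe_le_norm z) (norm_nonneg _)
      have hs : Summable fun z => w z * g z := .of_norm_bounded (hw.norm.mul_right _) hb
      change |ν x g - ∑ i, w (Z.equivFin.symm i) * g (Z.equivFin.symm i)| ≤ _
      rw [Z.equivFin.symm.sum_comp fun z : Z => w z * g z, Finset.sum_coe_sort Z fun z => w z * g z,
        h, ← hs.sum_add_tsum_subtype_compl Z, add_sub_cancel_left]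
      refine (tsum_of_norm_bounded (f := fun z : {z // z ∉ Z} => w z * g z)
        ((hw.norm.subtype (· ∉ Z)).hasSum.mul_right ‖g‖) fun z => hb z).trans ?_
      exact mul_le_mul_of_nonneg_right hZ.le (norm_nonneg _))
  refine ⟨_, isOpen_interior, hp, p.1, fun x hx => ?_⟩
  obtain ⟨q, hq, rfl⟩ := interior_subset hx
  exact ⟨fun i => (q.2 i).1, fun i => (q.2 i).2, fun g => mem_iInter.1 hq g⟩

theorem small_on [TopologicalSpace L] [CompactSpace L] [T2Space L] [TotallyDisconnectedSpace L]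
    (ρ : C(L, ℝ) →L[ℝ] ℝ) {k : ℕ} (z : Fin k → L) (c : Fin k → ℝ) {δ η : ℝ} (hδ : 0 ≤ δ)
    (hη : 0 ≤ η) (h : ∀ g, |ρ g - ∑ i, c i * g (z i)| ≤ δ * ‖g‖) (Y : Finset L)
    (hY : ∀ t ∉ Y, ∃ N, IsOpen N ∧ t ∈ N ∧ ∀ V, IsClopen V → V ⊆ N → |ρ (ind V)| ≤ η)
    (g : C(L, ℝ)) (hg : ∀ y ∈ Y, g y = 0) : |ρ g| ≤ (2 * δ + k * η) * ‖g‖ := by
  classical
  have : ∀ t, ∃ N, IsOpen N ∧ t ∈ N ∧ ∀ V, IsClopen V → V ⊆ N → |g t * ρ (ind V)| ≤ η * ‖g‖ := by
    intro t
    by_cases ht : t ∈ Y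
    · exact ⟨univ, isOpen_univ, mem_univ _, fun V _ _ => by
        rw [hg t ht, zero_mul, abs_zero]; positivity⟩
    · obtain ⟨N, h1, h2, h3⟩ := hY t ht
      refine ⟨N, h1, h2, fun V hV hVN => ?_⟩
      rw [abs_mul, mul_comm]
      exact mul_le_mul (h3 V hV hVN) (g.norm_coe_le_norm t) (abs_nonneg _) hη
  choose N h1 h2 h3 using this
  obtain ⟨V, hV, hd⟩ := ex_nbhd (Finset.univ.image z) N fun t => ⟨h1 t, h2 t⟩
  set g' := ∑ t ∈ Finset.univ.image z, g t • ind (V t) with hg'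
  have h4 : ∀ i, g' (z i) = g (z i) := fun i => comb_apply _ V (fun t => (hV t).1) hd g
    (Finset.mem_image_of_mem _ (Finset.mem_univ i)) (hV _).2.1
  have h5 : ‖g'‖ ≤ ‖g‖ :=
    comb_le _ V (fun t => (hV t).1) hd g (norm_nonneg _) g.norm_coe_le_norm
  have h6 : |ρ g'| ≤ k * (η * ‖g‖) := by
    rw [hg', map_sum]
    refine (Finset.abs_sum_le_sum_abs _ _).trans ((Finset.sum_le_card_nsmul _ _ (η * ‖g‖)
      fun t _ => ?_).trans ?_)
    · rw [map_smul]
      exact h3 t _ (hV t).1 (hV t).2.2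
    · rw [nsmul_eq_mul]
      refine mul_le_mul_of_nonneg_right ?_ (by positivity)
      exact_mod_cast Finset.card_image_le.trans (by simp)
  have h7 := abs_le.1 (h g)
  have h8 := abs_le.1 ((h g').trans (mul_le_mul_of_nonneg_left h5 hδ))
  simp only [h4] at h8
  have h9 := abs_le.1 h6
  exact abs_le.2 ⟨by linarith, by linarith⟩

/-- Boundary bumping. -/
theorem bumping [TopologicalSpace X] [CompactSpace X] [T2Space X] [PreconnectedSpace X]
    [Nontrivial X] {U : Set X} (hU : IsOpen U) (hne : U.Nonempty) :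
    ∃ C ⊆ U, IsPreconnected C ∧ C.Infinite := by
  obtain ⟨x, hx⟩ := hne
  obtain ⟨x', hx'⟩ := exists_ne x
  obtain ⟨B, hB, hBc, hBU⟩ := exists_mem_nhds_isClosed_subset
    ((hU.sdiff isClosed_singleton).mem_nhds (show x ∈ U \ {x'} from ⟨hx, hx'.symm⟩))
  by_contra hcon
  push Not at hcon
  have : TotallyDisconnectedSpace B := totallyDisconnectedSpace_subtype_iff.2 fun t ht h => by
    by_contra hs
    exact (h.infinite_of_nontrivial (not_subsingleton_iff.1 hs))
      (hcon t (ht.trans (hBU.trans sdiff_subset)) h)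
  have : CompactSpace B := isCompact_iff_compactSpace.1 hBc.isCompact
  obtain ⟨V, hV, h1, h2⟩ := compact_exists_isClopen_in_isOpen
    (isOpen_interior.preimage continuous_subtype_val : IsOpen ((↑) ⁻¹' interior B : Set B))
    (show (⟨x, mem_of_mem_nhds hB⟩ : B) ∈ _ from mem_interior_iff_mem_nhds.2 hB)
  obtain ⟨O, hO, hOV⟩ := isOpen_induced_iff.1 hV.isOpen
  have h3 : ((↑) '' V : Set X) = O ∩ interior B := by
    ext t
    constructor
    · rintro ⟨t, ht, rfl⟩
      exact ⟨by rwa [← hOV] at ht, h2 ht⟩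
    · exact fun ht => ⟨⟨t, interior_subset ht.2⟩, by rw [← hOV]; exact ht.1, rfl⟩
  have h4 : IsClopen ((↑) '' V : Set X) :=
    ⟨hBc.isClosedMap_subtype_val _ hV.isClosed, h3 ▸ hO.inter isOpen_interior⟩
  obtain ⟨t, -, ht⟩ : x' ∈ ((↑) '' V : Set X) := by
    rw [h4.eq_univ ⟨_, _, h1, rfl⟩]
    exact mem_univ _
  exact (hBU t.2).2 ht

/-- A surjection with atomic kernels does not raise dimension zero. -/
theorem surj_atomic [TopologicalSpace K] [CompactSpace K] [T2Space K] [TopologicalSpace L]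
    [CompactSpace L] [T2Space L] [TotallyDisconnectedSpace L] (R : C(L, ℝ) →L[ℝ] C(K, ℝ))
    (hR : Surjective R) (hA : ∀ x, ∃ w : L → ℝ, Summable w ∧ ∀ g, R g x = ∑' z, w z * g z) :
    TotallyDisconnectedSpace K := by
  classical
  rw [totallyDisconnectedSpace_iff_connectedComponent_subsingleton]
  intro x₀
  by_contra hx₀
  let X : Set K := connectedComponent x₀
  have : Nontrivial X := nontrivial_coe_sort.2 (not_subsingleton_iff.1 hx₀)
  have : PreconnectedSpace X := Subtype.preconnectedSpace isPreconnected_connectedComponent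
  have : CompactSpace X := isCompact_iff_compactSpace.1 isClosed_connectedComponent.isCompact
  obtain ⟨c, hc, hlift⟩ := R.exists_preimage_norm_le hR
  let ν : X → C(L, ℝ) →L[ℝ] ℝ := fun x => (ContinuousMap.evalCLM ℝ (x : K)).comp R
  have hν : ∀ g, Continuous fun x => ν x g := fun g =>
    (R g).continuous.comp continuous_subtype_val
  have hδ : 0 < 1 / (7 * c) := by positivity
  obtain ⟨U, hU, hne, k, hk⟩ := baire ν hν (fun x => hA x) hδ
  set δ := 1 / (7 * c) with hδc
  have hε : 0 < δ / (6 * (k + 1)) := by positivity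
  obtain ⟨U', h1, h2, h3, h4⟩ := local_atoms ν hν (D := ‖R‖) (fun x g hg =>
    (le_abs_self _).trans (((R g).norm_coe_le_norm x).trans ((R.le_opNorm g).trans
      (mul_le_of_le_one_right R.opNorm_nonneg hg)))) hU hne hε
  obtain ⟨C, hCU, hC, hinf⟩ := bumping h2 h3
  obtain ⟨Y, hY⟩ := h4 C hCU hC
  have small : ∀ x ∈ C, ∀ g : C(L, ℝ), (∀ y ∈ Y, g y = 0) → |ν x g| ≤ 3 * δ * ‖g‖ := by
    intro x hx g hg
    obtain ⟨z, a, ha⟩ := hk x (h1 (hCU hx))
    refine (small_on (ν x) z a hδ.le (by positivity) ha Y (hY x hx) g hg).trans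
      (mul_le_mul_of_nonneg_right ?_ (norm_nonneg _))
    have : (k : ℝ) * (6 * (δ / (6 * (k + 1)))) = δ - δ / (k + 1) := by field_simp; ring
    have h5 : 0 < δ / (k + 1) := by positivity
    linarith
  obtain ⟨V, hV, hd⟩ := ex_nbhd Y (fun _ => univ) fun _ => ⟨isOpen_univ, mem_univ _⟩
  let e : Fin (Y.card + 1) → X := fun i => hinf.natEmbedding C i
  have he : Injective e := fun i j hij =>
    Fin.ext ((hinf.natEmbedding C).injective (Subtype.ext hij))
  obtain ⟨l, hl, i₀, hi₀⟩ := Fintype.not_linearIndependent_iff.1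
    (fun h : LinearIndependent ℝ fun (i : Fin (Y.card + 1)) (y : Y) => ν (e i) (ind (V y)) => by
      simpa using h.fintype_card_le_finrank)
  obtain ⟨f, hf, hfe⟩ := ContinuousMap.exists_extension_forall_mem_of_isClosedEmbedding
    (⟨fun i => (SignType.sign (l i) : ℝ), continuous_of_discreteTopology⟩ :
      C(Fin (Y.card + 1), ℝ)) (t := Icc (-1) 1) (e := fun i => (e i : K))
    (fun i => by
      change (SignType.sign (l i) : ℝ) ∈ _
      rcases SignType.trichotomy (SignType.sign (l i)) with h | h | h <;> simp [h])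
    ⟨0, by simp⟩
    (continuous_of_discreteTopology.isClosedEmbedding (Subtype.val_injective.comp he))
  obtain ⟨g, hg, hgc⟩ := hlift f
  have hf1 : ‖f‖ ≤ 1 := (ContinuousMap.norm_le _ zero_le_one).2 fun t => abs_le.2 (hf t)
  replace hgc : ‖g‖ ≤ c := hgc.trans (mul_le_of_le_one_right hc.le hf1)
  set p := ∑ y ∈ Y, g y • ind (V y) with hp
  have hp1 : ‖p‖ ≤ ‖g‖ := comb_le _ V (fun t => (hV t).1) hd g (norm_nonneg _) g.norm_coe_le_norm
  have h5 : ∀ i, |ν (e i) (g - p)| ≤ 6 / 7 := fun i => by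
    refine (small _ (hinf.natEmbedding C i).2 (g - p) fun y hy => ?_).trans ?_
    · rw [ContinuousMap.sub_apply, comb_apply Y V (fun t => (hV t).1) hd g hy (hV y).2.1, sub_self]
    · have : ‖g - p‖ ≤ 2 * c := by linarith [norm_sub_le g p]
      calc 3 * δ * ‖g - p‖ ≤ 3 * δ * (2 * c) := by gcongr
        _ = 6 / 7 := by rw [hδc]; field_simp; norm_num
  have h6 : ∑ i, l i * ν (e i) p = 0 := by
    simp only [hp, map_sum, map_smul, smul_eq_mul, Finset.mul_sum]
    rw [Finset.sum_comm]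
    refine Finset.sum_eq_zero fun y hy => ?_
    have := congrFun hl ⟨y, hy⟩
    simp only [Finset.sum_apply, Pi.smul_apply, smul_eq_mul, Pi.zero_apply] at this
    simp only [mul_left_comm _ (g y), ← Finset.mul_sum, this, mul_zero]
  have h7 : ∑ i, l i * ν (e i) (g - p) = ∑ i, |l i| := by
    simp only [map_sub, mul_sub, Finset.sum_sub_distrib, h6, sub_zero]
    refine Finset.sum_congr rfl fun i _ => ?_
    have : ν (e i) g = SignType.sign (l i) := by
      change R g (e i) = _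
      rw [hg]
      exact congrFun hfe i
    rw [this, self_mul_sign]
  have h8 : ∑ i, l i * ν (e i) (g - p) ≤ ∑ i, |l i| * (6 / 7) :=
    Finset.sum_le_sum fun i _ => (le_abs_self _).trans (by
      rw [abs_mul]
      exact mul_le_mul_of_nonneg_left (h5 i) (abs_nonneg _))
  rw [h7, ← Finset.sum_mul] at h8
  have h9 : 0 < ∑ i, |l i| :=
    Finset.sum_pos' (fun i _ => abs_nonneg _) ⟨i₀, Finset.mem_univ _, abs_pos.2 hi₀⟩
  linarith

end Pool.Agent.Lib.PM42.Atom
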