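import Mathlib

namespace Pool.Agent.Lib.PM42

open Cardinal Set Function

universe u

theorem two_fun_aux {τ : Type u} (κ : Cardinal.{u}) :
    ∀ (I : Type u) (f g : I → τ), ℵ₀ ≤ κ → #I = κ → (∀ i, f i ≠ g i) →
      ∃ A : Set I, #A = κ ∧ ∀ i ∈ A, ∀ j ∈ A, f i ≠ g j := by
  induction κ using Cardinal.lt_wf.induction with
  | _ κ ih =>
  intro I f g hκ hI hfg
  by_contra hcon
  have hsmall : ∀ A : Set I, (∀ i ∈ A, ∀ j ∈ A, f i ≠ g j) → #A < κ := by
    intro A hA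
    have h1 : #A ≤ κ := hI ▸ mk_set_le A
    exact lt_of_le_of_ne h1 fun h => hcon ⟨A, h, hA⟩
  obtain ⟨A, hA⟩ : ∃ A, Maximal (· ∈ {A : Set I | ∀ i ∈ A, ∀ j ∈ A, f i ≠ g j}) A := by
    apply zorn_subset
    intro c hc hchain
    refine ⟨⋃₀ c, ?_, fun s hs => subset_sUnion_of_mem hs⟩
    rintro i ⟨s, hs, hi⟩ j ⟨t, ht, hj⟩
    rcases hchain.total hs ht with h | h
    · exact hc ht i (h hi) j hj
    · exact hc hs i hi j (h hj)
  set D : Set τ := f '' A ∪ g '' A with hD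
  have hDlt : #D < κ :=
    (mk_union_le _ _).trans_lt (add_lt_of_lt hκ (mk_image_le.trans_lt (hsmall A hA.1))
      (mk_image_le.trans_lt (hsmall A hA.1)))
  have hcover : ∀ i, f i ∈ D ∨ g i ∈ D := by
    intro i
    by_contra h
    push Not at h
    have hi : insert i A ∈ {A : Set I | ∀ i ∈ A, ∀ j ∈ A, f i ≠ g j} := by
      rintro a (rfl | ha) b (rfl | hb)
      · exact hfg _
      · intro e; exact h.1 (Or.inr ⟨b, hb, e.symm⟩)
      · intro e; exact h.2 (Or.inl ⟨a, ha, e⟩)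
      · exact hA.1 a ha b hb
    have := hA.2 hi (subset_insert i A) (mem_insert i A)
    exact h.1 (Or.inl ⟨i, this, rfl⟩)
  set P : Set (τ × τ) := {e | e.1 ∈ D ∧ e.2 ∈ D ∧ e.1 ≠ e.2} with hP
  have hPlt : #P < κ := by
    have : P ⊆ D ×ˢ D := fun e he => ⟨he.1, he.2.1⟩
    refine (mk_le_mk_of_subset this).trans_lt ?_
    rw [mk_setProd]
    exact mul_lt_of_lt hκ hDlt hDlt
  set B : τ × τ → Set I := fun e => {i | f i = e.1 ∧ g i = e.2} with hB
  have hBlt : ∀ e ∈ P, #(B e) < κ := by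
    intro e he
    apply hsmall
    intro i hi j hj h
    exact he.2.2 (hi.1.symm.trans (h.trans hj.2))
  have hunb : ∀ l < κ, ∃ e ∈ P, l < #(B e) := by
    intro l hl
    by_contra h
    push Not at h
    have h1 : #{i | f i ∈ D ∧ g i ∉ D} < κ :=
      hsmall _ fun i hi j hj e => hj.2 (e ▸ hi.1)
    have h2 : #{i | f i ∉ D ∧ g i ∈ D} < κ :=
      hsmall _ fun i hi j hj e => hi.1 (e ▸ hj.2)
    have h3 : #(⋃ e : P, B e) < κ := by
      refine (mk_iUnion_le _).trans_lt (mul_lt_of_lt hκ hPlt ?_)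
      exact (ciSup_le' fun e : P => h e e.2).trans_lt hl
    have h4 : (univ : Set I) ⊆
        ({i | f i ∈ D ∧ g i ∉ D} ∪ {i | f i ∉ D ∧ g i ∈ D}) ∪ ⋃ e : P, B e := by
      intro i _
      by_cases a : f i ∈ D <;> by_cases b : g i ∈ D
      · exact Or.inr (mem_iUnion.2 ⟨⟨(f i, g i), a, b, hfg i⟩, rfl, rfl⟩)
      · exact Or.inl (Or.inl ⟨a, b⟩)
      · exact Or.inl (Or.inr ⟨a, b⟩)
      · rcases hcover i with c | c <;> contradiction
    have h5 := (mk_le_mk_of_subset h4).trans_lt ((mk_union_le _ _).trans_lt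
      (add_lt_of_lt hκ ((mk_union_le _ _).trans_lt (add_lt_of_lt hκ h1 h2)) h3))
    rw [mk_univ, hI] at h5
    exact lt_irrefl _ h5
  obtain ⟨θ, ⟨Q, hQP, hQ, rfl⟩, hmin⟩ := Cardinal.lt_wf.has_min
    {c | ∃ Q ⊆ P, (∀ l < κ, ∃ e ∈ Q, l < #(B e)) ∧ #Q = c} ⟨_, P, le_rfl, hunb, rfl⟩
  have hmin' : ∀ R ⊆ P, (∀ l < κ, ∃ e ∈ R, l < #(B e)) → #Q ≤ #R := fun R h1 h2 =>
    not_lt.1 (hmin _ ⟨R, h1, h2, rfl⟩)
  obtain ⟨lo, wf, hord⟩ := exists_ord_eq_type_lt Q
  set R : Set Q := {e | ∀ e' < e, #(B e') < #(B e)} with hR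
  have hRunb : ∀ l < κ, ∃ e ∈ R, l < #(B e) := by
    intro l hl
    obtain ⟨e, he, h⟩ := hQ l hl
    obtain ⟨e0, h0, hm⟩ := wf.wf.has_min {e : Q | l < #(B e)} ⟨⟨e, he⟩, h⟩
    refine ⟨e0, fun e' he' => ?_, h0⟩
    have : ¬ l < #(B e') := fun h => hm e' h he'
    exact (not_lt.1 this).trans_lt h0
  have hRQ : #R = #Q := by
    apply le_antisymm (mk_set_le R)
    have := hmin' (Subtype.val '' R) (by rintro _ ⟨e, -, rfl⟩; exact hQP e.2) (by
      intro l hl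
      obtain ⟨e, he, h⟩ := hRunb l hl
      exact ⟨e, ⟨e, he, rfl⟩, h⟩)
    exact this.trans mk_image_le
  have hQinf : ℵ₀ ≤ #Q := by
    by_contra h
    have hfin : Finite Q := lt_aleph0_iff_finite.1 (not_le.1 h)
    obtain ⟨e0, he0, -⟩ := hQ 0 (aleph0_pos.trans_le hκ)
    have : Nonempty Q := ⟨⟨e0, he0⟩⟩
    obtain ⟨e, he⟩ := Finite.exists_max fun e : Q => #(B e)
    obtain ⟨e', he', h'⟩ := hQ _ (hBlt e (hQP e.2))
    exact absurd (he ⟨e', he'⟩) (not_le.2 h')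
  obtain ⟨J, hJ, hJc⟩ := ih #Q ((mk_le_mk_of_subset hQP).trans_lt hPlt) R
    (fun e => e.1.1.1) (fun e => e.1.1.2) hQinf hRQ (fun e => (hQP e.1.2).2.2)
  have hfin := hsmall (⋃ e : J, B e.1.1.1) (by
    intro i hi j hj
    obtain ⟨e, he⟩ := mem_iUnion.1 hi
    obtain ⟨e', he'⟩ := mem_iUnion.1 hj
    rw [he.1, he'.2]
    exact hJc _ e.2 _ e'.2)
  obtain ⟨e0, h0, hl⟩ := hRunb _ hfin
  have hsub : (fun e : R => e.1) '' J ⊆ Iio e0 := by
    rintro _ ⟨e, he, rfl⟩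
    by_contra hge
    have h1 : e0 ≤ e.1 := not_lt.1 hge
    have h2 : #(B e0) ≤ #(B e.1) := by
      rcases h1.eq_or_lt with h | h
      · rw [h]
      · exact (e.2 e0 h).le
    have h3 : #(B e.1) ≤ #(⋃ e : J, B e.1.1.1) :=
      mk_le_mk_of_subset (subset_iUnion (fun e : J => B e.1.1.1) ⟨e, he⟩)
    exact absurd (hl.trans_le (h2.trans h3)) (lt_irrefl _)
  have h6 := (mk_le_mk_of_subset hsub).trans_lt (mk_Iio_lt e0 hord)
  rw [mk_image_eq Subtype.val_injective, hJ] at h6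
  exact lt_irrefl _ h6

theorem two_fun {τ I : Type u} (f g : I → τ) (hfg : ∀ i, f i ≠ g i) (B : Set I)
    (hB : ℵ₀ ≤ #B) : ∃ A ⊆ B, #A = #B ∧ ∀ i ∈ A, ∀ j ∈ A, f i ≠ g j := by
  obtain ⟨A, hA, h⟩ := two_fun_aux (#B) B (fun i => f i) (fun i => g i) hB rfl fun i => hfg i
  refine ⟨Subtype.val '' A, by rintro _ ⟨i, -, rfl⟩; exact i.2, ?_, ?_⟩
  · rw [mk_image_eq Subtype.val_injective, hA]
  · rintro _ ⟨i, hi, rfl⟩ _ ⟨j, hj, rfl⟩
    exact h i hi j hj

theorem many_fun {τ I : Type u} (p q : ℕ → I → τ) (hpq : ∀ k l i, p k i ≠ q l i) (B : Set I)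
    (hB : ℵ₀ ≤ #B) (S : Finset (ℕ × ℕ)) :
    ∃ A ⊆ B, #A = #B ∧ ∀ e ∈ S, ∀ i ∈ A, ∀ j ∈ A, p e.1 i ≠ q e.2 j := by
  classical
  induction S using Finset.induction_on with
  | empty => exact ⟨B, le_rfl, rfl, by simp⟩
  | insert e S _ ih =>
    obtain ⟨A, hAB, hA, h⟩ := ih
    obtain ⟨A', h1, h2, h3⟩ := two_fun (p e.1) (q e.2) (hpq e.1 e.2) A (hA ▸ hB)
    refine ⟨A', h1.trans hAB, h2.trans hA, ?_⟩
    intro e' he' i hi j hj
    rcases Finset.mem_insert.1 he' with rfl | he'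
    · exact h3 i hi j hj
    · exact h e' he' i (h1 hi) j (h1 hj)

/-- Shanin's caliber theorem for Cantor cubes, in combinatorial form. -/
theorem caliber {τ I : Type u} (hI : ℵ₀ < (#I).ord.cof) (P N : I → Finset τ)
    (hPN : ∀ i, Disjoint (P i) (N i)) :
    ∃ A : Set I, #A = #I ∧ ∀ i ∈ A, ∀ j ∈ A, Disjoint (P i) (N j) := by
  classical
  have hinf : ℵ₀ ≤ #I := hI.le.trans (Ordinal.cof_ord_le _)
  obtain ⟨n, hn⟩ := infinite_pigeonhole
    (fun i : I => (ULift.up ((P i).card + (N i).card) : ULift.{u} ℕ)) hinf (by simpa using hI)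
  let p : ℕ → I → τ ⊕ Bool := fun k i => (((P i).toList.map Sum.inl)[k]?).getD (Sum.inr true)
  let q : ℕ → I → τ ⊕ Bool := fun k i => (((N i).toList.map Sum.inl)[k]?).getD (Sum.inr false)
  have key : ∀ (s : Finset τ) (b : Bool) (k : ℕ),
      (((s.toList.map Sum.inl)[k]?).getD (Sum.inr b) : τ ⊕ Bool) = Sum.inr b ∨
        ∃ a ∈ s, ((s.toList.map Sum.inl)[k]?).getD (Sum.inr b) = (Sum.inl a : τ ⊕ Bool) := by
    intro s b k
    rcases h : (s.toList.map (Sum.inl : τ → τ ⊕ Bool))[k]? with _ | x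
    · left; rfl
    · right
      have := List.mem_of_getElem? h
      obtain ⟨a, ha, rfl⟩ := List.mem_map.1 this
      exact ⟨a, Finset.mem_toList.1 ha, rfl⟩
  have key2 : ∀ (s : Finset τ) (b : Bool), ∀ a ∈ s, ∃ k < s.card,
      ((s.toList.map Sum.inl)[k]?).getD (Sum.inr b) = (Sum.inl a : τ ⊕ Bool) := by
    intro s b a ha
    obtain ⟨k, hk, e⟩ := List.getElem_of_mem (Finset.mem_toList.2 ha)
    refine ⟨k, by simpa using hk, ?_⟩
    rw [List.getElem?_map, List.getElem?_eq_getElem hk, e]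
    rfl
  obtain ⟨A, hAB, hA, h⟩ := many_fun (τ := τ ⊕ ULift.{u} Bool)
    (fun k i => Sum.map id ULift.up (p k i)) (fun k i => Sum.map id ULift.up (q k i))
    (by
      intro k l i e
      have e' : p k i = q l i :=
        (Sum.map_injective.2 ⟨injective_id, ULift.up_injective⟩) e
      rcases key (P i) true k with h1 | ⟨a, ha, h1⟩ <;>
        rcases key (N i) false l with h2 | ⟨b, hb, h2⟩ <;>
        simp only [p, q, h1, h2] at e'
      · simp at e'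
      · simp at e'
      · simp at e'
      · have : a = b := Sum.inl_injective e'
        subst this
        exact Finset.disjoint_left.1 (hPN i) ha hb)
    _ (hn ▸ hinf) (Finset.range (n.down + 1) ×ˢ Finset.range (n.down + 1))
  refine ⟨A, hA.trans hn, ?_⟩
  intro i hi j hj
  rw [Finset.disjoint_left]
  intro a ha hb
  obtain ⟨k, hk, e1⟩ := key2 (P i) true a ha
  obtain ⟨l, hl, e2⟩ := key2 (N j) false a hb
  have h1 : (P i).card + (N i).card = n.down := congrArg ULift.down (hAB hi)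
  have h2 : (P j).card + (N j).card = n.down := congrArg ULift.down (hAB hj)
  refine h (k, l) (by simp only [Finset.mem_product, Finset.mem_range]; omega) i hi j hj ?_
  simp only [p, q, e1, e2]

end Pool.Agent.Lib.PM42
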