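import Mathlib
import Pool.Agent.Lib.MP_cf3d36_an.Main

namespace Pool.Agent.Lib.PM42

open Function Filter Topology Set MeasureTheory Pool.Agent.Lib.MP_cf3d36_an

theorem sep {ι : Type*} (C : Set ((ι → Bool) × (ι → Bool))) (hC : IsClosed C)
    (h : ∀ p ∈ C, p.1 ≠ p.2) : ∃ F : Finset ι, ∀ p ∈ C, ∃ i ∈ F, p.1 i ≠ p.2 i := by
  obtain ⟨F, hF⟩ := hC.isCompact.elim_finite_subcover
    (fun i : ι => {p : (ι → Bool) × (ι → Bool) | p.1 i ≠ p.2 i})
    (fun i => isOpen_ne_fun (by fun_prop) (by fun_prop))
    (fun p hp => mem_iUnion.2 (Function.ne_iff.1 (h p hp)))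
  refine ⟨F, fun p hp => ?_⟩
  simpa using hF hp

theorem approx {ι : Type*} (f : C(ι → Bool, ℝ)) {ε : ℝ} (hε : 0 < ε) :
    ∃ F : Finset ι, ∀ a b : ι → Bool, (∀ i ∈ F, a i = b i) → |f a - f b| < ε := by
  obtain ⟨F, hF⟩ := sep {p : (ι → Bool) × (ι → Bool) | ε ≤ |f p.1 - f p.2|}
    (isClosed_le continuous_const (by fun_prop)) (by
      intro p hp e
      have : ε ≤ |f p.1 - f p.2| := hp
      rw [e, sub_self, abs_zero] at this
      linarith)
  refine ⟨F, fun a b hab => ?_⟩
  by_contra hcon
  obtain ⟨i, hi, hne⟩ := hF (a, b) (not_lt.1 hcon)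
  exact hne (hab i hi)

theorem measurable_cont {ι : Type*} (f : C(ι → Bool, ℝ)) : Measurable f := by
  classical
  choose F hF using fun n : ℕ => approx f (Nat.one_div_pos_of_nat (α := ℝ) (n := n))
  refine measurable_of_tendsto_metrizable
    (f := fun n ω => f fun i => if h : i ∈ F n then (F n).restrict ω ⟨i, h⟩ else false) ?_ ?_
  · intro n
    exact (measurable_of_finite fun s : F n → Bool =>
      f fun i => if h : i ∈ F n then s ⟨i, h⟩ else false).comp (Finset.measurable_restrict _)
  · rw [tendsto_pi_nhds]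
    intro ω
    rw [tendsto_iff_dist_tendsto_zero]
    refine squeeze_zero (fun _ => dist_nonneg) (fun n => ?_)
      tendsto_one_div_add_atTop_nhds_zero_nat
    rw [Real.dist_eq]
    exact (hF n _ _ fun i hi => by simp [hi]).le

/-- A Cantor cube is a Dugundji space. -/
theorem exists_cube_op {ι K : Type*} [TopologicalSpace K] [CompactSpace K] (g : ι → C(K, ℝ)) :
    ∃ E : C(ι → Bool, ℝ) →L[ℝ] C(K, ℝ), (∀ f, 0 ≤ f → 0 ≤ E f) ∧
      ∀ f x (ω : ι → Bool), (∀ i, g i x = if ω i then 1 else 0) → E f x = f ω := by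
  classical
  set ν : Measure ℝ := volume.restrict (Ioc (0 : ℝ) 1) with hν
  have : IsProbabilityMeasure ν := ⟨by simp [hν]⟩
  set Φ : (ι → ℝ) → ℝ → ι → Bool := fun y u i => decide (u ≤ y i) with hΦ
  have hmeas : ∀ (f : C(ι → Bool, ℝ)) y, Measurable fun u => f (Φ y u) := by
    intro f y
    refine (measurable_cont f).comp (measurable_pi_lambda _ fun i => ?_)
    apply measurable_to_bool
    have : (fun u : ℝ => Φ y u i) ⁻¹' {true} = Iic (y i) := by
      ext u; simp [hΦ]
    rw [this]; exact measurableSet_Iic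
  have hint : ∀ (f : C(ι → Bool, ℝ)) y, Integrable (fun u => f (Φ y u)) ν := fun f y =>
    Integrable.of_bound (hmeas f y).aestronglyMeasurable ‖f‖
      (ae_of_all _ fun u => f.norm_coe_le_norm _)
  have hcont : ∀ f : C(ι → Bool, ℝ), Continuous fun y => ∫ u, f (Φ y u) ∂ν := by
    intro f
    refine continuous_of_uniform_approx_of_continuous ?_
    intro V hV
    obtain ⟨ε, hε, hV⟩ := Metric.mem_uniformity_dist.1 hV
    obtain ⟨F, hF⟩ := approx f (half_pos hε)
    let ext : (F → ℝ) → ι → ℝ := fun z i => if h : i ∈ F then z ⟨i, h⟩ else 0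
    have h1 : Continuous fun z : F → ℝ => ∫ u, f (Φ (ext z) u) ∂ν := by
      rw [continuous_iff_continuousAt]
      intro z0
      refine continuousAt_of_dominated (bound := fun _ => ‖f‖)
        (Eventually.of_forall fun z => (hmeas f _).aestronglyMeasurable)
        (Eventually.of_forall fun z => ae_of_all _ fun u => f.norm_coe_le_norm _)
        (integrable_const _) ?_
      have hae : ∀ᵐ u ∂ν, u ∉ range z0 :=
        ae_restrict_of_ae ((countable_range z0).ae_notMem volume)
      filter_upwards [hae] with u hu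
      refine f.continuous.continuousAt.comp (f := fun z => Φ (ext z) u) ?_
      rw [continuousAt_pi]
      intro i
      by_cases hi : i ∈ F
      · have hne : u ≠ z0 ⟨i, hi⟩ := fun h => hu ⟨_, h.symm⟩
        have hc : ContinuousAt (fun z : F → ℝ => z ⟨i, hi⟩) z0 :=
          (continuous_apply _).continuousAt
        rcases hne.lt_or_gt with h | h
        · refine (continuousAt_const (y := true)).congr ?_
          filter_upwards [hc.eventually (lt_mem_nhds h)] with z hz
          simp [hΦ, ext, hi, hz.le]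
        · refine (continuousAt_const (y := false)).congr ?_
          filter_upwards [hc.eventually (gt_mem_nhds h)] with z hz
          simp [hΦ, ext, hi, hz]
      · simp only [hΦ, ext, dif_neg hi]
        exact continuousAt_const
    refine ⟨fun y => ∫ u, f (Φ (ext (F.restrict y)) u) ∂ν,
      h1.comp (Finset.continuous_restrict F), fun y => hV ?_⟩
    rw [Real.dist_eq, ← integral_sub (hint f _) (hint f _), ← Real.norm_eq_abs]
    have := norm_integral_le_of_norm_le_const (μ := ν) (C := ε / 2)
      (f := fun u => f (Φ y u) - f (Φ (ext (F.restrict y)) u))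
      (ae_of_all _ fun u => by
        rw [Real.norm_eq_abs]
        exact (hF _ _ fun i hi => by simp [hΦ, ext, hi]).le)
    simp only [probReal_univ, mul_one] at this
    linarith
  have hpos : ∀ (x : K) (f : C(ι → Bool, ℝ)), 0 ≤ f →
      0 ≤ ∫ u, f (Φ (fun i => g i x) u) ∂ν := fun x f hf => integral_nonneg fun u => hf _
  obtain ⟨E, hE⟩ := exists_op
    (fun (x : K) (f : C(ι → Bool, ℝ)) => ∫ u, f (Φ (fun i => g i x) u) ∂ν)
    (by
      intro x f f'
      simp only [ContinuousMap.add_apply]
      exact integral_add (hint f _) (hint f' _))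
    (by
      intro x c f
      simp only [ContinuousMap.smul_apply, smul_eq_mul]
      exact integral_const_mul c _)
    hpos
    (fun f => (hcont f).comp (continuous_pi fun i => (g i).continuous))
  refine ⟨E, fun f hf x => ?_, fun f x ω hω => ?_⟩
  · have := hpos x f hf
    rw [← hE] at this
    exact this
  · rw [hE]
    have : ∀ᵐ u ∂ν, f (Φ (fun i => g i x) u) = f ω := by
      rw [hν]
      filter_upwards [ae_restrict_mem measurableSet_Ioc] with u hu
      congr 1
      ext i
      simp only [hΦ, hω i]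
      cases ω i
      · simpa using hu.1
      · simpa using hu.2
    rw [integral_congr_ae this]
    simp

theorem posCompl_cube {ι K : Type*} [TopologicalSpace K] [CompactSpace K] [T2Space K]
    (j : C(ι → Bool, K)) (hj : Injective j) : PosCompl (ι → Bool) K := by
  have h : ∀ i : ι, ∃ g : C(K, ℝ), ∀ ω, g (j ω) = if ω i then 1 else 0 := by
    intro i
    have hc : ∀ b : Bool, IsClosed (j '' {ω | ω i = b}) := fun b =>
      ((isClosed_eq (continuous_apply i) continuous_const).isCompact.image j.continuous).isClosed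
    obtain ⟨g, h0, h1, -⟩ := exists_continuous_zero_one_of_isClosed (hc false) (hc true) (by
      rw [disjoint_image_iff hj, Set.disjoint_left]
      intro ω a b
      simp only [mem_ofPred_eq] at a b
      rw [a] at b
      exact Bool.false_ne_true b)
    refine ⟨g, fun ω => ?_⟩
    cases hω : ω i
    · exact h0 ⟨ω, hω, rfl⟩
    · exact h1 ⟨ω, hω, rfl⟩
  choose g hg using h
  obtain ⟨E, hE, hE'⟩ := exists_cube_op g
  refine ⟨pull j, E, fun f hf ω => hf _, hE, fun f => ?_⟩
  ext ω
  exact hE' f (j ω) ω fun i => hg i ω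

section
variable {K L M : Type*} [TopologicalSpace K] [CompactSpace K] [TopologicalSpace L]
  [CompactSpace L] [TopologicalSpace M] [CompactSpace M]

theorem posCompl_trans (h : PosCompl K L) (h' : PosCompl L M) : PosCompl K M := by
  obtain ⟨R, E, hR, hE, hRE⟩ := h
  obtain ⟨R', E', hR', hE', hRE'⟩ := h'
  exact ⟨R.comp R', E'.comp E, fun f hf => hR _ (hR' f hf), fun f hf => hE' _ (hE f hf),
    fun f => by simp [hRE, hRE']⟩

theorem posCompl_retract (j : C(K, L)) (r : C(L, K)) (h : ∀ x, r (j x) = x) : PosCompl K L :=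
  ⟨pull j, pull r, fun _ hf _ => hf _, fun _ hf _ => hf _, fun f => by
    ext x; exact congrArg f (h x)⟩

theorem exists_tensor [T2Space K] [T2Space L] (T : C(K, ℝ) →L[ℝ] C(L, ℝ))
    (hT : ∀ f, 0 ≤ f → 0 ≤ T f) :
    ∃ S : C(M × K, ℝ) →L[ℝ] C(M × L, ℝ), (∀ f, 0 ≤ f → 0 ≤ S f) ∧
      ∀ f m, (S f).curry m = T (f.curry m) := by
  have hpos : ∀ (p : M × L) (f : C(M × K, ℝ)), 0 ≤ f → 0 ≤ T (f.curry p.1) p.2 :=
    fun p f hf => hT (f.curry p.1) (fun x => hf (p.1, x)) p.2
  obtain ⟨S, hS⟩ := exists_op (fun (p : M × L) (f : C(M × K, ℝ)) => T (f.curry p.1) p.2)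
    (by
      intro p f g
      have : (f + g).curry p.1 = f.curry p.1 + g.curry p.1 := rfl
      rw [this, map_add]; rfl)
    (by
      intro p c f
      have : (c • f).curry p.1 = c • f.curry p.1 := rfl
      rw [this, map_smul]; rfl)
    hpos
    (by
      intro f
      exact continuous_eval.comp
        ((T.continuous.comp (f.curry.continuous.comp continuous_fst)).prodMk continuous_snd))
  refine ⟨S, fun f hf p => ?_, fun f m => ?_⟩
  · have := hpos p f hf
    rw [← hS] at this
    exact this
  · ext l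
    exact hS f (m, l)

theorem posCompl_prod [T2Space K] [T2Space L] (h : PosCompl K L) : PosCompl (M × K) (M × L) := by
  obtain ⟨R, E, hR, hE, hRE⟩ := h
  obtain ⟨R', h1, h2⟩ := exists_tensor (M := M) R hR
  obtain ⟨E', h3, h4⟩ := exists_tensor (M := M) E hE
  refine ⟨R', E', h1, h3, fun f => ?_⟩
  ext ⟨m, x⟩
  have : (R' (E' f)).curry m = f.curry m := by rw [h2, h4, hRE]
  exact congrArg (fun t : C(K, ℝ) => t x) this

theorem posCompl_swap : PosCompl (K × L) (L × K) :=
  posCompl_retract ⟨Prod.swap, continuous_swap⟩ ⟨Prod.swap, continuous_swap⟩ fun _ => rfl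

end

theorem posCompl_cube_of_embedding {ι τ : Type*} (e : ι → τ) (he : Injective e) :
    PosCompl (ι → Bool) (τ → Bool) := by
  classical
  refine posCompl_retract
    ⟨fun ω t => if h : ∃ i, e i = t then ω h.choose else false, ?_⟩
    ⟨fun ω i => ω (e i), by fun_prop⟩ ?_
  · refine continuous_pi fun t => ?_
    split_ifs
    · exact continuous_apply _
    · exact continuous_const
  · intro ω
    ext i
    have h : ∃ i', e i' = e i := ⟨i, rfl⟩
    simp only [ContinuousMap.coe_mk, dif_pos h]
    rw [he h.choose_spec]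

theorem posCompl_cube_enat {ι : Type*} [Infinite ι] :
    PosCompl ((ι → Bool) × ℕ∞) (ι → Bool) := by
  have h1 : PosCompl ℕ∞ (ℕ → Bool) := by
    let _ := TopologicalSpace.metrizableSpaceMetric ℕ∞
    let _ := TopologicalSpace.metrizableSpaceMetric (ℕ → Bool)
    have : Uncountable (ℕ → Bool) := by
      rw [← Cardinal.aleph0_lt_mk_iff]
      simp [Cardinal.aleph0_lt_continuum]
    exact posCompl_of_uncountable _ _
  have h2 : PosCompl ((ι → Bool) × (ℕ → Bool)) (ι ⊕ ℕ → Bool) :=
    posCompl_retract ⟨fun p => Sum.elim p.1 p.2, by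
        refine continuous_pi fun t => ?_
        rcases t with t | t <;> simp only [Sum.elim_inl, Sum.elim_inr] <;> fun_prop⟩
      ⟨fun ω => (fun i => ω (Sum.inl i), fun i => ω (Sum.inr i)), by fun_prop⟩ fun _ => rfl
  obtain ⟨e⟩ : Nonempty (ι ⊕ ℕ ↪ ι) := by
    rw [← Cardinal.lift_mk_le']
    simp only [Cardinal.mk_sum, Cardinal.lift_uzero, Cardinal.mk_nat, Cardinal.lift_aleph0,
      Cardinal.lift_id]
    exact (Cardinal.add_eq_left (Cardinal.aleph0_le_mk ι) (Cardinal.aleph0_le_mk ι)).le
  exact posCompl_trans (posCompl_prod h1)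
    (posCompl_trans h2 (posCompl_cube_of_embedding e e.injective))

theorem posIso_of_cube {ι K L : Type*} [Infinite ι] [TopologicalSpace K] [CompactSpace K]
    [T2Space K] [TopologicalSpace L] [CompactSpace L] [T2Space L]
    (h1 : PosCompl K (ι → Bool)) (h2 : PosCompl (ι → Bool) K)
    (h3 : PosCompl L (ι → Bool)) (h4 : PosCompl (ι → Bool) L) : PosIso C(K, ℝ) C(L, ℝ) := by
  have a : PosCompl (L × ℕ∞) K :=
    posCompl_trans posCompl_swap (posCompl_trans (posCompl_prod h3)
      (posCompl_trans posCompl_swap (posCompl_trans posCompl_cube_enat h2)))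
  have b : PosCompl (K × ℕ∞) L :=
    posCompl_trans posCompl_swap (posCompl_trans (posCompl_prod h1)
      (posCompl_trans posCompl_swap (posCompl_trans posCompl_cube_enat h4)))
  exact ((posIso_emit a (posIso_shift L).1).trans posIso_swap).trans
    (posIso_absorb b (posIso_shift K).2)

end Pool.Agent.Lib.PM42
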