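import Mathlib

namespace Pool.Agent.Lib.PM42

open Cardinal Set Function Filter Topology MeasureTheory

universe u

theorem delta_aux {τ I : Type u} {c : Cardinal.{u}} (hc : c.IsRegular) (n : ℕ) :
    ∀ (F : I → Finset τ) (B : Set I), c ≤ #B → (∀ i ∈ B, (F i).card ≤ n) →
      ∃ (Δ : Finset τ) (A : Set I), A ⊆ B ∧ c ≤ #A ∧
        ∀ i ∈ A, ∀ j ∈ A, i ≠ j → ∀ t ∈ F i, t ∈ F j → t ∈ Δ := by
  classical
  induction n with
  | zero =>
    intro F B hB h
    refine ⟨∅, B, le_rfl, hB, fun i hi j _ _ t ht _ => ?_⟩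
    have : F i = ∅ := Finset.card_eq_zero.1 (Nat.le_zero.1 (h i hi))
    rw [this] at ht
    exact ht
  | succ n ih =>
    intro F B hB h
    obtain ⟨M, hM⟩ : ∃ M, Maximal (· ∈ {M : Set I | M ⊆ B ∧
        ∀ i ∈ M, ∀ j ∈ M, i ≠ j → ∀ t ∈ F i, t ∉ F j}) M := by
      apply zorn_subset
      intro s hs hchain
      refine ⟨⋃₀ s, ⟨sUnion_subset fun t ht => (hs ht).1, ?_⟩,
        fun t ht => subset_sUnion_of_mem ht⟩
      rintro i ⟨a, ha, hi⟩ j ⟨b, hb, hj⟩
      rcases hchain.total ha hb with h | h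
      · exact (hs hb).2 i (h hi) j hj
      · exact (hs ha).2 i hi j (h hj)
    by_cases hMc : c ≤ #M
    · exact ⟨∅, M, hM.1.1, hMc, fun i hi j hj hij t h1 h2 => (hM.1.2 i hi j hj hij t h1 h2).elim⟩
    have hMlt : #M < c := not_le.1 hMc
    set D : Set τ := ⋃ i : M, (F i : Set τ) with hD
    have hDlt : #D < c :=
      (card_iUnion_lt_iff_forall_of_isRegular hc hMlt).2 fun i =>
        (F i).finite_toSet.lt_aleph0.trans_le hc.aleph0_le
    have hBM : c ≤ #(B \ M : Set I) := by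
      by_contra hcon
      have h1 : B ⊆ (B \ M) ∪ M := subset_sdiff_union B M
      have h2 := (mk_le_mk_of_subset h1).trans_lt ((mk_union_le _ _).trans_lt
        (add_lt_of_lt hc.aleph0_le (not_le.1 hcon) hMlt))
      exact absurd hB (not_le.2 h2)
    have hmeet : ∀ i : (B \ M : Set I), ∃ t : D, t.1 ∈ F i := by
      rintro ⟨i, hiB, hiM⟩
      by_contra hcon
      push Not at hcon
      apply hiM
      refine hM.2 (y := insert i M) ⟨insert_subset hiB hM.1.1, ?_⟩ (subset_insert i M)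
        (mem_insert i M)
      rintro a (rfl | ha) b (rfl | hb) hab t h1 h2
      · exact hab rfl
      · exact hcon ⟨t, mem_iUnion.2 ⟨⟨b, hb⟩, h2⟩⟩ h1
      · exact hcon ⟨t, mem_iUnion.2 ⟨⟨a, ha⟩, h1⟩⟩ h2
      · exact hM.1.2 a ha b hb hab t h1 h2
    choose g hg using hmeet
    obtain ⟨t0, B', hB', h1, h2⟩ := infinite_pigeonhole_set g c hBM hc.aleph0_le
      (by rw [hc.cof_ord]; exact hDlt)
    obtain ⟨Δ, A, h3, h4, h5⟩ := ih (fun i => (F i).erase t0) B' h1 (by
      intro i hi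
      have h6 : t0.1 ∈ F i := by
        have := hg ⟨i, hB' hi⟩
        rwa [h2 hi] at this
      have h7 := h i (hB' hi).1
      rw [Finset.card_erase_of_mem h6]
      omega)
    refine ⟨insert t0.1 Δ, A, fun i hi => (hB' (h3 hi)).1, h4, fun i hi j hj hij t a b => ?_⟩
    by_cases ht : t = t0
    · rw [ht]; exact Finset.mem_insert_self _ _
    · exact Finset.mem_insert_of_mem (h5 i hi j hj hij t (Finset.mem_erase.2 ⟨ht, a⟩)
        (Finset.mem_erase.2 ⟨ht, b⟩))

theorem pigeon {I : Type u} {c : Cardinal.{u}} (hc : c.IsRegular) (h0 : ℵ₀ < c) {β : Type*}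
    [Countable β] (f : I → β) (B : Set I) (hB : c ≤ #B) :
    ∃ A ⊆ B, c ≤ #A ∧ ∀ i ∈ A, ∀ j ∈ A, f i = f j := by
  obtain ⟨e, he⟩ := exists_injective_nat β
  obtain ⟨a, A, h1, h2, h3⟩ := infinite_pigeonhole_set
    (fun i : B => (ULift.up (e (f i)) : ULift.{u} ℕ)) c hB hc.aleph0_le
    (by rw [hc.cof_ord]; simpa using h0)
  refine ⟨A, h1, h2, fun i hi j hj => he ?_⟩
  exact congrArg ULift.down ((h3 hi).trans (h3 hj).symm)

/-- The delta-system lemma. -/
theorem delta_system {τ I : Type u} {c : Cardinal.{u}} (hc : c.IsRegular) (h0 : ℵ₀ < c)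
    (F : I → Finset τ) (hI : c ≤ #I) :
    ∃ (Δ : Finset τ) (A : Set I), c ≤ #A ∧
      ∀ i ∈ A, ∀ j ∈ A, i ≠ j → ∀ t ∈ F i, t ∈ F j → t ∈ Δ := by
  obtain ⟨B, -, hB, h⟩ := pigeon hc h0 (fun i => (F i).card) univ (by rwa [mk_univ])
  obtain ⟨i0, hi0⟩ : B.Nonempty := by
    rw [← nonempty_coe_sort, ← mk_ne_zero_iff]
    exact (hc.pos.trans_le hB).ne'
  obtain ⟨Δ, A, -, h1, h2⟩ := delta_aux hc (F i0).card F B hB fun i hi => (h i hi i0 hi0).le
  exact ⟨Δ, A, h1, h2⟩

theorem exists_blocks {κ : Cardinal.{u}} (h0 : ℵ₀ < κ) (hcof : ¬ ℵ₀ < κ.ord.cof) :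
    ∃ l : ℕ → Cardinal.{u}, (∀ n, (l n).IsRegular ∧ ℵ₀ < l n ∧ l n < κ) ∧ StrictMono l ∧
      ∀ c < κ, ∃ n, c < l n := by
  have hsucc : ∀ c < κ, Order.succ (max c ℵ₀) < κ := by
    intro c hc
    have h1 : max c ℵ₀ < κ := max_lt hc h0
    refine lt_of_le_of_ne (Order.succ_le_of_lt h1) fun h => hcof ?_
    have h2 := isRegular_succ (le_max_right c ℵ₀)
    rw [h] at h2
    rwa [h2.cof_ord]
  obtain ⟨s, hs, hsc⟩ := Order.exists_cof_eq κ.ord.ToType
  rw [Ordinal.cof_toType] at hsc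
  have hcount : s.Countable := by
    rw [← le_aleph0_iff_set_countable, hsc]
    exact not_lt.1 hcof
  have hne : Nonempty κ.ord.ToType := by
    rw [← mk_ne_zero_iff, mk_ord_toType]
    exact (aleph0_pos.trans h0).ne'
  obtain ⟨a, rfl⟩ := hcount.exists_eq_range hs.nonempty
  let m : ℕ → Cardinal.{u} := fun n => #(Iic (a n))
  have hm : ∀ n, m n < κ := by
    intro n
    have h1 : #(Iio (a n)) < κ := by
      have := mk_Iio_lt (a n) (by simp)
      rwa [mk_ord_toType] at this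
    simp only [m]
    rw [← Iio_insert]
    exact mk_insert_le.trans_lt (add_lt_of_lt h0.le h1 (one_lt_aleph0.trans h0))
  have hunb : ∀ c < κ, ∃ n, c < m n := by
    intro c hc
    by_contra hcon
    push Not at hcon
    have h1 : (univ : Set κ.ord.ToType) ⊆ ⋃ n : ULift.{u} ℕ, Iic (a n.down) := by
      intro x _
      obtain ⟨_, ⟨n, rfl⟩, h⟩ := hs x
      exact mem_iUnion.2 ⟨⟨n⟩, h⟩
    have h2 := (mk_le_mk_of_subset h1).trans_lt ((mk_iUnion_le _).trans_lt
      (mul_lt_of_lt h0.le (by simpa using h0)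
        ((ciSup_le' fun n : ULift.{u} ℕ => hcon n.down).trans_lt hc)))
    rw [mk_univ, mk_ord_toType] at h2
    exact lt_irrefl _ h2
  let l : ℕ → Cardinal.{u} := fun n =>
    Nat.rec (Order.succ (max (m 0) ℵ₀)) (fun k c => Order.succ (max (max (m (k + 1)) c) ℵ₀)) n
  have hl : ∀ n, l n < κ := by
    intro n
    induction n with
    | zero => exact hsucc _ (hm 0)
    | succ n ih => exact hsucc _ (max_lt (hm _) ih)
  have hl2 : ∀ n, ∃ c, m n ≤ c ∧ l n = Order.succ (max c ℵ₀) := by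
    intro n
    cases n with
    | zero => exact ⟨_, le_rfl, rfl⟩
    | succ n => exact ⟨_, le_max_left _ _, rfl⟩
  refine ⟨l, fun n => ?_, strictMono_nat_of_lt_succ fun n => ?_, fun c hc => ?_⟩
  · obtain ⟨c, -, h⟩ := hl2 n
    refine ⟨h ▸ isRegular_succ (le_max_right _ _), ?_, hl n⟩
    rw [h]
    exact Order.lt_succ_of_le (le_max_right _ _)
  · exact Order.lt_succ_of_le ((le_max_right _ _).trans (le_max_left _ _))
  · obtain ⟨n, hn⟩ := hunb c hc
    obtain ⟨c', h1, h⟩ := hl2 n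
    refine ⟨n, ?_⟩
    rw [h]
    exact Order.lt_succ_of_le (hn.le.trans (h1.trans (le_max_left _ _)))

/-- Bounded pointwise null sequences have uniformly small convex combinations. -/
theorem mazur {Ω : Type*} [TopologicalSpace Ω] [CompactSpace Ω] [T2Space Ω]
    (v : ℕ → C(Ω, ℝ)) (M : ℝ) (hM : ∀ j, ‖v j‖ ≤ M)
    (hv : ∀ ω, Tendsto (fun j => v j ω) atTop (𝓝 0)) (t : Set C(Ω, ℝ)) (ht : Convex ℝ t)
    (hvt : ∀ j, v j ∈ t) {η : ℝ} (hη : 0 < η) : ∃ w ∈ t, ∀ ω, w ω < η := by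
  by_contra hcon
  push Not at hcon
  set s : Set C(Ω, ℝ) := {w | ∀ ω, w ω < η} with hs
  have hso : IsOpen s := by
    have : s = {w : C(Ω, ℝ) | MapsTo w univ (Iio η)} := by
      ext w
      exact ⟨fun h ω _ => h ω, fun h ω => h (mem_univ ω)⟩
    rw [this]
    exact ContinuousMap.isOpen_setOfPred_mapsTo isCompact_univ isOpen_Iio
  have hsc : Convex ℝ s := by
    intro a ha b hb x y hx hy hxy ω
    exact (convex_Iio η) (ha ω) (hb ω) hx hy hxy
  obtain ⟨Ψ, c, h1, h2⟩ := geometric_hahn_banach_open hsc hso ht (by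
    rw [Set.disjoint_left]
    intro w hw hwt
    obtain ⟨ω, h⟩ := hcon w hwt
    exact absurd (hw ω) (not_lt.2 h))
  have hc : 0 < c := by simpa using h1 0 fun ω => hη
  have hpos : ∀ h : C(Ω, ℝ), 0 ≤ h → 0 ≤ Ψ h := by
    intro h hh
    by_contra hneg
    have h3 : Ψ h < 0 := not_le.1 hneg
    have h4 := h1 ((c / Ψ h) • h) fun ω => by
      have h5 : c / Ψ h ≤ 0 := div_nonpos_of_nonneg_of_nonpos hc.le h3.le
      have h6 : 0 ≤ h ω := hh ω
      have := mul_nonpos_of_nonpos_of_nonneg h5 h6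
      simp only [ContinuousMap.smul_apply, smul_eq_mul]
      linarith
    rw [map_smul, smul_eq_mul, div_mul_cancel₀ _ h3.ne] at h4
    exact lt_irrefl _ h4
  borelize Ω
  let Λ : CompactlySupportedContinuousMap Ω ℝ →ₚ[ℝ] ℝ :=
    { toFun g := Ψ g.toContinuousMap
      map_add' g g' := by rw [← map_add]; rfl
      map_smul' r g := by
        simp only [RingHom.id_apply]
        rw [← map_smul]; rfl
      monotone' g g' hgg' := by
        have := hpos (g'.toContinuousMap - g.toContinuousMap) fun ω => sub_nonneg.2 (hgg' ω)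
        rw [map_sub] at this
        simpa using this }
  have hint : ∀ j, ∫ ω, v j ω ∂(RealRMK.rieszMeasure Λ) = Ψ (v j) := fun j =>
    RealRMK.integral_rieszMeasure Λ ⟨v j, HasCompactSupport.of_compactSpace _⟩
  have hlim := tendsto_integral_of_dominated_convergence (μ := RealRMK.rieszMeasure Λ)
    (F := fun j ω => v j ω) (f := fun _ => (0 : ℝ)) (fun _ => M)
    (fun j => (v j).continuous.aestronglyMeasurable) (integrable_const _)
    (fun j => ae_of_all _ fun ω => ((v j).norm_coe_le_norm ω).trans (hM j)) (ae_of_all _ hv)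
  simp only [hint, integral_zero] at hlim
  have := ge_of_tendsto' hlim fun j => h2 _ (hvt j)
  linarith

end Pool.Agent.Lib.PM42
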