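import Mathlib
import Pool.Agent.Lib.PM42.Cal
import Pool.Agent.Lib.PM42.Cube

namespace Pool.Agent.Lib.PM42

open Function Filter Topology Set Cardinal TopologicalSpace Pool.Agent.Lib.MP_cf3d36_an

universe u

variable {τ K : Type u} [TopologicalSpace K] [CompactSpace K] [T2Space K]

open Classical in
/-- Essential coordinates of a map on a Cantor cube. -/
def ess (φ : C(τ → Bool, K)) : Set τ :=
  {i | ∃ ω : τ → Bool, φ (update ω i true) ≠ φ (update ω i false)}

theorem eq_of_ess (φ : C(τ → Bool, K)) (a b : τ → Bool) (h : ∀ i ∈ ess φ, a i = b i) :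
    φ a = φ b := by
  classical
  have h1 : ∀ F : Finset τ, φ (fun i => if i ∈ F then b i else a i) = φ a := by
    intro F
    induction F using Finset.induction_on with
    | empty => simp
    | insert t F ht ih =>
      rw [← ih]
      by_cases hab : a t = b t
      · congr 1
        ext i
        by_cases hi : i = t
        · subst hi; simp [hab]
        · simp [hi]
      · have h2 : t ∉ ess φ := fun hc => hab (h t hc)
        simp only [ess, mem_ofPred_eq, not_exists, not_not] at h2
        have h3 : ∀ (ω : τ → Bool) (x y : Bool), φ (update ω t x) = φ (update ω t y) := by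
          intro ω x y
          have := h2 ω
          cases x <;> cases y
          · rfl
          · convert this.symm
          · convert this
          · rfl
        have h4 := h3 (fun i => if i ∈ F then b i else a i) (b t) (a t)
        convert h4 using 2
        · ext i
          by_cases hi : i = t
          · subst hi; simp
          · simp [hi]
        · ext i
          by_cases hi : i = t
          · subst hi; simp [ht]
          · simp [hi]
  have h2 : Tendsto (fun F : Finset τ => fun i => if i ∈ F then b i else a i) atTop (𝓝 b) := by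
    rw [tendsto_pi_nhds]
    intro i
    refine tendsto_const_nhds.congr' ?_
    filter_upwards [eventually_ge_atTop ({i} : Finset τ)] with F hF
    have : i ∈ F := hF (Finset.mem_singleton_self i)
    simp [this]
  have h3 := (φ.continuous.tendsto b).comp h2
  have h4 : (φ ∘ fun F : Finset τ => fun i => if i ∈ F then b i else a i) = fun _ => φ a :=
    funext h1
  rw [h4] at h3
  exact tendsto_nhds_unique tendsto_const_nhds h3

open Classical in
/-- Extension by `false`. -/
noncomputable def extend0 (S : Set τ) : C(S → Bool, τ → Bool) :=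
  ⟨fun ω t => if h : t ∈ S then ω ⟨t, h⟩ else false, by
    refine continuous_pi fun t => ?_
    split_ifs
    · exact continuous_apply _
    · exact continuous_const⟩

theorem extend0_ess (φ : C(τ → Bool, K)) (ω : τ → Bool) :
    φ (extend0 (ess φ) fun i => ω i) = φ ω :=
  eq_of_ess φ _ _ fun i hi => by simp [extend0, hi]

theorem posCompl_ess (φ : C(τ → Bool, K)) (A : C(τ → Bool, ℝ) →L[ℝ] C(K, ℝ))
    (hA : ∀ f, 0 ≤ f → 0 ≤ A f) (hφ : ∀ g : C(K, ℝ), A (g.comp φ) = g) :
    PosCompl K (ess φ → Bool) := by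
  let r : C(τ → Bool, ess φ → Bool) := ⟨fun ω i => ω i, by fun_prop⟩
  refine ⟨A.comp (pull r), pull (φ.comp (extend0 _)), fun f hf => hA _ fun ω => hf _,
    fun f hf ω => hf _, fun g => ?_⟩
  rw [← hφ g]
  simp only [ContinuousLinearMap.comp_apply, hφ]
  conv_rhs => rw [← hφ g]
  congr 1
  ext ω
  exact congrArg g (extend0_ess φ ω)

theorem mk_ess_le (φ : C(τ → Bool, K)) (B : Set (Set K)) (hB : IsTopologicalBasis B) :
    #(ess φ) ≤ max #B ℵ₀ := by
  classical
  have h : ∀ p : B × B, ∃ F : Finset τ, Disjoint (closure p.1.1) (closure p.2.1) →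
      ∀ a b, φ a ∈ p.1.1 → φ b ∈ p.2.1 → ∃ i ∈ F, a i ≠ b i := by
    intro p
    by_cases hd : Disjoint (closure p.1.1) (closure p.2.1)
    · obtain ⟨F, hF⟩ := sep ((φ ⁻¹' closure p.1.1) ×ˢ (φ ⁻¹' closure p.2.1))
        ((isClosed_closure.preimage φ.continuous).prod (isClosed_closure.preimage φ.continuous))
        (by
          rintro ⟨a, b⟩ ⟨ha, hb⟩ e
          simp only at e
          subst e
          exact Set.disjoint_left.1 hd ha hb)
      exact ⟨F, fun _ a b ha hb => hF (a, b) ⟨subset_closure ha, subset_closure hb⟩⟩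
    · exact ⟨∅, fun h => absurd h hd⟩
  choose F hF using h
  have hsub : ess φ ⊆ ⋃ p, (F p : Set τ) := by
    rintro i ⟨ω, hω⟩
    obtain ⟨U, xU, Uo, V, yV, Vo, hUV⟩ := exists_open_nhds_disjoint_closure hω
    obtain ⟨U', hU', x1, x2⟩ := hB.exists_subset_of_mem_open xU Uo
    obtain ⟨V', hV', y1, y2⟩ := hB.exists_subset_of_mem_open yV Vo
    obtain ⟨t, ht, hne⟩ := hF (⟨U', hU'⟩, ⟨V', hV'⟩)
      (hUV.mono (closure_mono x2) (closure_mono y2)) _ _ x1 y1
    refine mem_iUnion.2 ⟨(⟨U', hU'⟩, ⟨V', hV'⟩), ?_⟩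
    by_cases hti : t = i
    · subst hti; exact ht
    · exfalso; apply hne
      simp [update_of_ne hti]
  refine (mk_le_mk_of_subset hsub).trans ((mk_iUnion_le _).trans ?_)
  have hinf : ℵ₀ ≤ max #B ℵ₀ := le_max_right _ _
  have h1 : ⨆ p, #(F p : Set τ) ≤ max #B ℵ₀ :=
    ciSup_le' fun p => ((F p).finite_toSet.lt_aleph0.le).trans hinf
  have h2 : #(B × B) ≤ max #B ℵ₀ := by
    simp only [mk_prod, lift_id]
    exact (mul_le_mul' (le_max_left _ _) (le_max_left _ _)).trans (mul_eq_self hinf).le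
  exact (mul_le_mul' h2 h1).trans (mul_eq_self hinf).le

theorem exists_basis_of_surjective (φ : C(τ → Bool, K)) (hφ : Surjective φ) :
    ∃ B : Set (Set K), IsTopologicalBasis B ∧ #B ≤ max #τ ℵ₀ := by
  classical
  let W : (Σ F : Finset τ, Set (F → Bool)) → Set K := fun p =>
    (φ '' {ω | p.1.restrict ω ∈ p.2})ᶜ
  refine ⟨range W, ?_, ?_⟩
  · apply isTopologicalBasis_of_isOpen_of_nhds
    · rintro _ ⟨p, rfl⟩
      have : IsClosed {ω : τ → Bool | p.1.restrict ω ∈ p.2} :=
        (isClosed_discrete p.2).preimage (Finset.continuous_restrict p.1)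
      exact (this.isCompact.image φ.continuous).isClosed.isOpen_compl
    · intro x U hx hU
      obtain ⟨F, hF⟩ := sep ((φ ⁻¹' Uᶜ) ×ˢ (φ ⁻¹' {x}))
        ((hU.isClosed_compl.preimage φ.continuous).prod
          (isClosed_singleton.preimage φ.continuous))
        (by
          rintro ⟨a, b⟩ ⟨ha, hb⟩ e
          simp only at e
          subst e
          have h1 : φ a = x := hb
          exact ha (h1 ▸ hx))
      refine ⟨W ⟨F, F.restrict '' (φ ⁻¹' Uᶜ)⟩, mem_range_self _, ?_, ?_⟩
      · rintro ⟨ω, ⟨a, ha, e⟩, hω⟩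
        obtain ⟨i, hi, hne⟩ := hF (a, ω) ⟨ha, hω⟩
        exact hne (congrFun e ⟨i, hi⟩)
      · intro y hy
        by_contra hyU
        obtain ⟨a, rfl⟩ := hφ y
        exact hy ⟨a, ⟨a, hyU, rfl⟩, rfl⟩
  · refine mk_range_le.trans ?_
    rw [mk_sigma]
    refine (sum_le_mk_mul_iSup _).trans ?_
    have h1 : ⨆ F : Finset τ, #(Set (F → Bool)) ≤ ℵ₀ :=
      ciSup_le' fun F => (lt_aleph0_of_finite _).le
    have h2 : #(Finset τ) ≤ max #τ ℵ₀ := by
      cases finite_or_infinite τ
      · exact le_max_of_le_right (lt_aleph0_of_finite _).le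
      · rw [mk_finset_of_infinite]; exact le_max_left _ _
    exact (mul_le_mul' h2 (h1.trans (le_max_right _ _))).trans
      (mul_eq_self (le_max_right _ _)).le

theorem nhds_cyl (φ : C(τ → Bool, K)) {U : Set K} (hU : IsOpen U) {a : τ → Bool} (ha : φ a ∈ U) :
    ∃ F : Finset τ, ∀ b, (∀ i ∈ F, b i = a i) → φ b ∈ U := by
  obtain ⟨F, hF⟩ := sep ((φ ⁻¹' Uᶜ) ×ˢ {a})
    ((hU.isClosed_compl.preimage φ.continuous).prod isClosed_singleton)
    (by
      rintro ⟨c, b⟩ ⟨hc, hb⟩ e
      simp only at e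
      subst e
      have h1 : c = a := hb
      exact hc (h1 ▸ ha))
  refine ⟨F, fun b hb => ?_⟩
  by_contra h
  obtain ⟨i, hi, hne⟩ := hF (b, a) ⟨h, rfl⟩
  exact hne (hb i hi)

/-- A dyadic space with many essential coordinates contains a large Cantor cube. -/
theorem exists_cube_embedding (φ : C(τ → Bool, K)) {ι : Type u} (hι : ℵ₀ < (#ι).ord.cof)
    (e : ι → τ) (he : Injective e) (hess : ∀ i, e i ∈ ess φ) :
    ∃ j : C(ι → Bool, K), Injective j := by
  classical
  have h : ∀ i, ∃ (ω : τ → Bool) (U V : Set K) (F : Finset τ), Disjoint U V ∧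
      ∀ b, (∀ t ∈ F, t ≠ e i → b t = ω t) →
        (b (e i) = true → φ b ∈ U) ∧ (b (e i) = false → φ b ∈ V) := by
    intro i
    obtain ⟨ω, hω⟩ := hess i
    obtain ⟨U, V, Uo, Vo, xU, yV, hUV⟩ := t2_separation hω
    obtain ⟨F, hF⟩ := nhds_cyl φ Uo xU
    obtain ⟨G, hG⟩ := nhds_cyl φ Vo yV
    refine ⟨ω, U, V, F ∪ G, hUV, fun b hb => ⟨fun h => hF b fun t ht => ?_,
      fun h => hG b fun t ht => ?_⟩⟩
    · by_cases hti : t = e i
      · subst hti; simp [h]
      · rw [hb t (Finset.mem_union_left _ ht) hti]; simp [update_of_ne hti]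
    · by_cases hti : t = e i
      · subst hti; simp [h]
      · rw [hb t (Finset.mem_union_right _ ht) hti]; simp [update_of_ne hti]
  choose ω U V F hUV hF using h
  let P : ι → Finset (τ ⊕ τ) := fun i =>
    (((F i).filter fun t => ω i t = true).image Sum.inl) ∪ {Sum.inr (e i)}
  let N : ι → Finset (τ ⊕ τ) := fun i =>
    (((F i).filter fun t => ω i t = false).image Sum.inl) ∪ ((F i).erase (e i)).image Sum.inr
  obtain ⟨A, hA, hPN⟩ := caliber hι P N (by
    intro i
    rw [Finset.disjoint_left]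
    rintro (t | t) h1 h2
    · simp [P, N] at h1 h2
      rw [h1.2] at h2
      exact absurd h2.2 (by simp)
    · simp [P, N] at h1 h2
      exact h2.1 h1)
  obtain ⟨s⟩ : Nonempty (ι ≃ A) := Cardinal.eq.1 hA.symm
  let ψ : (ι → Bool) → τ → Bool := fun ε t =>
    if h : ∃ k, e (s k) = t then ε h.choose
    else decide (∃ i ∈ A, t ∈ F i ∧ ω i t = true)
  have hψc : Continuous ψ := by
    refine continuous_pi fun t => ?_
    simp only [ψ]
    split_ifs
    · exact continuous_apply _
    · exact continuous_const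
  have hψ1 : ∀ ε k, ψ ε (e (s k)) = ε k := by
    intro ε k
    have h : ∃ k', e (s k') = e (s k) := ⟨k, rfl⟩
    simp only [ψ, dif_pos h]
    rw [s.injective (Subtype.val_injective (he h.choose_spec))]
  have hψ2 : ∀ ε k, ∀ t ∈ F (s k), t ≠ e (s k) → ψ ε t = ω (s k) t := by
    intro ε k t ht hne
    have h : ¬ ∃ k', e (s k') = t := by
      rintro ⟨k', rfl⟩
      have hd := Finset.disjoint_left.1 (hPN _ (s k').2 _ (s k).2)
      refine @hd (Sum.inr (e (s k'))) ?_ ?_
      · simp [P]
      · simp [N, ht, hne]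
    simp only [ψ, dif_neg h]
    cases hω : ω (s k) t
    · rw [decide_eq_false_iff_not]
      rintro ⟨i, hi, h1, h2⟩
      have hd := Finset.disjoint_left.1 (hPN _ hi _ (s k).2)
      refine @hd (Sum.inl t) ?_ ?_
      · simp [P, h1, h2]
      · simp [N, ht, hω]
    · rw [decide_eq_true_iff]
      exact ⟨s k, (s k).2, ht, hω⟩
  refine ⟨φ.comp ⟨ψ, hψc⟩, fun a b hab => ?_⟩
  have hab' : φ (ψ a) = φ (ψ b) := hab
  ext k
  have ha := hF (s k) (ψ a) (hψ2 a k)
  have hb := hF (s k) (ψ b) (hψ2 b k)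
  rw [hψ1] at ha hb
  cases h1 : a k <;> cases h2 : b k
  · rfl
  · exact (Set.disjoint_left.1 (hUV (s k)) (hb.1 h2) (hab' ▸ ha.2 h1)).elim
  · exact (Set.disjoint_left.1 (hUV (s k)) (ha.1 h1) (hab' ▸ hb.2 h2)).elim
  · rfl

theorem milutin_cube (φ : C(τ → Bool, K)) (hs : Surjective φ)
    (A : C(τ → Bool, ℝ) →L[ℝ] C(K, ℝ))
    (hA : ∀ f, 0 ≤ f → 0 ≤ A f) (hφ : ∀ g : C(K, ℝ), A (g.comp φ) = g) {ι : Type u}
    (hι : ℵ₀ < #ι)
    (hw : IsLeast {c | ∃ B : Set (Set K), IsTopologicalBasis B ∧ #B = c} #ι)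
    (h : ℵ₀ < (#ι).ord.cof ∨ ∃ j : C(ι → Bool, K), Injective j) :
    PosCompl K (ι → Bool) ∧ PosCompl (ι → Bool) K := by
  obtain ⟨⟨B, hB, hBc⟩, hmin⟩ := hw
  constructor
  · have h1 : #(ess φ) ≤ #ι := (mk_ess_le φ B hB).trans (max_le hBc.le hι.le)
    obtain ⟨e⟩ := (Cardinal.le_def _ _).1 h1
    exact posCompl_trans (posCompl_ess φ A hA hφ) (posCompl_cube_of_embedding e e.injective)
  · have : ∃ j : C(ι → Bool, K), Injective j := by
      refine h.elim (fun h => ?_) id
      obtain ⟨B', hB', hc⟩ := exists_basis_of_surjective (φ.comp (extend0 (ess φ))) (by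
        intro x
        obtain ⟨ω, rfl⟩ := hs x
        exact ⟨fun i => ω i, extend0_ess φ ω⟩)
      have h1 : #ι ≤ max #(ess φ) ℵ₀ := (hmin ⟨B', hB', rfl⟩).trans hc
      have h2 : #ι ≤ #(ess φ) := by
        rcases le_max_iff.1 h1 with h3 | h3
        · exact h3
        · exact absurd h3 (not_le.2 hι)
      obtain ⟨e⟩ := (Cardinal.le_def _ _).1 h2
      exact exists_cube_embedding φ h (fun i => e i)
        (Subtype.val_injective.comp e.injective) fun i => (e i).2
    obtain ⟨j, hj⟩ := this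
    exact posCompl_cube j hj

end Pool.Agent.Lib.PM42
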