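import Mathlib
import Pool.Agent.Lib.PM42.Dyadic
import Pool.Agent.Lib.PM42.Delta

namespace Pool.Agent.Lib.PM42

open Function Filter Topology Set Cardinal TopologicalSpace Pool.Agent.Lib.MP_cf3d36_an

universe u

theorem dense_cube (S : Type u) : ∃ D : Set C(S → Bool, ℝ), Dense D ∧ #D ≤ max #S ℵ₀ := by
  classical
  let W : (Σ F : Finset S, ((F → Bool) → ℚ)) → C(S → Bool, ℝ) := fun p =>
    ⟨fun ω => (p.2 (p.1.restrict ω) : ℝ),
      (continuous_of_discreteTopology (f := fun s : p.1 → Bool => (p.2 s : ℝ))).comp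
        (Finset.continuous_restrict p.1)⟩
  refine ⟨range W, ?_, ?_⟩
  · rw [Metric.dense_iff]
    intro f ε hε
    obtain ⟨F, hF⟩ := approx f (half_pos hε)
    have h : ∀ s : F → Bool, ∃ q : ℚ,
        |f (fun i => if h : i ∈ F then s ⟨i, h⟩ else false) - q| < ε / 2 := fun s =>
      exists_rat_near _ (half_pos hε)
    choose q hq using h
    refine ⟨W ⟨F, q⟩, ?_, mem_range_self _⟩
    rw [Metric.mem_ball, ContinuousMap.dist_lt_iff hε]
    intro ω
    have h1 := hq (F.restrict ω)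
    have h2 := hF ω (fun i => if h : i ∈ F then F.restrict ω ⟨i, h⟩ else false)
      fun i hi => by simp [hi]
    rw [Real.dist_eq]
    have h3 : W ⟨F, q⟩ ω = q (F.restrict ω) := rfl
    rw [h3]
    rw [abs_lt] at *
    constructor <;> linarith [h1.1, h1.2, h2.1, h2.2]
  · refine mk_range_le.trans ?_
    rw [mk_sigma]
    refine (sum_le_mk_mul_iSup _).trans ?_
    have h1 : ⨆ F : Finset S, #((F → Bool) → ℚ) ≤ ℵ₀ := ciSup_le' fun F => mk_le_aleph0
    have h2 : #(Finset S) ≤ max #S ℵ₀ := by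
      cases finite_or_infinite S
      · exact le_max_of_le_right (lt_aleph0_of_finite _).le
      · rw [mk_finset_of_infinite]; exact le_max_left _ _
    exact (mul_le_mul' h2 (h1.trans (le_max_right _ _))).trans
      (mul_eq_self (le_max_right _ _)).le

theorem mk_le_of_separated {X ι : Type u} [MetricSpace X] {D : Set X} (hD : Dense D) (x : ι → X)
    {δ : ℝ} (hδ : 0 < δ) (hx : ∀ i j, i ≠ j → δ ≤ dist (x i) (x j)) : #ι ≤ #D := by
  have h : ∀ i, ∃ d : D, dist (x i) d < δ / 2 := fun i => by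
    obtain ⟨d, hd, h⟩ := hD.exists_dist_lt (x i) (half_pos hδ)
    exact ⟨⟨d, hd⟩, h⟩
  choose d hd using h
  refine mk_le_of_injective (f := d) fun i j hij => ?_
  by_contra hne
  have h1 := hx i j hne
  have h2 := dist_triangle_right (x i) (x j) (d i)
  have h3 := hd i
  have h4 := hd j
  rw [← hij] at h4
  linarith

/-- Coordinate function. -/
noncomputable def coord {ι : Type*} (i : ι) : C(ι → Bool, ℝ) :=
  ⟨fun ω => if ω i then 1 else 0,
    (continuous_of_discreteTopology (f := fun b : Bool => if b then (1 : ℝ) else 0)).comp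
      (continuous_apply i)⟩

theorem norm_coord {ι : Type*} (i : ι) : ‖coord i‖ ≤ 1 := by
  rw [ContinuousMap.norm_le _ zero_le_one]
  intro ω
  simp only [coord, ContinuousMap.coe_mk]
  split_ifs <;> simp

variable {τ K ι : Type u} [TopologicalSpace K] [CompactSpace K] [T2Space K]

theorem norm_le_of_surj (φ : C(τ → Bool, K)) (hs : Surjective φ) (g : C(K, ℝ)) {c : ℝ}
    (hc : 0 ≤ c) (h : ∀ ω, |g (φ ω)| ≤ c) : ‖g‖ ≤ c := by
  rw [ContinuousMap.norm_le _ hc]
  intro x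
  obtain ⟨ω, rfl⟩ := hs x
  exact h ω

theorem eval_le (T : C(ι → Bool, ℝ) ≃L[ℝ] C(K, ℝ)) (g : C(K, ℝ)) (ω : ι → Bool) :
    T.symm g ω ≤ (‖(T.symm : C(K, ℝ) →L[ℝ] C(ι → Bool, ℝ))‖ + 1) * ‖g‖ := by
  have h1 := (T.symm g).norm_coe_le_norm ω
  have h2 := (T.symm : C(K, ℝ) →L[ℝ] C(ι → Bool, ℝ)).le_opNorm g
  have h3 := le_abs_self (T.symm g ω)
  have h4 := norm_nonneg g
  simp only [Real.norm_eq_abs, ContinuousLinearEquiv.coe_coe] at h1 h2
  linarith

theorem weight_of_iso (φ : C(τ → Bool, K)) (hs : Surjective φ) (hι : ℵ₀ < #ι)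
    (T : C(ι → Bool, ℝ) ≃L[ℝ] C(K, ℝ)) :
    IsLeast {c | ∃ B : Set (Set K), IsTopologicalBasis B ∧ #B = c} #ι := by
  classical
  have hlow : ∀ B : Set (Set K), IsTopologicalBasis B → #ι ≤ #B := by
    intro B hB
    obtain ⟨D, hD, hDc⟩ := dense_cube (ess φ)
    set φ' := φ.comp (extend0 (ess φ)) with hφ'
    have hs' : Surjective φ' := by
      intro x
      obtain ⟨ω, rfl⟩ := hs x
      exact ⟨fun i => ω i, extend0_ess φ ω⟩
    set C := ‖(T.symm : C(K, ℝ) →L[ℝ] C(ι → Bool, ℝ))‖ + 1 with hC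
    have hC0 : 0 < C := by positivity
    have h1 := mk_le_of_separated hD (fun i => (T (coord i)).comp φ') (inv_pos.2 hC0) (by
      intro i j hij
      have h2 := norm_le_of_surj φ' hs' (T (coord i) - T (coord j))
        (c := dist ((T (coord i)).comp φ') ((T (coord j)).comp φ')) dist_nonneg
        (fun ω => ContinuousMap.dist_apply_le_dist (f := (T (coord i)).comp φ')
          (g := (T (coord j)).comp φ') ω)
      have h3 := eval_le T (T (coord i) - T (coord j)) fun k => decide (k = i)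
      rw [← map_sub, T.symm_apply_apply, map_sub] at h3
      have h4 : (coord i - coord j : C(ι → Bool, ℝ)) (fun k => decide (k = i)) = 1 := by
        simp [coord, hij.symm]
      rw [h4] at h3
      rw [inv_le_iff_one_le_mul₀' hC0]
      exact h3.trans (mul_le_mul_of_nonneg_left h2 hC0.le))
    have h5 : #ι ≤ max #B ℵ₀ :=
      h1.trans (hDc.trans (max_le (mk_ess_le φ B hB) (le_max_right _ _)))
    rcases le_max_iff.1 h5 with h | h
    · exact h
    · exact absurd h (not_le.2 hι)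
  obtain ⟨D, hD, hDc⟩ := dense_cube ι
  have hB : IsTopologicalBasis (range fun d : D => {x | 1 / 2 < T d x}) := by
    apply isTopologicalBasis_of_isOpen_of_nhds
    · rintro _ ⟨d, rfl⟩
      exact isOpen_lt continuous_const (T d).continuous
    · intro x U hx hU
      obtain ⟨g, h0, h1, -⟩ := exists_continuous_zero_one_of_isClosed hU.isClosed_compl
        (isClosed_singleton (x := x)) (by simpa using hx)
      have hd : Dense (T '' D) := T.surjective.denseRange.dense_image T.continuous hD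
      obtain ⟨_, ⟨d, hd, rfl⟩, h⟩ := hd.exists_dist_lt g (show (0 : ℝ) < 1 / 2 by norm_num)
      have h2 : ∀ y, |g y - T d y| < 1 / 2 := fun y =>
        (ContinuousMap.dist_apply_le_dist y).trans_lt h
      refine ⟨_, ⟨⟨d, hd⟩, rfl⟩, ?_, fun y hy => ?_⟩
      · have h3 := h2 x
        have h4 : g x = 1 := h1 rfl
        rw [h4, abs_lt] at h3
        show 1 / 2 < T d x
        linarith [h3.2]
      · by_contra hyU
        have h3 := h2 y
        have h4 : g y = 0 := h0 hyU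
        have h5 : 1 / 2 < T d y := hy
        rw [h4, abs_lt] at h3
        linarith [h3.1]
  refine ⟨⟨_, hB, le_antisymm ?_ (hlow _ hB)⟩, ?_⟩
  · exact mk_range_le.trans (hDc.trans (max_le le_rfl hι.le))
  · rintro _ ⟨B, hB, rfl⟩
    exact hlow B hB

theorem embed_of_petals (φ : C(τ → Bool, K)) (ω : τ → Bool) (F D : ι → Set τ)
    (α β : ι → τ → Bool) (hFD : ∀ i k, i ≠ k → ∀ t ∈ F i, t ∉ D k)
    (hαβ : ∀ i, ∀ t ∈ F i, t ∉ D i → α i t = ω t ∧ β i t = ω t)
    (hsep : ∀ i a b, (∀ t ∈ F i, a t = α i t) → (∀ t ∈ F i, b t = β i t) → φ a ≠ φ b) :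
    ∃ j : C(ι → Bool, K), Injective j := by
  classical
  let ψ : (ι → Bool) → τ → Bool := fun ε t =>
    if h : ∃ k, t ∈ D k then (if ε h.choose then α h.choose t else β h.choose t) else ω t
  have hψc : Continuous ψ := by
    refine continuous_pi fun t => ?_
    by_cases h : ∃ k, t ∈ D k
    · simp only [ψ, dif_pos h]
      exact (continuous_of_discreteTopology
        (f := fun b : Bool => if b then α h.choose t else β h.choose t)).comp
          (continuous_apply _)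
    · simp only [ψ, dif_neg h]
      exact continuous_const
  have hψ : ∀ ε i, ∀ t ∈ F i, ψ ε t = if ε i then α i t else β i t := by
    intro ε i t ht
    by_cases h : ∃ k, t ∈ D k
    · have : h.choose = i := by
        by_contra hne
        exact hFD i _ (Ne.symm hne) t ht h.choose_spec
      simp only [ψ, dif_pos h, this]
    · have h1 := hαβ i t ht fun hc => h ⟨i, hc⟩
      simp only [ψ, dif_neg h, h1.1, h1.2, ite_self]
  refine ⟨φ.comp ⟨ψ, hψc⟩, fun a b hab => ?_⟩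
  have hab' : φ (ψ a) = φ (ψ b) := hab
  ext k
  have ha := hψ a k
  have hb := hψ b k
  cases h1 : a k <;> cases h2 : b k
  · rfl
  · rw [h1] at ha; rw [h2] at hb
    exact (hsep k _ _ hb ha hab'.symm).elim
  · rw [h1] at ha; rw [h2] at hb
    exact (hsep k _ _ ha hb hab').elim
  · rfl

theorem cube_of_iso (φ : C(τ → Bool, K)) (hs : Surjective φ) (hι : ℵ₀ < #ι)
    (hcof : ¬ ℵ₀ < (#ι).ord.cof) (T : C(ι → Bool, ℝ) ≃L[ℝ] C(K, ℝ)) :
    ∃ j : C(ι → Bool, K), Injective j := by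
  classical
  obtain ⟨l, hl, hmono, hunb⟩ := exists_blocks hι hcof
  obtain ⟨e⟩ : Nonempty ((Σ n : ℕ, (l n).out) ↪ ι) := by
    rw [← Cardinal.le_def, mk_sigma]
    refine (sum_le_sum _ (fun _ => #ι) fun n => by simpa using (hl n).2.2.le).trans ?_
    simpa using (mul_eq_right hι.le hι.le aleph0_ne_zero).le
  set C := ‖(T.symm : C(K, ℝ) →L[ℝ] C(ι → Bool, ℝ))‖ + 1 with hC
  have hC0 : 0 < C := by positivity
  set ε : ℝ := 1 / (7 * C) with hε
  have hε0 : 0 < ε := by positivity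
  let g : (Σ n : ℕ, (l n).out) → C(K, ℝ) := fun p => T (coord (e p))
  choose F hF using fun p => approx ((g p).comp φ) hε0
  simp only [ContinuousMap.comp_apply] at hF
  have hblock : ∀ n, ∃ (Δ : Finset τ) (A : Set (l n).out), l n ≤ #A ∧
      (∀ i ∈ A, ∀ j ∈ A, i ≠ j → ∀ t ∈ F ⟨n, i⟩, t ∈ F ⟨n, j⟩ → t ∈ Δ) ∧
      ∀ i ∈ A, ∀ j ∈ A, ∀ ω : τ → Bool,
        (∃ a b : τ → Bool, (∀ t ∈ Δ, a t = ω t ∧ b t = ω t) ∧
          2 * ε < g ⟨n, i⟩ (φ a) - g ⟨n, i⟩ (φ b)) ∨
        ∀ k ∈ A, |g ⟨n, j⟩ (φ ω) - g ⟨n, k⟩ (φ ω)| ≤ 5 * ε := by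
    intro n
    obtain ⟨Δ, A, h1, h2⟩ := delta_system (hl n).1 (hl n).2.1 (fun i : (l n).out => F ⟨n, i⟩)
      (mk_out _).ge
    let base : (Δ → Bool) → τ → Bool := fun s t => if h : t ∈ Δ then s ⟨t, h⟩ else false
    obtain ⟨A', h3, h4, h5⟩ := pigeon (hl n).1 (hl n).2.1
      (fun (i : (l n).out) (s : Δ → Bool) => (⌊g ⟨n, i⟩ (φ (base s)) / ε⌋,
        decide (∃ a b : τ → Bool, (∀ t ∈ Δ, a t = base s t ∧ b t = base s t) ∧
          2 * ε < g ⟨n, i⟩ (φ a) - g ⟨n, i⟩ (φ b)))) A h1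
    refine ⟨Δ, A', h4, fun i hi j hj => h2 i (h3 hi) j (h3 hj), fun i hi j hj ω => ?_⟩
    have hb : ∀ t ∈ Δ, base (Δ.restrict ω) t = ω t := fun t ht => by simp [base, ht]
    by_cases hc : ∃ a b : τ → Bool,
        (∀ t ∈ Δ, a t = base (Δ.restrict ω) t ∧ b t = base (Δ.restrict ω) t) ∧
          2 * ε < g ⟨n, i⟩ (φ a) - g ⟨n, i⟩ (φ b)
    · left
      obtain ⟨a, b, h6, h7⟩ := hc
      exact ⟨a, b, fun t ht => by rw [← hb t ht]; exact h6 t ht, h7⟩
    · right
      have key : ∀ k ∈ A', |g ⟨n, k⟩ (φ ω) - g ⟨n, k⟩ (φ (base (Δ.restrict ω)))| ≤ 2 * ε := by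
        intro k hk
        have h6 := congrArg Prod.snd (congrFun (h5 i hi k hk) (Δ.restrict ω))
        simp only [decide_eq_decide] at h6
        rw [h6] at hc
        push Not at hc
        have h7 := hc ω (base (Δ.restrict ω)) fun t ht => ⟨(hb t ht).symm, rfl⟩
        have h8 := hc (base (Δ.restrict ω)) ω fun t ht => ⟨rfl, (hb t ht).symm⟩
        rw [abs_le]
        constructor <;> linarith
      intro k hk
      have h6 := congrArg Prod.fst (congrFun (h5 j hj k hk) (Δ.restrict ω))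
      have h7 := Int.abs_sub_lt_one_of_floor_eq_floor h6
      rw [← sub_div, abs_div, abs_of_pos hε0, div_lt_one hε0, abs_lt] at h7
      have h8 := abs_le.1 (key j hj)
      have h9 := abs_le.1 (key k hk)
      rw [abs_le]
      constructor <;> linarith [h7.1, h7.2, h8.1, h8.2, h9.1, h9.2]
  choose Δ A hA hΔ hpat using hblock
  have hpair : ∀ n, ∃ i ∈ A n, ∃ j ∈ A n, i ≠ j := fun n => by
    have : 1 < #(A n) := (one_lt_aleph0.trans (hl n).2.1).trans_le (hA n)
    rw [one_lt_iff_nontrivial, nontrivial_coe_sort] at this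
    exact this
  choose x hx y hy hxy using hpair
  let ω0 : ι → Bool := fun k => decide (∃ n, k = e ⟨n, x n⟩)
  have hstar : ∃ ω : τ → Bool, ∃ᶠ n in atTop,
      5 * ε < |g ⟨n, x n⟩ (φ ω) - g ⟨n, y n⟩ (φ ω)| := by
    by_contra hcon
    simp only [not_exists, not_frequently, not_lt] at hcon
    let v : ℕ → C(τ → Bool, ℝ) := fun n =>
      ⟨fun ω => max (|g ⟨n, x n⟩ (φ ω) - g ⟨n, y n⟩ (φ ω)| - 5 * ε) 0, by fun_prop⟩
    have hg : ∀ p z, |g p z| ≤ ‖(T : C(ι → Bool, ℝ) →L[ℝ] C(K, ℝ))‖ := by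
      intro p z
      have h1 := (g p).norm_coe_le_norm z
      have h2 := (T : C(ι → Bool, ℝ) →L[ℝ] C(K, ℝ)).le_opNorm (coord (e p))
      have h3 := mul_le_mul_of_nonneg_left (norm_coord (e p))
        (norm_nonneg (T : C(ι → Bool, ℝ) →L[ℝ] C(K, ℝ)))
      simp only [Real.norm_eq_abs, ContinuousLinearEquiv.coe_coe] at h1 h2
      simp only [g] at h1 ⊢
      linarith
    obtain ⟨w, ⟨h, h1, h2⟩, h3⟩ := mazur v (2 * ‖(T : C(ι → Bool, ℝ) →L[ℝ] C(K, ℝ))‖)
      (by
        intro n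
        rw [ContinuousMap.norm_le _ (by positivity)]
        intro ω
        have h1 := hg ⟨n, x n⟩ (φ ω)
        have h2 := hg ⟨n, y n⟩ (φ ω)
        have h3 := abs_sub (g ⟨n, x n⟩ (φ ω)) (g ⟨n, y n⟩ (φ ω))
        simp only [v, ContinuousMap.coe_mk, Real.norm_eq_abs]
        rw [abs_of_nonneg (le_max_right _ _)]
        apply max_le _ (by positivity)
        linarith)
      (by
        intro ω
        refine tendsto_const_nhds.congr' ?_
        filter_upwards [hcon ω] with n hn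
        simp only [v, ContinuousMap.coe_mk]
        exact (max_eq_right (by linarith)).symm)
      {w | ∃ h : C(K, ℝ), T.symm h ω0 = 1 ∧ ∀ ω, |h (φ ω)| ≤ 5 * ε + w ω}
      (by
        rintro w1 ⟨h1, a1, b1⟩ w2 ⟨h2, a2, b2⟩ r s hr hs hrs
        refine ⟨r • h1 + s • h2, by simp [a1, a2, hrs], fun ω => ?_⟩
        simp only [ContinuousMap.add_apply, ContinuousMap.smul_apply, smul_eq_mul]
        have c1 := mul_le_mul_of_nonneg_left (b1 ω) hr
        have c2 := mul_le_mul_of_nonneg_left (b2 ω) hs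
        have c3 := abs_add_le (r * h1 (φ ω)) (s * h2 (φ ω))
        rw [abs_mul, abs_mul, abs_of_nonneg hr, abs_of_nonneg hs] at c3
        have c4 : r * (5 * ε) + s * (5 * ε) = 5 * ε := by rw [← add_mul, hrs, one_mul]
        linarith)
      (by
        intro n
        refine ⟨g ⟨n, x n⟩ - g ⟨n, y n⟩, ?_, fun ω => ?_⟩
        · simp only [g, map_sub, ContinuousLinearEquiv.symm_apply_apply, ContinuousMap.sub_apply]
          have h1 : ω0 (e ⟨n, x n⟩) = true := by simp [ω0]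
          have h2 : ω0 (e ⟨n, y n⟩) = false := by
            simp only [ω0, decide_eq_false_iff_not]
            rintro ⟨m, hm⟩
            have h3 := e.injective hm
            have h4 : n = m := congrArg Sigma.fst h3
            subst h4
            exact hxy n (eq_of_heq (Sigma.mk.inj h3).2).symm
          simp [coord, h1, h2]
        · simp only [v, ContinuousMap.coe_mk, ContinuousMap.sub_apply]
          linarith [le_max_left (|g ⟨n, x n⟩ (φ ω) - g ⟨n, y n⟩ (φ ω)| - 5 * ε) 0])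
      hε0
    have h4 := norm_le_of_surj φ hs h (c := 6 * ε) (by positivity) fun ω => by
      linarith [h2 ω, h3 ω]
    have h5 := eval_le T h ω0
    rw [h1, ← hC] at h5
    have h6 : C * (6 * ε) = 6 / 7 := by rw [hε]; field_simp
    have h7 := mul_le_mul_of_nonneg_left h4 hC0.le
    linarith
  obtain ⟨ω, hω⟩ := hstar
  let Bad : ℕ → Set τ := fun n =>
    (⋃ m : ULift.{u} ℕ, (Δ m.down : Set τ)) ∪
      ⋃ p : {p : Σ m : ℕ, (l m).out // p.1 < n}, (F p.1 : Set τ)
  have hBad : ∀ n, #(Bad n) < l n := by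
    intro n
    have hr := (hl n).1
    refine (mk_union_le _ _).trans_lt (add_lt_of_lt hr.aleph0_le ?_ ?_)
    · exact (card_iUnion_lt_iff_forall_of_isRegular hr (by simpa using (hl n).2.1)).2 fun m =>
        (Δ m.down).finite_toSet.lt_aleph0.trans (hl n).2.1
    · refine (card_iUnion_lt_iff_forall_of_isRegular hr ?_).2 fun p =>
        (F p.1).finite_toSet.lt_aleph0.trans (hl n).2.1
      have h1 : #{p : Σ m : ℕ, (l m).out // p.1 < n} ≤ #(Σ m : Fin n, (l m).out) :=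
        mk_le_of_surjective (f := fun q : Σ m : Fin n, (l m).out =>
          (⟨⟨q.1, q.2⟩, q.1.2⟩ : {p : Σ m : ℕ, (l m).out // p.1 < n}))
          (by rintro ⟨⟨m, i⟩, hm⟩; exact ⟨⟨⟨m, hm⟩, i⟩, rfl⟩)
      refine h1.trans_lt ?_
      rw [mk_sigma]
      refine sum_lt_lift_of_isRegular hr ?_ fun m => by simpa using hmono m.2
      simpa using hr.nat_lt n
  let G : ∀ n, Set (l n).out := fun n => {i ∈ A n | ∀ t ∈ F ⟨n, i⟩, t ∉ Δ n → t ∉ Bad n}
  have hG : ∀ n, l n ≤ #(G n) := by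
    intro n
    by_contra hcon
    have h1 : ∀ i : (A n \ G n : Set _), ∃ t : Bad n, t.1 ∈ F ⟨n, i⟩ ∧ t.1 ∉ Δ n := by
      rintro ⟨i, hi, hiG⟩
      by_contra hc
      push Not at hc
      exact hiG ⟨hi, fun t ht h1 h2 => h1 (hc ⟨t, h2⟩ ht)⟩
    choose c hc using h1
    have h2 : #(A n \ G n : Set _) ≤ #(Bad n) := mk_le_of_injective (f := c) fun i j hij => by
      by_contra hne
      refine (hc i).2 (hΔ n i i.2.1 j j.2.1 (fun h => hne (Subtype.ext h)) _ (hc i).1 ?_)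
      rw [hij]; exact (hc j).1
    have h3 := (mk_le_mk_of_subset (subset_sdiff_union (A n) (G n))).trans_lt
      ((mk_union_le _ _).trans_lt (add_lt_of_lt (hl n).1.aleph0_le (h2.trans_lt (hBad n))
        (not_le.1 hcon)))
    exact absurd (hA n) (not_le.2 h3)
  let P : Set (Σ n : ℕ, (l n).out) :=
    {p | 5 * ε < |g ⟨p.1, x p.1⟩ (φ ω) - g ⟨p.1, y p.1⟩ (φ ω)| ∧ p.2 ∈ G p.1}
  obtain ⟨s⟩ : Nonempty (ι ↪ P) := by
    rw [← Cardinal.le_def]
    by_contra hcon
    obtain ⟨n, hn⟩ := hunb _ (not_le.1 hcon)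
    obtain ⟨m, hm, h⟩ := frequently_atTop.1 hω n
    have h1 : #(G m) ≤ #P := mk_le_of_injective
      (f := fun i : G m => (⟨⟨m, i.1⟩, h, i.2⟩ : P)) fun i j hij => by
        have h2 : (⟨m, i.1⟩ : Σ n : ℕ, (l n).out) = ⟨m, j.1⟩ := congrArg Subtype.val hij
        exact Subtype.ext (eq_of_heq (Sigma.mk.inj h2).2)
    exact absurd (hn.trans_le ((hmono.monotone hm).trans ((hG m).trans h1))) (lt_irrefl _)
  have hab : ∀ p : P, ∃ a b : τ → Bool, (∀ t ∈ Δ p.1.1, a t = ω t ∧ b t = ω t) ∧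
      2 * ε < g p.1 (φ a) - g p.1 (φ b) := by
    rintro ⟨⟨n, i⟩, h1, h2⟩
    rcases hpat n i h2.1 (x n) (hx n) ω with h | h
    · exact h
    · exact absurd (h (y n) (hy n)) (not_le.2 h1)
  choose α β hαβ hgap using hab
  refine embed_of_petals φ ω (fun k => F (s k).1) (fun k => F (s k).1 \ Δ (s k).1.1)
    (fun k => α (s k)) (fun k => β (s k)) ?_ ?_ ?_
  · intro i k hik t hti htk
    have hne : (s i).1 ≠ (s k).1 := fun h => hik (s.injective (Subtype.ext h))
    have hti' : t ∈ F (s i).1 := hti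
    have htk' : t ∈ F (s k).1 ∧ t ∉ Δ (s k).1.1 := htk
    clear hti htk
    generalize s i = p at hti' hne
    generalize s k = q at htk' hne
    obtain ⟨⟨n, a⟩, ha0, ha⟩ := p
    obtain ⟨⟨m, b⟩, hb0, hb⟩ := q
    rename' hti' => hti, htk' => htk
    have hq : t ∉ Bad m := hb.2 t htk.1 htk.2
    rcases lt_trichotomy n m with h | h | h
    · exact hq (Or.inr (mem_iUnion.2 ⟨⟨⟨n, a⟩, h⟩, hti⟩))
    · subst h
      exact htk.2 (hΔ n a ha.1 b hb.1 (fun h => hne (by subst h; rfl)) t hti htk.1)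
    · refine ha.2 t hti (fun hc => hq (Or.inl (mem_iUnion.2 ⟨⟨n⟩, hc⟩))) ?_
      exact Or.inr (mem_iUnion.2 ⟨⟨⟨m, b⟩, h⟩, htk.1⟩)
  · intro i t ht hD
    refine hαβ (s i) t ?_
    by_contra hc
    exact hD ⟨ht, hc⟩
  · intro i a b ha hb hφ
    have h1 := abs_lt.1 (hF (s i).1 a (α (s i)) ha)
    have h2 := abs_lt.1 (hF (s i).1 b (β (s i)) hb)
    have h3 := hgap (s i)
    rw [hφ] at h1
    linarith [h1.1, h2.2]

theorem posIso_iff_of_milutin {L τ' : Type u} [TopologicalSpace L] [CompactSpace L] [T2Space L]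
    (φ : C(τ → Bool, K)) (hs : Surjective φ) (A : C(τ → Bool, ℝ) →L[ℝ] C(K, ℝ))
    (hA : ∀ f, 0 ≤ f → 0 ≤ A f) (hφ : ∀ g : C(K, ℝ), A (g.comp φ) = g)
    (φ' : C(τ' → Bool, L)) (hs' : Surjective φ') (A' : C(τ' → Bool, ℝ) →L[ℝ] C(L, ℝ))
    (hA' : ∀ f, 0 ≤ f → 0 ≤ A' f) (hφ' : ∀ g : C(L, ℝ), A' (g.comp φ') = g)
    (hι : ℵ₀ < #ι)
    (hw : IsLeast {c | ∃ B : Set (Set K), IsTopologicalBasis B ∧ #B = c} #ι)
    (h : ℵ₀ < (#ι).ord.cof ∨ ∃ j : C(ι → Bool, K), Injective j) :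
    List.TFAE [IsLeast {c | ∃ B : Set (Set L), IsTopologicalBasis B ∧ #B = c} #ι ∧
        (ℵ₀ < (#ι).ord.cof ∨ ∃ j : C(ι → Bool, L), Injective j),
      Nonempty (C(K, ℝ) ≃L[ℝ] C(L, ℝ)), PosIso C(K, ℝ) C(L, ℝ), PosIso C(L, ℝ) C(K, ℝ)] := by
  have : Infinite ι := by rw [← aleph0_le_mk_iff]; exact hι.le
  obtain ⟨h1, h2⟩ := milutin_cube φ hs A hA hφ hι hw h
  have h0 : PosCompl (ι → Bool) (ι → Bool) :=
    posCompl_retract (ContinuousMap.id _) (ContinuousMap.id _) fun _ => rfl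
  tfae_have 1 → 3 := fun ⟨a, b⟩ => by
    obtain ⟨h3, h4⟩ := milutin_cube φ' hs' A' hA' hφ' hι a b
    exact posIso_of_cube h1 h2 h3 h4
  tfae_have 1 → 4 := fun ⟨a, b⟩ => by
    obtain ⟨h3, h4⟩ := milutin_cube φ' hs' A' hA' hφ' hι a b
    exact posIso_of_cube h3 h4 h1 h2
  tfae_have 3 → 2 := fun ⟨T, _⟩ => ⟨T⟩
  tfae_have 4 → 2 := fun ⟨T, _⟩ => ⟨T.symm⟩
  tfae_have 2 → 1 := fun ⟨T⟩ => by
    obtain ⟨S, -⟩ := posIso_of_cube h0 h0 h1 h2
    refine ⟨weight_of_iso φ' hs' hι (S.trans T), ?_⟩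
    by_cases hc : ℵ₀ < (#ι).ord.cof
    · exact Or.inl hc
    · exact Or.inr (cube_of_iso φ' hs' hι hc (S.trans T))
  tfae_finish

end Pool.Agent.Lib.PM42
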