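import Mathlib

namespace Pool.Agent.Lib.PM42.Word

open Set Function Filter Topology Cardinal

universe u

variable {K L X : Type u}

/-- The relation given by a positive operator. -/
def Rel [TopologicalSpace K] [TopologicalSpace L] (T : C(K, ℝ) → C(L, ℝ)) (m : ℝ) (y : L)
    (x : K) : Prop := ∀ f : C(K, ℝ), 0 ≤ f → m * f x ≤ T f y

theorem rel_onto [TopologicalSpace K] [CompactSpace K] [TopologicalSpace L] [CompactSpace L]
    (T : C(K, ℝ) ≃L[ℝ] C(L, ℝ)) (hT : ∀ f, 0 ≤ f → 0 ≤ T f) :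
    ∃ m, 0 < m ∧ ∀ x, ∃ y, Rel T m y x := by
  obtain ⟨c, hc, h⟩ := (T.symm : C(L, ℝ) →L[ℝ] C(K, ℝ)).bound
  refine ⟨1 / (c + 1), by positivity, fun x => ?_⟩
  have hmono : ∀ f g : C(K, ℝ), f ≤ g → ∀ y, T f y ≤ T g y := fun f g hfg y => by
    have := hT (g - f) (sub_nonneg.2 hfg) y
    rw [map_sub] at this
    simpa using this
  have : Nonempty {f : C(K, ℝ) // 0 ≤ f ∧ f x = 1} := ⟨⟨1, fun _ => zero_le_one, rfl⟩⟩
  obtain ⟨y, hy⟩ := IsCompact.nonempty_iInter_of_directed_nonempty_isCompact_isClosed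
    (fun f : {f : C(K, ℝ) // 0 ≤ f ∧ f x = 1} => {y | 1 / (c + 1) ≤ T f y})
    (fun f g => ⟨⟨f.1 ⊓ g.1, le_inf f.2.1 g.2.1, by simp [f.2.2, g.2.2]⟩,
      fun y hy => le_trans hy (hmono _ _ inf_le_left y),
      fun y hy => le_trans hy (hmono _ _ inf_le_right y)⟩)
    (fun f => by
      by_contra hne
      have h1 : ‖T f‖ ≤ 1 / (c + 1) := (ContinuousMap.norm_le _ (by positivity)).2 fun y => by
        rw [Real.norm_of_nonneg (show 0 ≤ T f y from hT f f.2.1 y)]
        exact (not_le.1 fun hy => hne ⟨y, hy⟩).le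
      have h2 := h (T f)
      simp only [ContinuousLinearEquiv.coe_coe, ContinuousLinearEquiv.symm_apply_apply] at h2
      have h3 := f.1.norm_coe_le_norm x
      rw [f.2.2, norm_one] at h3
      have h4 : c * (1 / (c + 1)) < 1 := by
        rw [mul_one_div, div_lt_one (by positivity)]; linarith
      have := mul_le_mul_of_nonneg_left h1 hc.le
      linarith)
    (fun f => (isClosed_le continuous_const (T f).continuous).isCompact)
    (fun f => isClosed_le continuous_const (T f).continuous)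
  refine ⟨y, fun f hf => ?_⟩
  rcases (show 0 ≤ f x from hf x).eq_or_lt with h0 | h0
  · rw [← h0, mul_zero]
    exact hT f hf y
  · have h1 := mem_iInter.1 hy ⟨(f x)⁻¹ • f, smul_nonneg (inv_nonneg.2 h0.le) hf, by
      simp [h0.ne']⟩
    simp only [map_smul, mem_ofPred_eq, ContinuousMap.smul_apply, smul_eq_mul] at h1
    rwa [inv_mul_eq_div, le_div_iff₀ h0] at h1

theorem rel_fiber [TopologicalSpace K] [CompactSpace K] [T2Space K] [TopologicalSpace L]
    [CompactSpace L] (T : C(K, ℝ) ≃L[ℝ] C(L, ℝ)) (hT : ∀ f, 0 ≤ f → 0 ≤ T f) {m : ℝ}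
    (hm : 0 < m) : ∃ N : ℕ, ∀ y, #{x | Rel T m y x} ≤ N := by
  classical
  obtain ⟨N, hN⟩ := exists_nat_ge (‖T 1‖ / m)
  refine ⟨N, fun y => card_le_of fun s => ?_⟩
  obtain ⟨U, hU, hd⟩ := (s.finite_toSet.image Subtype.val).t2_separation
  choose f h0 h1 h2 using fun x : K => exists_continuous_zero_one_of_isClosed
    (hU x).2.isClosed_compl (isClosed_singleton (x := x))
    (disjoint_singleton_right.2 (not_not.2 (hU x).1))
  have hle : ∑ x ∈ s, f x ≤ 1 := ContinuousMap.le_def.2 fun t => by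
    rw [ContinuousMap.sum_apply]
    by_cases h : ∃ x ∈ s, t ∈ U x
    · obtain ⟨x, hx, ht⟩ := h
      rw [Finset.sum_eq_single_of_mem x hx fun x' hx' hne => h0 x' fun ht' =>
        disjoint_left.1 (hd (mem_image_of_mem _ hx') (mem_image_of_mem _ hx)
          fun h => hne (Subtype.ext h)) ht' ht]
      exact (h2 _ _).2
    · push Not at h
      exact (Finset.sum_eq_zero fun x hx => h0 _ (h x hx)).trans_le zero_le_one
  have h3 := ContinuousMap.le_def.1 (hT _ (sub_nonneg.2 hle)) y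
  simp only [map_sub, map_sum, ContinuousMap.sub_apply, ContinuousMap.sum_apply,
    ContinuousMap.zero_apply, sub_nonneg] at h3
  have h4 : (s.card : ℝ) * m ≤ ∑ x ∈ s, T (f x) y := by
    rw [← nsmul_eq_mul]
    refine Finset.card_nsmul_le_sum _ _ _ fun x _ => ?_
    have := x.2 (f x) fun t => (h2 _ t).1
    rwa [h1 x rfl, Pi.one_apply, mul_one] at this
  have h5 := (le_abs_self _).trans ((T 1).norm_coe_le_norm y)
  rw [div_le_iff₀ hm] at hN
  exact_mod_cast le_of_mul_le_mul_right ((h4.trans h3).trans (h5.trans hN)) hm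

/-- Points all of whose neighbourhoods meet `Y` in at least `c` points. -/
def Der [TopologicalSpace X] (c : Cardinal.{u}) (Y : Set X) : Set X :=
  {x | ∀ U ∈ 𝓝 x, c ≤ #(U ∩ Y : Set X)}

/-- Iterated derivative along a word of cardinals. -/
def DD (X : Type u) [TopologicalSpace X] : List Cardinal.{u} → Set X
  | [] => univ
  | c :: u => Der c (DD X u)

theorem der_rel [TopologicalSpace K] [TopologicalSpace L] [CompactSpace L] (R : L → K → Prop)
    (hR : IsClosed {q : L × K | R q.1 q.2}) {N : ℕ} (hN : ∀ y, #{x | R y x} ≤ N)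
    {c : Cardinal.{u}} (hc : ℵ₀ ≤ c) {Y : Set K} {Z : Set L} (h : ∀ x ∈ Y, ∃ y ∈ Z, R y x) :
    ∀ x ∈ Der c Y, ∃ y ∈ Der c Z, R y x := by
  intro x hx
  by_contra hcon
  push Not at hcon
  obtain ⟨U, hU, h1⟩ := (isCompact_univ (X := L)).induction_on
    (p := fun s => ∃ U ∈ 𝓝 x, #{x' | x' ∈ U ∧ ∃ y ∈ s ∩ Z, R y x'} < c)
    ⟨univ, univ_mem, by simpa using aleph0_pos.trans_le hc⟩
    (fun s t hst ⟨U, hU, h1⟩ => ⟨U, hU, lt_of_le_of_lt (mk_le_mk_of_subset (by
      rintro x' ⟨h2, y, h3, h4⟩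
      exact ⟨h2, y, ⟨hst h3.1, h3.2⟩, h4⟩)) h1⟩)
    (fun s t ⟨U, hU, h1⟩ ⟨V, hV, h2⟩ => ⟨U ∩ V, inter_mem hU hV, lt_of_le_of_lt
      (le_trans (mk_le_mk_of_subset (by
        rintro x' ⟨h3, y, h4, h5⟩
        exact h4.1.imp (fun h6 => ⟨h3.1, y, ⟨h6, h4.2⟩, h5⟩) fun h6 => ⟨h3.2, y, ⟨h6, h4.2⟩, h5⟩))
        (mk_union_le _ _)) (add_lt_of_lt hc h1 h2)⟩)
    fun y _ => by
      by_cases hy : R y x
      · have h1 : y ∉ Der c Z := fun h2 => hcon y h2 hy
        simp only [Der, mem_ofPred_eq, not_forall, not_le] at h1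
        obtain ⟨V, hV, h1⟩ := h1
        refine ⟨V, mem_nhdsWithin_of_mem_nhds hV, univ, univ_mem, lt_of_le_of_lt
          ((mk_le_mk_of_subset (t := ⋃ y ∈ V ∩ Z, {x | R y x}) (by
            rintro x' ⟨_, y, h2, h3⟩
            exact mem_biUnion h2 h3)).trans ((mk_biUnion_le _ _).trans
            (mul_le_mul_right (ciSup_le' fun y : (V ∩ Z : Set L) => hN y) _)))
          (mul_lt_of_lt hc h1 (natCast_lt_aleph0.trans_le hc))⟩
      · obtain ⟨V, hV, U, hU, h1⟩ := mem_nhds_prod_iff.1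
          (hR.isOpen_compl.mem_nhds (show (y, x) ∈ _ from hy))
        refine ⟨V, mem_nhdsWithin_of_mem_nhds hV, U, hU, ?_⟩
        rw [eq_empty_of_forall_notMem (s := {x' | x' ∈ U ∧ ∃ y ∈ V ∩ Z, R y x'})
          fun x' ⟨h2, y', h3, h4⟩ => h1 (mk_mem_prod h3.1 h2) h4]
        simpa using aleph0_pos.trans_le hc
  refine absurd (hx U hU) (not_le.2 (lt_of_le_of_lt (mk_le_mk_of_subset ?_) h1))
  rintro x' ⟨h2, h3⟩
  obtain ⟨y, h4, h5⟩ := h x' h3
  exact ⟨h2, y, ⟨mem_univ _, h4⟩, h5⟩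

/-- A positive isomorphism respects the iterated derivatives. -/
theorem dd_of_pos [TopologicalSpace K] [CompactSpace K] [T2Space K] [TopologicalSpace L]
    [CompactSpace L] (T : C(K, ℝ) ≃L[ℝ] C(L, ℝ)) (hT : ∀ f, 0 ≤ f → 0 ≤ T f)
    (u : List Cardinal.{u}) (hu : ∀ c ∈ u, ℵ₀ ≤ c) (h : (DD K u).Nonempty) :
    (DD L u).Nonempty := by
  obtain ⟨m, hm, h1⟩ := rel_onto T hT
  obtain ⟨N, hN⟩ := rel_fiber T hT hm
  have hR : IsClosed {q : L × K | Rel T m q.1 q.2} := by
    simp only [Rel, ofPred_forall]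
    exact isClosed_iInter fun f => isClosed_iInter fun _ => isClosed_le (by fun_prop) (by fun_prop)
  have : ∀ x ∈ DD K u, ∃ y ∈ DD L u, Rel T m y x := by
    clear h
    induction u with
    | nil => exact fun x _ => (h1 x).imp fun y hy => ⟨mem_univ _, hy⟩
    | cons c u ih =>
      exact der_rel _ hR hN (hu c List.mem_cons_self)
        (ih fun c hc => hu c (List.mem_cons_of_mem _ hc))
  obtain ⟨x, hx⟩ := h
  obtain ⟨y, hy, -⟩ := this x hx
  exact ⟨y, hy⟩

theorem der_nonempty [TopologicalSpace X] [CompactSpace X] {c : Cardinal.{u}} (hc : ℵ₀ ≤ c)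
    {Y : Set X} (h : c ≤ #Y) : (Der c Y).Nonempty := by
  obtain ⟨x, -⟩ : Y.Nonempty := by
    rw [← nonempty_coe_sort, ← mk_ne_zero_iff]
    exact (aleph0_pos.trans_le (hc.trans h)).ne'
  by_contra hne
  refine absurd h (not_le.2 ?_)
  have := (isCompact_univ (X := X)).induction_on (p := fun s => #(s ∩ Y : Set X) < c)
    (by simpa using aleph0_pos.trans_le hc)
    (fun s t hst h1 => lt_of_le_of_lt (mk_le_mk_of_subset (inter_subset_inter_left _ hst)) h1)
    (fun s t h1 h2 => by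
      rw [union_inter_distrib_right]
      exact lt_of_le_of_lt (mk_union_le _ _) (add_lt_of_lt hc h1 h2))
    fun y _ => by
      have h1 : y ∉ Der c Y := fun h2 => hne ⟨y, h2⟩
      simp only [Der, mem_ofPred_eq, not_forall, not_le] at h1
      obtain ⟨V, hV, h1⟩ := h1
      exact ⟨V, mem_nhdsWithin_of_mem_nhds hV, h1⟩
  rwa [univ_inter] at this

theorem dd_embed [TopologicalSpace K] [TopologicalSpace L] {j : K → L} (hj : IsOpenEmbedding j)
    (u : List Cardinal.{u}) : j ⁻¹' DD L u = DD K u := by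
  induction u with
  | nil => rfl
  | cons c u ih =>
    ext x
    have key : ∀ U : Set K, #(U ∩ DD K u : Set K) = #(j '' U ∩ DD L u : Set L) := fun U => by
      rw [← ih, ← image_inter_preimage, mk_image_eq hj.injective]
    constructor
    · intro hx U hU
      rw [key]
      exact hx _ (hj.isOpenMap.image_mem_nhds hU)
    · intro hx U hU
      refine (hx _ (hj.continuous.continuousAt.preimage_mem_nhds hU)).trans ?_
      rw [key]
      exact mk_le_mk_of_subset (inter_subset_inter_left _ (image_preimage_subset _ _))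

end Pool.Agent.Lib.PM42.Word
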