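import Mathlib

namespace Pool.Agent.Lib.PM42.Word

open Set Function Filter Topology Cardinal

universe u

variable {K L X I : Type u}

/-- A parent map of finite depth that describes the continuous functions. -/
structure IsTr [TopologicalSpace K] (p : K → K) (r : K) (d : K → ℕ) (n : ℕ) : Prop where
  root : p r = r
  lt : ∀ x, x ≠ r → d (p x) < d x
  le : ∀ x, d x ≤ n
  cont : ∀ f : K → ℝ, Continuous f ↔ Tendsto (fun x => f x - f (p x)) cofinite (𝓝 0)

theorem depth_ind {p : K → K} {r : K} {d : K → ℕ} (lt : ∀ x, x ≠ r → d (p x) < d x)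
    {P : K → Prop} (h0 : P r) (h : ∀ x, x ≠ r → P (p x) → P x) (x : K) : P x := by
  induction hx : d x using Nat.strong_induction_on generalizing x with
  | _ k ih =>
    rcases eq_or_ne x r with rfl | hxr
    · exact h0
    · exact h x hxr (ih _ (hx ▸ lt x hxr) _ rfl)

open Classical in
/-- Summation along the branch. -/
noncomputable def sol {p : K → K} {r : K} {d : K → ℕ} (lt : ∀ x, x ≠ r → d (p x) < d x)
    (b : ℝ) (c : K → ℝ) (x : K) : ℝ :=
  if _h : x = r then b else sol lt b c (p x) + c x
termination_by d x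
decreasing_by exact lt x _h

theorem ex_sol {p : K → K} {r : K} {d : K → ℕ} (lt : ∀ x, x ≠ r → d (p x) < d x)
    (b : ℝ) (c : K → ℝ) : ∃ g : K → ℝ, g r = b ∧ ∀ x, x ≠ r → g x - g (p x) = c x :=
  ⟨sol lt b c, by rw [sol, dif_pos rfl], fun x hx => by
    rw [sol, dif_neg hx, add_sub_cancel_left]⟩

theorem sol_le {p : K → K} {r : K} {d : K → ℕ} (lt : ∀ x, x ≠ r → d (p x) < d x)
    {g : K → ℝ} {M : ℝ} (hM : 0 ≤ M) (h : ∀ x, x ≠ r → |g x - g (p x)| ≤ M) (x : K) :
    |g x - g r| ≤ d x * M := by
  refine depth_ind lt (P := fun x => |g x - g r| ≤ d x * M) ?_ (fun x hx ih => ?_) x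
  · rw [sub_self, abs_zero]; positivity
  · have h1 : (d (p x) : ℝ) + 1 ≤ d x := by exact_mod_cast lt x hx
    have h2 := mul_le_mul_of_nonneg_right h1 hM
    linarith [abs_sub_le (g x) (g (p x)) (g r), h x hx]

theorem IsTr.ex [TopologicalSpace K] {p : K → K} {r : K} {d : K → ℕ} {n : ℕ} (h : IsTr p r d n)
    (b : ℝ) {c : K → ℝ} (hc : Tendsto c cofinite (𝓝 0)) :
    ∃ g : C(K, ℝ), g r = b ∧ ∀ x, x ≠ r → g x - g (p x) = c x := by
  obtain ⟨g, h1, h2⟩ := ex_sol h.lt b c
  exact ⟨⟨g, (h.cont g).2 (hc.congr' ((eventually_cofinite_ne r).mono fun x hx =>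
    (h2 x hx).symm))⟩, h1, h2⟩

/-- The positive isomorphism given by an order preserving bijection. -/
theorem pos_iso [TopologicalSpace K] [CompactSpace K] [TopologicalSpace L] [CompactSpace L]
    {p : K → K} {r : K} {d : K → ℕ} {n : ℕ} (hK : IsTr p r d n) {q : L → L} {ρ : L} {δ : L → ℕ}
    {m : ℕ} (hL : IsTr q ρ δ m) (e : L ≃ K) (he : e ρ = r) (u : K)
    (h : ∀ t, t ≠ ρ → p (e t) = r ∨ p (e t) = u ∨
      ∃ s, Relation.ReflTransGen (fun a b => b = q a) (q t) s ∧ p (e t) = e s) :
    ∃ T : C(K, ℝ) ≃L[ℝ] C(L, ℝ), ∀ f, 0 ≤ f → 0 ≤ T f := by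
  let a : L → ℝ := fun t => (1 / 2) ^ δ t
  have ha : ∀ t, 0 < a t := fun t => by positivity
  have ha1 : ∀ t, a t ≤ 1 := fun t => pow_le_one₀ (by norm_num) (by norm_num)
  have ha2 : ∀ t, t ≠ ρ → 2 * a t ≤ a (q t) := fun t ht => by
    have := pow_le_pow_of_le_one (show (0 : ℝ) ≤ 1 / 2 by norm_num) (by norm_num) (hL.lt t ht)
    rw [Nat.succ_eq_add_one, pow_succ] at this
    simp only [a]
    linarith
  have ha3 : ∀ t, (a t)⁻¹ ≤ 2 ^ m := fun t => by
    simp only [a, one_div, inv_pow, inv_inv]
    exact pow_le_pow_right₀ one_le_two (hL.le t)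
  choose T h1 h2 using fun f : C(K, ℝ) => hL.ex (f r + f u)
    (c := fun t => a t * (f (e t) - f (p (e t))))
    (squeeze_zero_norm (fun t => by
      rw [norm_mul, Real.norm_of_nonneg (ha t).le]
      exact mul_le_of_le_one_left (norm_nonneg _) (ha1 t))
      (tendsto_norm_zero.comp (((hK.cont f).1 f.continuous).comp e.injective.tendsto_cofinite)))
  have uniq : ∀ g g' : C(L, ℝ), g ρ = g' ρ → (∀ t, t ≠ ρ → g t - g (q t) = g' t - g' (q t)) →
      g = g' := fun g g' h3 h4 => ContinuousMap.ext <| depth_ind hL.lt h3 fun t ht ih => by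
    linarith [h4 t ht]
  let T₀ : C(K, ℝ) →ₗ[ℝ] C(L, ℝ) :=
    { toFun := T
      map_add' f g := uniq _ _ (by simp only [h1, ContinuousMap.add_apply]; ring) fun t ht => by
        have := h2 f t ht
        have := h2 g t ht
        simp only [h2 _ t ht, ContinuousMap.add_apply]
        linarith
      map_smul' c f := uniq _ _
        (by simp only [h1, ContinuousMap.smul_apply, smul_eq_mul, RingHom.id_apply]; ring)
        fun t ht => by
          simp only [h2 _ t ht, ContinuousMap.smul_apply, smul_eq_mul, RingHom.id_apply,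
            ← mul_sub]
          ring }
  have hpos : ∀ f : C(K, ℝ), 0 ≤ f → ∀ t, ∀ v, (v = r ∨ v = u ∨
      ∃ s, Relation.ReflTransGen (fun a b => b = q a) t s ∧ v = e s) → a t * f v ≤ T f t := by
    intro f hf
    have hf' : ∀ x, 0 ≤ f x := hf
    refine depth_ind hL.lt (fun v hv => ?_) fun t ht ih v hv => ?_
    · have : f v ≤ f r + f u := by
        rcases hv with rfl | rfl | ⟨s, hs, rfl⟩
        · linarith [hf' u]
        · linarith [hf' r]
        · have : s = ρ := by
            induction hs with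
            | refl => rfl
            | tail _ h3 ih => rw [h3, ih, hL.root]
          rw [this, he]
          linarith [hf' u]
      rw [h1]
      exact (mul_le_of_le_one_left (hf' v) (ha1 _)).trans this
    · have h3 := h2 f t ht
      have h4 : ∀ v, a (q t) * f v ≤ T f (q t) → 2 * (a t * f v) ≤ T f (q t) := fun v hv => by
        linarith [mul_le_mul_of_nonneg_right (ha2 t ht) (hf' v)]
      have h5 := h4 _ (ih _ (h t ht))
      have h6 := mul_nonneg (ha t).le (hf' (e t))
      have h7 := mul_nonneg (ha t).le (hf' (p (e t)))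
      rw [mul_sub] at h3
      by_cases hv' : v = e t
      · rw [hv']; linarith
      · have h8 := h4 v (ih v (hv.imp_right fun h => h.imp_right fun ⟨s, hs, hvs⟩ => by
          rcases hs.cases_head with rfl | ⟨_, rfl, hs⟩
          · exact absurd hvs hv'
          · exact ⟨s, hs, hvs⟩))
        linarith
  have hpos' : ∀ f : C(K, ℝ), 0 ≤ f → 0 ≤ T₀ f := fun f hf => ContinuousMap.le_def.2 fun t =>
    (mul_nonneg (ha t).le (hf r)).trans (hpos f hf t r (Or.inl rfl))
  have hbd : ∀ f, ‖T₀ f‖ ≤ ‖T₀ 1‖ * ‖f‖ := fun f =>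
    (ContinuousMap.norm_le _ (by positivity)).2 fun t => by
      have h3 := ContinuousMap.le_def.1 (hpos' (‖f‖ • 1 - f) (ContinuousMap.le_def.2 fun x => by
        simpa using (le_abs_self _).trans (f.norm_coe_le_norm x))) t
      have h4 := ContinuousMap.le_def.1 (hpos' (‖f‖ • 1 + f) (ContinuousMap.le_def.2 fun x => by
        have := (neg_le_abs _).trans (f.norm_coe_le_norm x)
        simp only [ContinuousMap.zero_apply, ContinuousMap.add_apply, ContinuousMap.smul_apply,
          ContinuousMap.one_apply, smul_eq_mul]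
        linarith)) t
      have h5 := mul_le_mul_of_nonneg_left ((le_abs_self _).trans ((T₀ 1).norm_coe_le_norm t))
        (norm_nonneg f)
      simp only [map_sub, map_add, map_smul, ContinuousMap.zero_apply, ContinuousMap.sub_apply,
        ContinuousMap.add_apply, ContinuousMap.smul_apply, smul_eq_mul] at h3 h4
      exact abs_le.2 ⟨by linarith, by linarith⟩
  have hne : ∀ x, x ≠ r → e.symm x ≠ ρ := fun x hx h => hx (by rw [← he, ← h, e.apply_symm_apply])
  refine ⟨ContinuousLinearEquiv.ofBijective (T₀.mkContinuous _ hbd)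
    (LinearMap.ker_eq_bot'.2 fun f hf => ?_) (LinearMap.range_eq_top.2 fun g => ?_), hpos'⟩
  · replace hf : T f = 0 := hf
    have h3 : ∀ x, f x = f r := depth_ind hK.lt rfl fun x hx ih => by
      have := h2 f _ (hne x hx)
      rw [hf, e.apply_symm_apply] at this
      have := (mul_eq_zero.1 (this.symm.trans (by simp))).resolve_left (ha _).ne'
      linarith
    have h4 := h1 f
    rw [hf, h3 u, ContinuousMap.zero_apply] at h4
    ext x
    rw [h3 x, ContinuousMap.zero_apply]
    linarith
  · obtain ⟨f, h3, h4⟩ := hK.ex 0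
      (c := fun x => (a (e.symm x))⁻¹ * (g (e.symm x) - g (q (e.symm x))))
      (squeeze_zero_norm (a := fun x => 2 ^ m * |g (e.symm x) - g (q (e.symm x))|) (fun x => by
        rw [norm_mul, Real.norm_of_nonneg (inv_nonneg.2 (ha _).le)]
        exact mul_le_mul_of_nonneg_right (ha3 _) (norm_nonneg _))
        (by simpa using (tendsto_norm_zero.comp (((hL.cont g).1 g.continuous).comp
          e.symm.injective.tendsto_cofinite)).const_mul (2 ^ m)))
    refine ⟨f + ContinuousMap.const K ((g ρ - f u) / 2), uniq (T _) _ ?_ fun t ht => ?_⟩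
    · simp only [h1, ContinuousMap.add_apply, ContinuousMap.const_apply, h3]
      ring
    · simp only [h2 _ t ht, ContinuousMap.add_apply, add_sub_add_right_eq_sub,
        ContinuousMap.const_apply]
      rw [h4 _ fun h => ht (e.injective (h.trans he.symm)), e.symm_apply_apply,
        mul_inv_cancel_left₀ (ha t).ne']

/-- The cardinality of the tree is an isomorphic invariant. -/
theorem mk_le_of_inj [TopologicalSpace K] [CompactSpace K] [TopologicalSpace L] [CompactSpace L]
    {p : K → K} {r : K} {d : K → ℕ} {n : ℕ} (hK : IsTr p r d n) (T : C(K, ℝ) →L[ℝ] C(L, ℝ))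
    (hT : Injective T) : #K ≤ #L * ℵ₀ + 1 := by
  classical
  obtain ⟨c, hc, hb⟩ := T.bound
  choose χ h1 h2 using fun v : K => hK.ex 0 (c := Pi.single v 1)
    (tendsto_const_nhds.congr' ((eventually_cofinite_ne v).mono fun x hx => by simp [hx]))
  have hcount : ∀ y, (support fun v => |T (χ v) y|).Countable := fun y => by
    refine (summable_of_sum_le (c := c * n) (fun v => abs_nonneg _) fun s => ?_).countable_support
    set g := ∑ v ∈ s, (SignType.sign (T (χ v) y) : ℝ) • χ v with hg
    have h3 : ‖g‖ ≤ n := (ContinuousMap.norm_le _ n.cast_nonneg).2 fun x => by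
      have h4 := sol_le hK.lt (g := g) zero_le_one (fun x hx => by
        simp only [hg, ContinuousMap.sum_apply, ContinuousMap.smul_apply, smul_eq_mul,
          ← Finset.sum_sub_distrib, ← mul_sub, h2 _ x hx, Pi.single_apply, mul_ite, mul_one,
          mul_zero, Finset.sum_ite_eq]
        split_ifs
        · rcases SignType.trichotomy (SignType.sign (T (χ x) y)) with h | h | h <;> simp [h]
        · simp) x
      have h5 : g r = 0 := by simp [hg, ContinuousMap.sum_apply, h1]
      rw [h5, sub_zero, mul_one] at h4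
      exact h4.trans (by exact_mod_cast hK.le x)
    have h4 := (le_abs_self _).trans (((T g).norm_coe_le_norm y).trans ((hb g).trans
      (mul_le_mul_of_nonneg_left h3 hc.le)))
    simpa only [hg, map_sum, map_smul, ContinuousMap.sum_apply, ContinuousMap.smul_apply,
      smul_eq_mul, sign_mul_self] using h4
  have hcov : (univ : Set K) ⊆ insert r (⋃ y, support fun v => |T (χ v) y|) := fun v _ => by
    by_contra hv
    simp only [mem_insert_iff, mem_iUnion, mem_support, not_or, not_exists, not_not,
      abs_eq_zero] at hv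
    have h3 : χ v = 0 := hT (by rw [map_zero]; exact ContinuousMap.ext hv.2)
    simpa [h3] using h2 v v hv.1
  rw [← mk_univ]
  exact (mk_le_mk_of_subset hcov).trans (mk_insert_le.trans (add_le_add_left ((mk_iUnion_le _).trans
    (mul_le_mul_right (ciSup_le' fun y => (hcount y).le_aleph0) _)) _))

end Pool.Agent.Lib.PM42.Word
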