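import Mathlib

namespace Pool.Agent.Lib.PM42.Word

universe u

/-- One-point compactification of the sum of `I` copies of `X`. -/
noncomputable def step (I X : Type u) [TopologicalSpace X] [CompactSpace X] [T2Space X] :
    CompHaus.{u} := CompHaus.of (OnePoint (WithDiscreteTopology I × X))

/-- Iterated one-point compactification along a list of index sets. -/
noncomputable def S : List (Type u) → CompHaus.{u}
  | [] => CompHaus.of PUnit
  | I :: w => step I (S w)

end Pool.Agent.Lib.PM42.Word
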