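import Mathlib
import Pool.Agent.Lib.PM42.WordDef
import Pool.Agent.Lib.PM42.WordA
import Pool.Agent.Lib.PM42.WordB

namespace Pool.Agent.Lib.PM42.Word

open Set Function Filter Topology Cardinal OnePoint

universe u

section
variable {J X : Type u}

open Classical in
/-- Parent map of the one-point compactification of a sum of trees. -/
noncomputable def consP (P : J → X → X) (r l : X) (z : OnePoint (J × X)) : OnePoint (J × X) :=
  z.elim ∞ fun y => if y.2 = r ∨ y.2 = l then ∞ else ((y.1, P y.1 y.2) : J × X)

/-- Depth in the one-point compactification of a sum of trees. -/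
def consD (D : J → X → ℕ) (z : OnePoint (J × X)) : ℕ := z.elim 0 fun y => D y.1 y.2 + 1

theorem consP_top {P : J → X → X} {r l x : X} (j : J) (h : x = r ∨ x = l) :
    consP P r l ((j, x) : J × X) = ∞ := if_pos h

theorem consP_in {P : J → X → X} {r l x : X} (j : J) (h : x ≠ r) (h' : x ≠ l) :
    consP P r l ((j, x) : J × X) = ((j, P j x) : J × X) := if_neg (not_or.2 ⟨h, h'⟩)

theorem IsTr.cons [TopologicalSpace J] [DiscreteTopology J] [TopologicalSpace X] [CompactSpace X]
    {P : J → X → X} {r : X} {D : J → X → ℕ} {n : ℕ} (h : ∀ j, IsTr (P j) r (D j) n) (l : X) :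
    IsTr (consP P r l) ∞ (consD D) (n + 1) where
  root := rfl
  lt z hz := by
    induction z using OnePoint.rec with
    | infty => exact absurd rfl hz
    | coe y =>
      obtain ⟨j, x⟩ := y
      by_cases hx : x = r ∨ x = l
      · rw [consP_top j hx]
        exact Nat.succ_pos _
      · rw [consP_in j (not_or.1 hx).1 (not_or.1 hx).2]
        exact Nat.succ_lt_succ ((h j).lt x (not_or.1 hx).1)
  le z := by
    induction z using OnePoint.rec with
    | infty => exact Nat.zero_le _
    | coe y => exact Nat.succ_le_succ ((h y.1).le y.2)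
  cont f := by
    have loc : ∀ j, (Continuous fun x => f ((j, x) : J × X)) ↔ Tendsto
        (fun x => f ((j, x) : J × X) - f (consP P r l ((j, x) : J × X))) cofinite (𝓝 0) := by
      intro j
      rw [(h j).cont]
      refine tendsto_congr' ?_
      filter_upwards [eventually_cofinite_ne r, eventually_cofinite_ne l] with x h1 h2
      rw [consP_in j h1 h2]
    rw [OnePoint.continuous_iff, continuous_prod_of_discrete_left]
    constructor
    · rintro ⟨h1, h2⟩
      refine Metric.tendsto_nhds.2 fun ε hε => ?_
      obtain ⟨t, ⟨-, ht⟩, h3⟩ := hasBasis_coclosedCompact.mem_iff.1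
        (Metric.tendsto_nhds.1 h1 _ (half_pos hε))
      refine ((isCompact_iff_finite.1 (ht.image continuous_fst)).biUnion fun j _ =>
        (Metric.tendsto_nhds.1 ((loc j).1 (h2 j)) ε hε).image
          fun x => (((j, x) : J × X) : OnePoint (J × X))).subset fun z hz => ?_
      induction z using OnePoint.rec with
      | infty => exact absurd (by simpa [consP] using hε) hz
      | coe y =>
        obtain ⟨j, x⟩ := y
        refine mem_biUnion (t := fun j => _ '' _) (show j ∈ _ from ?_) ⟨x, hz, rfl⟩
        by_contra hj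
        have h4 : ∀ x, dist (f ((j, x) : J × X)) (f ∞) < ε / 2 := fun x =>
          h3 fun hx => hj ⟨_, hx, rfl⟩
        refine hz ?_
        change dist _ _ < _
        rw [dist_zero_right, ← dist_eq_norm]
        by_cases hx : x = r ∨ x = l
        · rw [consP_top j hx]
          linarith [h4 x]
        · rw [consP_in j (not_or.1 hx).1 (not_or.1 hx).2]
          linarith [dist_triangle_right (f ((j, x) : J × X)) (f ((j, P j x) : J × X)) (f ∞),
            h4 x, h4 (P j x)]
    · intro hF
      refine ⟨Metric.tendsto_nhds.2 fun ε hε => ?_, fun j => (loc j).2 (hF.comp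
        (Injective.tendsto_cofinite fun x y hxy => (Prod.mk.inj (coe_injective hxy)).2))⟩
      have hη : 0 < ε / (n + 2) := by positivity
      have h1 : {y : J × X | ¬ dist (f y - f (consP P r l y)) 0 < ε / (n + 2)}.Finite :=
        Metric.tendsto_nhds.1 (hF.comp coe_injective.tendsto_cofinite) _ hη
      refine hasBasis_coclosedCompact.mem_iff.2 ⟨(Prod.fst '' _) ×ˢ Set.univ,
        ⟨(isClosed_discrete _).prod isClosed_univ,
        (h1.image Prod.fst).isCompact.prod isCompact_univ⟩, fun ⟨j, x⟩ hy => ?_⟩
      have h2 : ∀ x, |f ((j, x) : J × X) - f (consP P r l ((j, x) : J × X))| < ε / (n + 2) :=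
        fun x => by
          by_contra h3
          exact hy ⟨⟨(j, x), by simpa using h3, rfl⟩, mem_univ _⟩
      have h3 : |f ((j, x) : J × X) - f ∞| ≤ (D j x + 1) * (ε / (n + 2)) := by
        have top : ∀ x, x = r ∨ x = l →
            |f ((j, x) : J × X) - f ∞| ≤ (D j x + 1) * (ε / (n + 2)) := fun x hx => by
          have := h2 x
          rw [consP_top j hx] at this
          exact this.le.trans (le_mul_of_one_le_left hη.le (by simp))
        refine depth_ind (h j).lt (P := fun x => |f ((j, x) : J × X) - f ∞| ≤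
          (D j x + 1) * (ε / (n + 2))) (top r (Or.inl rfl)) (fun x hx ih => ?_) x
        by_cases hl : x = l
        · exact top x (Or.inr hl)
        · have h4 := h2 x
          rw [consP_in j hx hl] at h4
          have h5 : (D j (P j x) : ℝ) + 1 ≤ D j x := by exact_mod_cast (h j).lt x hx
          have h6 := mul_le_mul_of_nonneg_right h5 hη.le
          linarith [abs_sub_le (f ((j, x) : J × X)) (f ((j, P j x) : J × X)) (f ∞)]
      have h4 : (D j x : ℝ) + 1 < n + 2 := by
        have : (D j x : ℝ) ≤ n := by exact_mod_cast (h j).le x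
        linarith
      have h5 := mul_lt_mul_of_pos_right h4 hη
      rw [mul_div_cancel₀ _ (by positivity)] at h5
      exact h3.trans_lt h5

theorem isOpenEmbedding_copy [TopologicalSpace J] [DiscreteTopology J] [TopologicalSpace X]
    (j : J) : IsOpenEmbedding fun x : X => (((j, x) : J × X) : OnePoint (J × X)) :=
  isOpenEmbedding_coe.comp (.of_continuous_injective_isOpenMap (by fun_prop)
    (Prod.mk_right_injective j) fun U hU => by
      rw [← singleton_prod]
      exact (isOpen_discrete _).prod hU)

theorem infty_mem_dd [TopologicalSpace J] [DiscreteTopology J] [Infinite J] [TopologicalSpace X]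
    {u : List Cardinal.{u}} {x : X} (hx : x ∈ DD X u) : ∞ ∈ DD (OnePoint (J × X)) (#J :: u) := by
  intro U hU
  obtain ⟨t, ⟨-, ht⟩, h⟩ := hasBasis_nhds_infty.mem_iff.1 hU
  have h1 := isCompact_iff_finite.1 (ht.image continuous_fst)
  rw [← mk_compl_of_infinite (Prod.fst '' t) (h1.lt_aleph0.trans_le (aleph0_le_mk J))]
  refine mk_le_of_injective (f := fun j => ⟨((j.1, x) : J × X), h (Or.inl ⟨_, fun hj =>
    j.2 ⟨_, hj, rfl⟩, rfl⟩), (dd_embed (isOpenEmbedding_copy j.1) u).ge hx⟩) fun i j hij => ?_
  exact Subtype.ext (Prod.mk.inj (coe_injective (congrArg Subtype.val hij))).1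

theorem dd_cons [TopologicalSpace J] [DiscreteTopology J] [TopologicalSpace X] [CompactSpace X]
    {c : Cardinal.{u}} (hc : ℵ₀ ≤ c) {u : List Cardinal.{u}}
    (h : (DD (OnePoint (J × X)) (c :: u)).Nonempty) :
    (DD X (c :: u)).Nonempty ∨ c ≤ #J ∧ (DD X u).Nonempty := by
  obtain ⟨z, hz⟩ := h
  induction z using OnePoint.rec with
  | coe y => exact Or.inl ⟨y.2, (dd_embed (isOpenEmbedding_copy y.1) _).le hz⟩
  | infty =>
    have h1 : c ≤ #J * #(DD X u) + 1 := by
      refine (hz univ univ_mem).trans ((mk_le_mk_of_subset (t := insert ∞ (range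
        fun y : J × DD X u => (((y.1, y.2.1) : J × X) : OnePoint (J × X)))) fun z hz => ?_).trans
        (mk_insert_le.trans (add_le_add_left (mk_range_le.trans (by simp)) _)))
      induction z using OnePoint.rec with
      | infty => exact Or.inl rfl
      | coe y => exact Or.inr ⟨(y.1, ⟨y.2, (dd_embed (isOpenEmbedding_copy y.1) _).le hz.2⟩), rfl⟩
    have h2 := one_lt_aleph0.trans_le hc
    by_cases h3 : c ≤ #(DD X u)
    · exact Or.inl (der_nonempty hc h3)
    · refine Or.inr ⟨not_lt.1 fun h4 => absurd h1 (not_le.2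
        (add_lt_of_lt hc (mul_lt_of_lt hc h4 (not_le.1 h3)) h2)),
        nonempty_iff_ne_empty.2 fun h4 => ?_⟩
      simp only [h4, mk_eq_zero, mul_zero, zero_add] at h1
      exact absurd h1 (not_le.2 h2)

end

theorem mk_disc (I : Type u) : #(WithDiscreteTopology I) = #I := mk_congr (WithTopology.equiv _ _)

theorem mk_cons (I : Type u) (w : List (Type u)) : #(S (I :: w)) = #I * #(S w) + 1 := by
  change #(Option (WithDiscreteTopology I × S w)) = _
  simp [mk_disc]

/-- The root. -/
def root : ∀ w : List (Type u), S w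
  | [] => PUnit.unit
  | _ :: _ => ∞

/-- The standard parent map. -/
noncomputable def par : ∀ w : List (Type u), S w → S w
  | [] => id
  | _ :: w => consP (fun _ => par w) (root w) (root w)

/-- The standard depth. -/
def dep : ∀ w : List (Type u), S w → ℕ
  | [] => fun _ => 0
  | _ :: w => consD fun _ => dep w

theorem std : ∀ w : List (Type u), IsTr (par w) (root w) (dep w) w.length
  | [] => ⟨rfl, fun _ h => absurd rfl h, fun _ => le_rfl, fun f =>
      iff_of_true (continuous_of_discreteTopology (α := PUnit)) (by simpa [par] using tendsto_const_nhds)⟩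
  | _ :: w => IsTr.cons (fun _ => std w) _

theorem root_mem : ∀ w : List (Type u), (∀ I ∈ w, Infinite I) →
    root w ∈ DD (S w) (w.map fun I => #I)
  | [], _ => mem_univ _
  | I :: w, h => by
    have := h I List.mem_cons_self
    have : Infinite (WithDiscreteTopology I) := (WithTopology.equiv _ _).infinite_iff.2 this
    rw [List.map_cons, ← mk_disc]
    exact infty_mem_dd (root_mem w fun J hJ => h J (List.mem_cons_of_mem _ hJ))

theorem sub_of_dd : ∀ (w v : List (Type u)), (∀ I ∈ v, Infinite I) →
    (DD (S w) (v.map fun I => #I)).Nonempty → List.SublistForall₂ (fun I J => #I ≤ #J) v w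
  | _, [], _, _ => .nil
  | [], I :: v, hv, ⟨x, hx⟩ => by
    have := hv I List.mem_cons_self
    have h1 := (aleph0_le_mk I).trans ((hx univ univ_mem).trans (mk_set_le _))
    have h2 : #(S.{u} []) = 1 := mk_eq_one PUnit
    exact absurd (h2 ▸ h1) (not_le.2 one_lt_aleph0)
  | J :: w, I :: v, hv, h => by
    have := hv I List.mem_cons_self
    rcases dd_cons (J := WithDiscreteTopology J) (X := S w) (aleph0_le_mk I) h with h | h
    · exact .cons_right (sub_of_dd w (I :: v) hv h)
    · exact .cons (mk_disc J ▸ h.1)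
        (sub_of_dd w v (fun J hJ => hv J (List.mem_cons_of_mem _ hJ)) h.2)

theorem anc_root {K : Type u} {p : K → K} {r : K} {d : K → ℕ} (lt : ∀ x, x ≠ r → d (p x) < d x)
    (x : K) : Relation.ReflTransGen (fun a b => b = p a) x r :=
  depth_ind lt (P := fun x => Relation.ReflTransGen (fun a b => b = p a) x r) .refl
    (fun _ _ ih => .head rfl ih) x

theorem anc_lift {J X : Type u} {p : X → X} {r : X} (hr : p r = r) (j : J) {x y : X}
    (h : Relation.ReflTransGen (fun a b => b = p a) x y) :
    Relation.ReflTransGen (fun a b => b = consP (fun _ => p) r r a)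
      (OnePoint.some (j, x)) (OnePoint.some (j, y)) := by
  induction h with
  | refl => exact .refl
  | @tail b c _ h ih =>
    rcases eq_or_ne b r with rfl | hb
    · rwa [h, hr]
    · exact ih.tail (by rw [h, consP_in j hb hb])

/-- An order preserving injection of the standard trees. -/
theorem ex_embed {v w : List (Type u)} (hw : ∀ J ∈ w, Infinite J)
    (h : List.SublistForall₂ (fun I J => #I ≤ #J) v w) :
    ∃ g : S v → S w, Injective g ∧ g (root v) = root w ∧ ∀ x, x ≠ root v →
      Relation.ReflTransGen (fun a b => b = par w a) (par w (g x)) (g (par v x)) := by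
  classical
  induction h with
  | @nil w => exact ⟨fun _ => root w, fun _ _ _ => rfl, rfl, fun x hx => absurd rfl hx⟩
  | @cons I J v w hIJ _ ih =>
    obtain ⟨g, h1, h2, h3⟩ := ih fun J hJ => hw J (List.mem_cons_of_mem _ hJ)
    rw [← mk_disc I, ← mk_disc J] at hIJ
    obtain ⟨j⟩ := hIJ
    refine ⟨OnePoint.map (Prod.map j g), Option.map_injective (j.injective.prodMap h1), rfl,
      fun z hz => ?_⟩
    induction z using OnePoint.rec with
    | infty => exact absurd rfl hz
    | coe y =>
      obtain ⟨i, x⟩ := y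
      change Relation.ReflTransGen _ (consP (fun _ => par w) _ _ (OnePoint.some (j i, g x)))
        (OnePoint.map (Prod.map j g) (consP (fun _ => par v) _ _ (OnePoint.some (i, x))))
      rcases eq_or_ne x (root v) with rfl | hx
      · rw [consP_top i (Or.inl rfl), consP_top _ (Or.inl h2)]
        exact .refl
      · have hg : g x ≠ root w := fun h => hx (h1 (h.trans h2.symm))
        rw [consP_in i hx hx, consP_in _ hg hg]
        exact anc_lift (std w).root _ (h3 x hx)
  | @cons_right J v w _ ih =>
    obtain ⟨g, h1, h2, h3⟩ := ih fun J hJ => hw J (List.mem_cons_of_mem _ hJ)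
    have := hw J List.mem_cons_self
    obtain ⟨j⟩ : Nonempty (WithDiscreteTopology J) := ⟨.toTopology _ (Classical.arbitrary J)⟩
    let G : S v → OnePoint (WithDiscreteTopology J × S w) := fun x =>
      if x = root v then ∞ else OnePoint.some (j, g x)
    refine ⟨G, fun x y hxy => ?_, if_pos rfl, fun x hx => ?_⟩
    · simp only [G] at hxy
      split_ifs at hxy with hx hy hy
      · rw [hx, hy]
      · exact absurd hxy (infty_ne_coe _)
      · exact absurd hxy (coe_ne_infty _)
      · exact h1 (Prod.mk.inj (coe_injective hxy)).2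
    · by_cases hp : par v x = root v
      · rw [show G (par v x) = ∞ from if_pos hp]
        exact anc_root (std (J :: w)).lt _
      · rw [show G (par v x) = _ from if_neg hp, show G x = _ from if_neg hx]
        have hg : g x ≠ root w := fun h => hx (h1 (h.trans h2.symm))
        change Relation.ReflTransGen _ (consP (fun _ => par w) _ _ (OnePoint.some (j, g x))) _
        rw [consP_in _ hg hg]
        exact anc_lift (std w).root _ (h3 x hx)

theorem mk_pos (w : List (Type u)) : 1 ≤ #(S w) :=
  Cardinal.one_le_iff_ne_zero.2 (mk_ne_zero_iff.2 ⟨root w⟩)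

/-- Many leaves can be attached to one node. -/
theorem ex_fill : ∀ v : List (Type u), (∀ I ∈ v, Infinite I) → v ≠ [] →
    ∃ (p : S v → S v) (d : S v → ℕ) (Λ : Set (S v)) (u : S v), IsTr p (root v) d v.length ∧
      root v ∉ Λ ∧ #Λ = #(S v) ∧ (∀ x ∈ Λ, p x = u) ∧
      ∀ x ∉ Λ, x ≠ root v → p x = par v x ∧ p x ∉ Λ
  | [], _, h => absurd rfl h
  | I :: v, hv, _ => by
    classical
    have := hv I List.mem_cons_self
    have hI := aleph0_le_mk I
    by_cases hc : #(S v) ≤ #I
    · obtain ⟨l, hl⟩ : ∃ l, ∀ x, dep v x ≤ dep v l := by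
        obtain ⟨l, -, hl⟩ := Set.Finite.exists_maximalFor' (dep v) univ
          ((finite_le_nat v.length).subset (by rintro _ ⟨x, -, rfl⟩; exact (std v).le x))
          ⟨root v, mem_univ _⟩
        exact ⟨l, fun x => (le_total _ _).elim id (hl (mem_univ x))⟩
      refine ⟨consP (fun _ => par v) (root v) l, consD fun _ => dep v,
        range fun i : WithDiscreteTopology I => OnePoint.some (i, l), ∞,
        IsTr.cons (fun _ => std v) l, fun ⟨_, h⟩ => coe_ne_infty _ h, ?_, ?_, fun z hz hz' => ?_⟩
      · refine (mk_range_eq _ fun i j hij => (Prod.mk.inj (coe_injective hij)).1).trans ?_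
        rw [mk_cons, mk_disc, mul_eq_left hI hc (Cardinal.one_le_iff_ne_zero.1 (mk_pos v)),
          add_one_eq hI]
      · rintro _ ⟨i, rfl⟩
        exact consP_top i (Or.inr rfl)
      · induction z using OnePoint.rec with
        | infty => exact absurd rfl hz'
        | coe y =>
          obtain ⟨i, x⟩ := y
          have hx : x ≠ l := fun h => hz ⟨i, by rw [h]⟩
          change consP _ _ _ _ = consP (fun _ => par v) _ _ (OnePoint.some (i, x)) ∧ _
          rcases eq_or_ne x (root v) with rfl | hr
          · rw [consP_top i (Or.inl rfl), consP_top i (Or.inl rfl)]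
            exact ⟨rfl, fun ⟨_, h⟩ => coe_ne_infty _ h⟩
          · rw [consP_in i hr hx, consP_in i hr hr]
            refine ⟨rfl, fun ⟨_, h⟩ => ?_⟩
            have h1 := (std v).lt x hr
            rw [← (Prod.mk.inj (coe_injective h)).2] at h1
            exact absurd (hl x) (not_le.2 h1)
    · have hne : v ≠ [] := by
        rintro rfl
        exact hc ((mk_eq_one PUnit).trans_le (one_le_aleph0.trans hI))
      obtain ⟨p, d, Λ, u, h1, h2, h3, h4, h5⟩ :=
        ex_fill v (fun J hJ => hv J (List.mem_cons_of_mem _ hJ)) hne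
      obtain ⟨i₀⟩ : Nonempty (WithDiscreteTopology I) := ⟨.toTopology _ (Classical.arbitrary I)⟩
      refine ⟨consP (fun i => if i = i₀ then p else par v) (root v) (root v),
        consD fun i => if i = i₀ then d else dep v,
        (fun x => OnePoint.some (i₀, x)) '' Λ, OnePoint.some (i₀, u),
        IsTr.cons (fun i => ?_) _, fun ⟨_, _, h⟩ => coe_ne_infty _ h, ?_, ?_, fun z hz hz' => ?_⟩
      · split_ifs
        · exact h1
        · exact std v
      · have h6 := hI.trans (not_le.1 hc).le
        refine (mk_image_eq fun i j hij => (Prod.mk.inj (coe_injective hij)).2).trans ?_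
        rw [mk_cons, h3,
          mul_eq_right h6 (not_le.1 hc).le (aleph0_pos.trans_le hI).ne', add_one_eq h6]
      · rintro _ ⟨x, hx, rfl⟩
        have hr : x ≠ root v := fun h => h2 (h ▸ hx)
        rw [consP_in i₀ hr hr, if_pos rfl, h4 x hx]
      · induction z using OnePoint.rec with
        | infty => exact absurd rfl hz'
        | coe y =>
          obtain ⟨i, x⟩ := y
          change consP _ _ _ _ = consP (fun _ => par v) _ _ (OnePoint.some (i, x)) ∧ _
          rcases eq_or_ne x (root v) with rfl | hr
          · rw [consP_top i (Or.inl rfl), consP_top i (Or.inl rfl)]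
            exact ⟨rfl, fun ⟨_, _, h⟩ => coe_ne_infty _ h⟩
          · rw [consP_in i hr hr, consP_in i hr hr]
            split_ifs with hi
            · have h6 := h5 x (fun hx => hz ⟨x, hx, by rw [hi]⟩) hr
              exact ⟨by rw [h6.1], fun ⟨y, hy, h⟩ =>
                h6.2 ((Prod.mk.inj (coe_injective h)).2 ▸ hy)⟩
            · exact ⟨rfl, fun ⟨y, hy, h⟩ => hi (Prod.mk.inj (coe_injective h)).1.symm⟩

theorem infinite_or (w : List (Type u)) (hw : ∀ I ∈ w, Infinite I) : w = [] ∨ ℵ₀ ≤ #(S w) := by
  cases w with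
  | nil => exact Or.inl rfl
  | cons I w =>
    have := hw I List.mem_cons_self
    rw [mk_cons]
    exact Or.inr ((aleph0_le_mk I).trans ((le_mul_of_one_le_right' (mk_pos w)).trans le_self_add))

theorem mk_le_of_iso {v w : List (Type u)} (hw : ∀ I ∈ w, Infinite I)
    (T : C(S v, ℝ) ≃L[ℝ] C(S w, ℝ)) (h : w ≠ []) : #(S v) ≤ #(S w) := by
  have h1 := (infinite_or w hw).resolve_left h
  have h2 := mk_le_of_inj (std v) (T : C(S v, ℝ) →L[ℝ] C(S w, ℝ)) T.injective
  rwa [mul_eq_left h1 h1 aleph0_ne_zero, add_one_eq h1] at h2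

theorem subsingleton_of_iso {X : Type u} [TopologicalSpace X] [CompactSpace X] [T2Space X]
    (T : C(PUnit.{u + 1}, ℝ) ≃L[ℝ] C(X, ℝ)) (x y : X) : x = y := by
  by_contra hxy
  obtain ⟨f, h0, h1, -⟩ := exists_continuous_zero_one_of_isClosed (isClosed_singleton (x := x))
    (isClosed_singleton (x := y)) (disjoint_singleton.2 hxy)
  have key : ∀ g : C(X, ℝ), T.symm 1 PUnit.unit • g = T.symm g PUnit.unit • (1 : C(X, ℝ)) :=
    fun g => T.symm.injective (by
      simp only [_root_.map_smul]
      ext z
      exact mul_comm _ _)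
  have h2 := DFunLike.congr_fun (key f) x
  have h3 := DFunLike.congr_fun (key f) y
  simp only [ContinuousMap.smul_apply, h0 rfl, h1 rfl, Pi.zero_apply, Pi.one_apply, smul_eq_mul,
    mul_zero, mul_one, ContinuousMap.one_apply] at h2 h3
  have h4 : T.symm 1 = 0 := ContinuousMap.ext fun z => h3.trans h2.symm
  have h5 := DFunLike.congr_fun ((map_eq_zero_iff _ T.symm.injective).1 h4) x
  simp at h5

theorem nil_of_iso {w : List (Type u)} (hw : ∀ I ∈ w, Infinite I)
    (T : C(S.{u} [], ℝ) ≃L[ℝ] C(S w, ℝ)) : w = [] := by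
  refine (infinite_or w hw).resolve_right fun h => ?_
  obtain ⟨x, y, hxy⟩ := one_lt_iff_nontrivial.1 (one_lt_aleph0.trans_le h)
  exact hxy (subsingleton_of_iso T x y)

theorem main (v w : List (Type u)) (hv : ∀ I ∈ v, Infinite I) (hw : ∀ J ∈ w, Infinite J) :
    (∃ T : C(S v, ℝ) ≃L[ℝ] C(S w, ℝ), ∀ f, 0 ≤ f → 0 ≤ T f) ↔
      #(S v) = #(S w) ∧ List.SublistForall₂ (fun I J => #I ≤ #J) v w := by
  constructor
  · rintro ⟨T, hT⟩
    refine ⟨?_, sub_of_dd w v hv (dd_of_pos T hT _ (fun c hc => ?_) ⟨_, root_mem v hv⟩)⟩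
    · rcases eq_or_ne v [] with rfl | h1
      · rw [nil_of_iso hw T]
      · rcases eq_or_ne w [] with rfl | h2
        · exact absurd (nil_of_iso hv T.symm) h1
        · exact (mk_le_of_iso hw T h2).antisymm (mk_le_of_iso hv T.symm h1)
    · obtain ⟨I, hI, rfl⟩ := List.mem_map.1 hc
      have := hv I hI
      exact aleph0_le_mk I
  · rintro ⟨hc, h⟩
    rcases eq_or_ne v [] with rfl | hne
    · obtain rfl : w = [] := (infinite_or w hw).resolve_right fun h =>
        absurd (h.trans (hc.symm.trans (mk_eq_one PUnit)).le) (not_le.2 one_lt_aleph0)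
      exact ⟨.refl _ _, fun f hf => hf⟩
    obtain ⟨g, h1, h2, h3⟩ := ex_embed hw h
    obtain ⟨p, d, Λ, u, h4, h5, h6, h7, h8⟩ := ex_fill v hv hne
    obtain ⟨e, he⟩ := extend_function (s := Λᶜ) ⟨fun x => g x, h1.comp Subtype.val_injective⟩ (by
      rw [← Cardinal.eq, compl_compl]
      refine le_antisymm ((mk_image_eq h1).symm.trans_le (mk_le_mk_of_subset ?_))
        ((mk_set_le _).trans (h6.trans hc).ge)
      rintro _ ⟨x, hx, rfl⟩ ⟨y, hy⟩
      exact y.2 (h1 hy ▸ hx))
    replace he : ∀ x ∉ Λ, e x = g x := fun x hx => he ⟨x, hx⟩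
    have hr : e (root v) = root w := (he _ h5).trans h2
    refine pos_iso h4 (std w) e.symm (e.symm_apply_eq.2 hr.symm) u fun t ht => Or.inr ?_
    obtain ⟨x, rfl⟩ := e.surjective t
    rw [e.symm_apply_apply]
    by_cases hx : x ∈ Λ
    · exact Or.inl (h7 x hx)
    · have hxr : x ≠ root v := fun h => ht (h ▸ hr)
      refine Or.inr ⟨e (p x), ?_, (e.symm_apply_apply _).symm⟩
      rw [he x hx, he _ (h8 x hx hxr).2, (h8 x hx hxr).1]
      exact h3 x hxr

end Pool.Agent.Lib.PM42.Word
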